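import Mathlib
import Pool.Agent.Lib.MP_15a8b6_co.Plan

set_option autoImplicit false

open Set Function

namespace Pool.Agent.Lib.EU59

open Pool.Agent.Lib.MP_15a8b6_co

variable {S : Type*} [TopologicalSpace S] {X Y E : Type*}

/-- Every point has small discs around it. -/
def HD (S : Type*) [TopologicalSpace S] : Prop :=
  ∀ (p : S) (O : Set S), IsOpen O → p ∈ O → ∃ K U : Set S, IsDisc K U ∧ p ∈ U ∧ K ⊆ O

/-- Embeddability with a normalised edge index type. -/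
def Em (S : Type*) [TopologicalSpace S] {X : Type*} (W : Finset X) (R : X → X → Prop) : Prop :=
  Emb S (Sym2 X) W R

theorem em_of_emb {W : Finset X} {R : X → X → Prop} (h : Emb S E W R) : Em S W R := by
  classical
  obtain ⟨F, ends, pos, A, hF, h1, h2⟩ := h
  have hc : ∀ z : Sym2 X, z ∈ ends '' F → ∃ e, e ∈ F ∧ ends e = z := fun z hz => hz
  choose g hg hg' using hc
  refine ⟨ends '' F, id, pos, fun z => if h : z ∈ ends '' F then A (g z h) else ∅, hF.image _,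
    ⟨h1.inj, ?_, ?_, ?_⟩, ?_⟩
  · intro z hz
    obtain ⟨a, ha, b, hb, h3, h4⟩ := h1.arc _ (hg z hz)
    exact ⟨a, ha, b, hb, (hg' z hz).symm.trans h3, by simpa only [dif_pos hz] using h4⟩
  · intro z hz w hw h3
    simp only [dif_pos hz] at h3
    have := h1.avoid _ (hg z hz) w hw h3
    rwa [hg' z hz] at this
  · intro z hz z' hz' hne
    simp only [dif_pos hz, dif_pos hz']
    refine h1.cross _ (hg z hz) _ (hg z' hz') fun h3 => hne ?_
    rw [← hg' z hz, ← hg' z' hz', h3]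
  · intro a ha b hb hab hr
    obtain ⟨e, he, he'⟩ := h2 a ha b hb hab hr
    exact ⟨s(a, b), ⟨e, he, he'⟩, rfl⟩

theorem Em.mono {W W' : Finset X} {R R' : X → X → Prop} (h : Em S W R) (hW : W' ⊆ W)
    (hR : ∀ a ∈ W', ∀ b ∈ W', a ≠ b → R' a b → R a b) : Em S W' R' :=
  Emb.mono h hW hR

theorem Em.symm_closure {W : Finset X} {R : X → X → Prop} (h : Em S W R) :
    Em S W fun a b => R a b ∨ R b a := by
  obtain ⟨F, ends, pos, A, hF, h1, h2⟩ := h
  refine ⟨F, ends, pos, A, hF, h1, ?_⟩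
  rintro a ha b hb hab (hr | hr)
  · exact h2 a ha b hb hab hr
  · obtain ⟨e, he, he'⟩ := h2 b hb a ha hab.symm hr
    exact ⟨e, he, he'.trans Sym2.eq_swap⟩

theorem emb_transport [Nonempty S] [DecidableEq Y] {W : Finset X} {R : X → X → Prop}
    (h : Emb S E W R) (f : X → Y) (hf : InjOn f W) :
    Emb S E (W.image f) fun u v => ∃ a ∈ W, ∃ b ∈ W, R a b ∧ f a = u ∧ f b = v := by
  classical
  obtain ⟨F, ends, pos, A, hF, h1, h2⟩ := h
  have hp : ∃ pos' : Y → S, ∀ a ∈ W, pos' (f a) = pos a := by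
    refine ⟨fun u => if h : ∃ a ∈ W, f a = u then pos h.choose else Classical.arbitrary S, ?_⟩
    intro a ha
    have h3 : ∃ a' ∈ W, f a' = f a := ⟨a, ha, rfl⟩
    simp only [dif_pos h3]
    rw [hf h3.choose_spec.1 ha h3.choose_spec.2]
  obtain ⟨pos', hp⟩ := hp
  refine ⟨F, fun e => (ends e).map f, pos', A, hF, ⟨?_, ?_, ?_, ?_⟩, ?_⟩
  · intro u hu v hv huv
    obtain ⟨a, ha, rfl⟩ := Finset.mem_image.1 hu
    obtain ⟨b, hb, rfl⟩ := Finset.mem_image.1 hv
    rw [hp a ha, hp b hb] at huv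
    rw [h1.inj ha hb huv]
  · intro e he
    obtain ⟨a, ha, b, hb, h3, h4⟩ := h1.arc e he
    refine ⟨f a, Finset.mem_image_of_mem f ha, f b, Finset.mem_image_of_mem f hb, by simp [h3], ?_⟩
    rwa [hp a ha, hp b hb]
  · intro e he u hu h3
    obtain ⟨a, ha, rfl⟩ := Finset.mem_image.1 hu
    rw [hp a ha] at h3
    exact Sym2.mem_map.2 ⟨a, h1.avoid e he a ha h3, rfl⟩
  · intro e he e' he' hne p hp'
    obtain ⟨a, ha, rfl⟩ := h1.cross e he e' he' hne hp'
    exact ⟨f a, Finset.mem_image_of_mem f ha, hp a ha⟩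
  · rintro _ - _ - hne ⟨a, ha, b, hb, hr, rfl, rfl⟩
    obtain ⟨e, he, he'⟩ := h2 a ha b hb (fun h => hne (by rw [h])) hr
    exact ⟨e, he, by simp [he']⟩

theorem connIn_step {R : X → X → Prop} {T : Set X} {a b : X} (h : ConnIn R T a b) (hab : a ≠ b) :
    ∃ x y, x ≠ y ∧ R x y ∧ x ∈ T ∧ y ∈ T := by
  induction h with
  | refl => exact absurd rfl hab
  | @tail c d _ h ih =>
    by_cases hcd : c = d
    · exact ih (hcd ▸ hab)
    · exact ⟨c, d, hcd, h⟩

/-- Contraction of the connected fibres of a map. -/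
theorem emb_minor [T2Space S] [Nonempty S] [DecidableEq Y] (hS : HD S) (f : X → Y) :
    ∀ (n : ℕ) (W : Finset X) (R : X → X → Prop), W.card = n → Emb S E W R →
      (∀ a ∈ W, ∀ b ∈ W, f a = f b → ConnIn R {x | x ∈ W ∧ f x = f a} a b) →
      Emb S E (W.image f) fun u v => ∃ a ∈ W, ∃ b ∈ W, R a b ∧ f a = u ∧ f b = v := by
  classical
  intro n
  induction n using Nat.strong_induction_on with
  | _ n ih =>
    intro W R hn h hc
    by_cases hf : InjOn f W
    · exact emb_transport h f hf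
    obtain ⟨a, ha, b, hb, hab, hne⟩ : ∃ a ∈ W, ∃ b ∈ W, f a = f b ∧ a ≠ b := by
      by_contra hcon
      push Not at hcon
      exact hf fun a ha b hb hab => hcon a ha b hb hab
    obtain ⟨x, y, hxy, hr, hx, hy⟩ := connIn_step (hc a ha b hb hab) hne
    have hfxy : f x = f y := hx.2.trans hy.2.symm
    have h1 := Emb.contract hS h hx.1 hy.1 hxy hr
    have hρ : ∀ c, f (if c = y then x else c) = f c := by
      intro c
      split_ifs with h2
      · rw [h2, hfxy]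
      · rfl
    have hρW : ∀ c ∈ W, (if c = y then x else c) ∈ W.erase y := by
      intro c hc'
      split_ifs with h2
      · exact Finset.mem_erase.2 ⟨hxy, hx.1⟩
      · exact Finset.mem_erase.2 ⟨h2, hc'⟩
    have h2 := ih _ (hn ▸ Finset.card_erase_lt_of_mem hy.1) (W.erase y) _ rfl h1 (by
      intro c hc1 d hd1 hcd
      have h3 := (hc c (Finset.mem_of_mem_erase hc1) d (Finset.mem_of_mem_erase hd1) hcd).lift
        (fun w => if w = y then x else w)
        (R' := fun a b => ∃ a' ∈ W, ∃ b' ∈ W, R a' b' ∧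
          (if a' = y then x else a') = a ∧ (if b' = y then x else b') = b)
        (T' := {w | w ∈ W.erase y ∧ f w = f c}) (by
          rintro p q h4 ⟨hp1, hp2⟩ ⟨hq1, hq2⟩
          exact Relation.ReflTransGen.single ⟨⟨p, hp1, q, hq1, h4, rfl, rfl⟩,
            ⟨hρW p hp1, (hρ p).trans hp2⟩, ⟨hρW q hq1, (hρ q).trans hq2⟩⟩)
      rwa [if_neg (Finset.ne_of_mem_erase hc1), if_neg (Finset.ne_of_mem_erase hd1)] at h3)
    refine h2.mono ?_ ?_
    · intro u hu
      obtain ⟨c, hc1, rfl⟩ := Finset.mem_image.1 hu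
      exact Finset.mem_image.2 ⟨_, hρW c hc1, hρ c⟩
    · rintro _ - _ - - ⟨c, hc1, d, hd1, h4, rfl, rfl⟩
      exact ⟨_, hρW c hc1, _, hρW d hd1, ⟨c, hc1, d, hd1, h4, rfl, rfl⟩, hρ c, hρ d⟩

/-- Minor of an embedded graph: restrict to `W₀`, contract the fibres of `f`. -/
theorem Em.minor [T2Space S] [Nonempty S] (hS : HD S) {W : Finset X} {R : X → X → Prop}
    (h : Em S W R) (W₀ : Finset X) (hW₀ : W₀ ⊆ W) (f : X → Y)
    (hc : ∀ a ∈ W₀, ∀ b ∈ W₀, f a = f b → ConnIn R {x | x ∈ W₀ ∧ f x = f a} a b)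
    {W' : Finset Y} {R' : Y → Y → Prop} (hW' : ∀ u ∈ W', ∃ a ∈ W₀, f a = u)
    (hR' : ∀ u ∈ W', ∀ v ∈ W', u ≠ v → R' u v →
      ∃ a ∈ W₀, ∃ b ∈ W₀, R a b ∧ f a = u ∧ f b = v) : Em S W' R' := by
  classical
  have h1 := emb_minor hS f _ W₀ R rfl (Emb.mono h hW₀ fun _ _ _ _ _ h => h) hc
  exact (em_of_emb h1).mono (fun u hu => Finset.mem_image.2 (hW' u hu)) hR'

/-- Fibres are connected if every point is joined to a base point of its fibre. -/
theorem conn_of_base {W₀ : Finset X} {R : X → X → Prop} (hR : ∀ a b, R a b → R b a) (f : X → Y)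
    (g : Y → X) (h : ∀ a ∈ W₀, ConnIn R {x | x ∈ W₀ ∧ f x = f a} a (g (f a))) :
    ∀ a ∈ W₀, ∀ b ∈ W₀, f a = f b → ConnIn R {x | x ∈ W₀ ∧ f x = f a} a b := by
  intro a ha b hb hab
  have h1 := (h b hb).symm hR
  rw [← hab] at h1
  exact (h a ha).trans h1

theorem em_of_arcs {W : Finset X} {R : X → X → Prop} (pos : X → S) (A : X → X → Set S)
    (hinj : InjOn pos W) (harc : ∀ a ∈ W, ∀ b ∈ W, R a b → IsArc (A a b) (pos a) (pos b))
    (hav : ∀ a ∈ W, ∀ b ∈ W, R a b → ∀ w ∈ W, pos w ∈ A a b → w = a ∨ w = b)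
    (hcr : ∀ a ∈ W, ∀ b ∈ W, R a b → ∀ c ∈ W, ∀ d ∈ W, R c d → (a, b) ≠ (c, d) →
      A a b ∩ A c d ⊆ pos '' W) : Em S W R := by
  refine em_of_emb (E := X × X) ⟨{e | e.1 ∈ W ∧ e.2 ∈ W ∧ R e.1 e.2}, fun e => s(e.1, e.2), pos,
    fun e => A e.1 e.2, (W.finite_toSet.prod W.finite_toSet).subset fun e he => ⟨he.1, he.2.1⟩,
    ⟨hinj, ?_, ?_, ?_⟩, fun a ha b hb _ hr => ⟨(a, b), ⟨ha, hb, hr⟩, rfl⟩⟩
  · rintro ⟨a, b⟩ ⟨ha, hb, hr⟩
    exact ⟨a, ha, b, hb, rfl, harc a ha b hb hr⟩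
  · rintro ⟨a, b⟩ ⟨ha, hb, hr⟩ w hw h
    exact Sym2.mem_iff.2 (hav a ha b hb hr w hw h)
  · rintro ⟨a, b⟩ ⟨ha, hb, hr⟩ ⟨c, d⟩ ⟨hc, hd, hr'⟩ hne
    exact hcr a ha b hb hr c hc d hd hr' hne

section Dihedral

variable {Φ : Type*} {a b : Φ → Φ}

theorem dih_ne (ha : Involutive a) (hb : Involutive b) (ha' : ∀ φ, a φ ≠ φ) (hb' : ∀ φ, b φ ≠ φ) :
    ∀ (k : ℕ) (φ : Φ), (a ∘ b)^[k] φ ≠ a φ := by
  intro k
  induction k using Nat.twoStepInduction with
  | zero => exact fun φ h => ha' φ h.symm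
  | one => exact fun φ h => hb' φ (ha.injective h)
  | more k ih _ =>
    intro φ h
    rw [iterate_succ_apply', iterate_succ_apply] at h
    have h1 : b ((a ∘ b)^[k] (a (b φ))) = φ := ha.injective h
    apply ih (a (b φ))
    rw [ha, ← hb ((a ∘ b)^[k] (a (b φ))), h1]

theorem dih_conj (ha : Involutive a) (hb : Involutive b) (k : ℕ) (φ : Φ) :
    (a ∘ b)^[k] (a ((a ∘ b)^[k] φ)) = a φ := by
  induction k generalizing φ with
  | zero => rfl
  | succ k ih =>
    rw [iterate_succ_apply, iterate_succ_apply' (a ∘ b) k φ]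
    simp only [comp_apply]
    rw [ha, hb, ih]

theorem dih_injOn (ha : Involutive a) (hb : Involutive b) (ha' : ∀ φ, a φ ≠ φ)
    (hb' : ∀ φ, b φ ≠ φ) {l : ℕ} {φ : Φ} (h : ∀ k, 0 < k → k < l → (a ∘ b)^[k] φ ≠ φ) :
    InjOn (fun p : ℕ × Bool => if p.2 then a ((a ∘ b)^[p.1] φ) else (a ∘ b)^[p.1] φ)
      (Finset.range l ×ˢ (Finset.univ : Finset Bool) : Finset (ℕ × Bool)) := by
  have hi : Injective (a ∘ b) := ha.injective.comp hb.injective
  have key : ∀ i j, i < l → j < l → (a ∘ b)^[i] φ = (a ∘ b)^[j] φ → i = j := by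
    intro i j h1 h2 h3
    wlog hij : i ≤ j generalizing i j
    · exact (this j i h2 h1 h3.symm (by omega)).symm
    obtain ⟨k, rfl⟩ := Nat.exists_eq_add_of_le hij
    rw [iterate_add_apply] at h3
    by_contra hne
    exact h k (by omega) (by omega) ((hi.iterate i) h3).symm
  have key2 : ∀ i j, (a ∘ b)^[i] φ ≠ a ((a ∘ b)^[j] φ) := by
    intro i j h3
    apply dih_ne ha hb ha' hb' (j + i) φ
    rw [iterate_add_apply, h3, dih_conj ha hb]
  rintro ⟨i, s⟩ h1 ⟨j, t⟩ h2 h3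
  simp only [Finset.coe_product, Finset.coe_range, mem_prod, mem_Iio] at h1 h2
  cases s <;> cases t <;> simp only [if_true, if_false, Bool.false_eq_true] at h3
  · rw [key i j h1.1 h2.1 h3]
  · exact absurd h3 (key2 i j)
  · exact absurd h3.symm (key2 j i)
  · rw [key i j h1.1 h2.1 (ha.injective h3)]

/-- Lower bound for a sum over a set containing a long enough dihedral orbit. -/
theorem dih_sum_ge [DecidableEq Φ] (ha : Involutive a) (hb : Involutive b) (ha' : ∀ φ, a φ ≠ φ)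
    (hb' : ∀ φ, b φ ≠ φ) {l : ℕ} {φ : Φ} (h : ∀ k, 0 < k → k < l → (a ∘ b)^[k] φ ≠ φ)
    {O : Finset Φ} (hφ : φ ∈ O) (hOa : ∀ ψ ∈ O, a ψ ∈ O) (hOb : ∀ ψ ∈ O, b ψ ∈ O)
    (t : Φ → ℕ) (ht : ∀ ψ, t (a ψ) = t ψ) :
    2 * ∑ i ∈ Finset.range l, t ((a ∘ b)^[i] φ) ≤ ∑ ψ ∈ O, t ψ := by
  have hm : ∀ i, (a ∘ b)^[i] φ ∈ O := by
    intro i
    induction i with
    | zero => exact hφ
    | succ i ih => rw [iterate_succ_apply']; exact hOa _ (hOb _ ih)
  have h1 := Finset.sum_image (f := t) (dih_injOn ha hb ha' hb' h)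
  have h2 : ∑ p ∈ Finset.range l ×ˢ (Finset.univ : Finset Bool),
      t (if p.2 then a ((a ∘ b)^[p.1] φ) else (a ∘ b)^[p.1] φ) =
      2 * ∑ i ∈ Finset.range l, t ((a ∘ b)^[i] φ) := by
    rw [Finset.sum_product, Finset.mul_sum]
    refine Finset.sum_congr rfl fun i _ => ?_
    simp [ht, two_mul]
  rw [← h2, ← h1]
  refine Finset.sum_le_sum_of_subset ?_
  intro ψ hψ
  obtain ⟨p, -, rfl⟩ := Finset.mem_image.1 hψ
  split_ifs
  · exact hOa _ (hm _)
  · exact hm _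

/-- Upper bound for a sum over a dihedral orbit of known period. -/
theorem dih_sum_le [DecidableEq Φ] (ha : Involutive a) (hb : Involutive b) {l : ℕ} {φ : Φ}
    (hl : 0 < l) (h : (a ∘ b)^[l] φ = φ) {O : Finset Φ}
    (hO : ∀ ψ ∈ O, Relation.ReflTransGen (fun x y => y = a x ∨ y = b x) φ ψ)
    (t : Φ → ℕ) (ht : ∀ ψ, t (a ψ) = t ψ) :
    ∑ ψ ∈ O, t ψ ≤ 2 * ∑ i ∈ Finset.range l, t ((a ∘ b)^[i] φ) := by
  have key : ∀ ψ, Relation.ReflTransGen (fun x y => y = a x ∨ y = b x) φ ψ →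
      ∃ i < l, ψ = (a ∘ b)^[i] φ ∨ ψ = a ((a ∘ b)^[i] φ) := by
    intro ψ hψ
    induction hψ with
    | refl => exact ⟨0, hl, Or.inl rfl⟩
    | tail _ h1 ih =>
      obtain ⟨i, hi, h2⟩ := ih
      rcases h1 with rfl | rfl <;> rcases h2 with rfl | rfl
      · exact ⟨i, hi, Or.inr rfl⟩
      · exact ⟨i, hi, Or.inl (ha _)⟩
      · have h3 : b ((a ∘ b)^[i] φ) = a ((a ∘ b)^[i + 1] φ) := by
          rw [iterate_succ_apply']
          exact (ha _).symm
        by_cases h4 : i + 1 < l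
        · exact ⟨i + 1, h4, Or.inr h3⟩
        · refine ⟨0, hl, Or.inr ?_⟩
          rw [h3, show i + 1 = l by omega, h]
          rfl
      · have h3 : ∀ j, b (a ((a ∘ b)^[j + 1] φ)) = (a ∘ b)^[j] φ := by
          intro j
          rw [iterate_succ_apply']
          simp only [comp_apply]
          rw [ha, hb]
        rcases i with _ | i
        · obtain ⟨j, rfl⟩ : ∃ j, l = j + 1 := ⟨l - 1, by omega⟩
          refine ⟨j, by omega, Or.inl ?_⟩
          rw [← h3 j, h]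
          rfl
        · exact ⟨i, by omega, Or.inl (h3 i)⟩
  have h2 : ∑ p ∈ Finset.range l ×ˢ (Finset.univ : Finset Bool),
      t (if p.2 then a ((a ∘ b)^[p.1] φ) else (a ∘ b)^[p.1] φ) =
      2 * ∑ i ∈ Finset.range l, t ((a ∘ b)^[i] φ) := by
    rw [Finset.sum_product, Finset.mul_sum]
    refine Finset.sum_congr rfl fun i _ => ?_
    simp [ht, two_mul]
  rw [← h2]
  refine le_trans (Finset.sum_le_sum_of_subset (t := (Finset.range l ×ˢ
    (Finset.univ : Finset Bool)).image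
      fun p : ℕ × Bool => if p.2 then a ((a ∘ b)^[p.1] φ) else (a ∘ b)^[p.1] φ) ?_)
    (Finset.sum_image_le_of_nonneg fun _ _ => Nat.zero_le _)
  intro ψ hψ
  obtain ⟨i, hi, h3 | h3⟩ := key ψ (hO ψ hψ)
  · exact Finset.mem_image.2 ⟨(i, false), by simpa using hi, by simp [h3]⟩
  · exact Finset.mem_image.2 ⟨(i, true), by simpa using hi, by simp [h3]⟩

end Dihedral

end Pool.Agent.Lib.EU59
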