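import Mathlib
import Pool.Agent.Lib.EU59.Basic

set_option autoImplicit false

open Set Function Metric

namespace Pool.Agent.Lib.EU59

open Pool.Agent.Lib.MP_15a8b6_co

variable {S : Type*} [TopologicalSpace S]

/-- Arcs from the points `y i` to `c` inside `O` that meet only in `c`. -/
def Fan {ι : Type*} (O : Set S) (y : ι → S) (c : S) : Prop :=
  ∃ B : ι → Set S, (∀ i, IsArc (B i) (y i) c ∧ B i ⊆ O) ∧ ∀ i j, i ≠ j → B i ∩ B j ⊆ {c}

/-- Chords of a disc between boundary points, ordered by `θ`. -/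
structure Chords (U B : Set S) (θ : S → ℝ) (sg : S → S → Set S) : Prop where
  inj : InjOn θ B
  arc : ∀ p ∈ B, ∀ q ∈ B, p ≠ q → IsArc (sg p q) p q
  sub : ∀ p ∈ B, ∀ q ∈ B, p ≠ q → sg p q ⊆ U ∪ {p, q}
  cross : ∀ p ∈ B, ∀ q ∈ B, ∀ r ∈ B, ∀ t ∈ B, θ p < θ q → θ r < θ t → (p, q) ≠ (r, t) →
    ¬ (θ p < θ r ∧ θ r < θ q ∧ θ q < θ t) → ¬ (θ r < θ p ∧ θ p < θ t ∧ θ t < θ q) →
    sg p q ∩ sg r t ⊆ {p, q}

/-- A round disc: closed disc `K`, interior `U`. -/
structure CDisc (K U : Set S) : Prop where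
  closed : IsClosed K
  isOpen : IsOpen U
  sub : U ⊆ K
  inf : (K \ U).Infinite
  fan : ∀ q ∈ K, q ∉ U → ∀ O, IsOpen O → q ∈ O → ∀ N : ℕ,
    ∃ y : Fin N → S, Injective y ∧ (∀ i, y i ∈ U) ∧ Fan O y q
  ch : ∀ T : Set S, T.Finite → ∃ (B : Set S) (θ : S → ℝ) (sg : S → S → Set S),
    B ⊆ K \ U ∧ Chords U B θ sg ∧ ∀ q ∈ T, q ∈ K → q ∉ U → ∀ ε > 0, ∃ O, IsOpen O ∧ q ∈ O ∧
      ∀ q' ∈ O, q' ∈ K → q' ∉ U → q' ∈ B ∧ |θ q' - θ q| < ε

theorem isArc_image {S' : Type*} [TopologicalSpace S'] {A : Set S} {p q : S} (h : IsArc A p q)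
    {ψ : S → S'} (hc : ContinuousOn ψ A) (hi : InjOn ψ A) : IsArc (ψ '' A) (ψ p) (ψ q) := by
  obtain ⟨γ, hγ, rfl⟩ := h
  refine ⟨⟨⟨fun t => ψ (γ t), hc.comp_continuous γ.continuous fun t => ⟨t, rfl⟩⟩, by simp,
    by simp⟩, fun a b hab => hγ (hi ⟨a, rfl⟩ ⟨b, rfl⟩ hab), ?_⟩
  ext x
  simp

abbrev E2 := EuclideanSpace ℝ (Fin 2)

theorem isArc_segment {p q : E2} (h : p ≠ q) : IsArc (segment ℝ p q) p q :=
  ⟨Path.segment p q, Path.segment_injective_of_ne h, Path.range_segment p q⟩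

theorem rank_E2 : 1 < Module.rank ℝ E2 := by
  rw [← Module.finrank_eq_rank, finrank_euclideanSpace_fin]
  norm_num

theorem sphere_nontrivial (o : E2) {r : ℝ} (hr : 0 < r) : (sphere o r).Nontrivial := by
  obtain ⟨v, hv⟩ := (NormedSpace.sphere_nonempty (E := E2) (x := 0) (r := r)).2 hr.le
  have hv' : ‖v‖ = r := by simpa using hv
  refine ⟨o + v, by simpa using hv', o - v, by simpa using hv', fun h => ?_⟩
  have h1 : (2 : ℝ) • v = 0 := by
    rw [two_smul]
    have := congrArg (fun x => x - o + v) h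
    simpa using this
  have h2 : v = 0 := (smul_eq_zero.1 h1).resolve_left two_ne_zero
  rw [h2, norm_zero] at hv'
  exact hr.ne hv'

theorem sphere_inter_infinite (o : E2) {r : ℝ} (hr : 0 < r) {O : Set E2} (hO : IsOpen O) {x : E2}
    (hx : x ∈ O ∩ sphere o r) : (O ∩ sphere o r).Infinite :=
  Set.Infinite.of_accPt
    ((((isPreconnected_sphere rank_E2 o r).preperfect_of_nontrivial
      (sphere_nontrivial o hr)).open_inter hO) x hx)

theorem plane_fan {o q : E2} {r : ℝ} (hr : 0 < r) (hq : q ∈ sphere o r) {O : Set E2}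
    (hO : IsOpen O) (hqO : q ∈ O) (N : ℕ) :
    ∃ y : Fin N → E2, Injective y ∧ (∀ i, y i ∈ ball o r) ∧ Fan O y q := by
  obtain ⟨δ₀, hδ₀, hb⟩ := nhds_basis_closedBall.mem_iff.1 (hO.mem_nhds hqO)
  set δ := min δ₀ (r / 2) with hδ
  have hδ0 : 0 < δ := lt_min hδ₀ (half_pos hr)
  have hδr : δ ≤ r / 2 := min_le_right _ _
  have hb' : closedBall q δ ⊆ O := (closedBall_subset_closedBall (min_le_left _ _)).trans hb
  have hq' : ‖q - o‖ = r := by simpa [dist_eq_norm] using hq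
  have hx : q + (δ / r) • (o - q) ∈ ball o r ∩ sphere q δ := by
    constructor
    · rw [mem_ball_iff_norm]
      have : q + (δ / r) • (o - q) - o = (1 - δ / r) • (q - o) := by module
      have h1 : δ / r ≤ 1 / 2 := by rw [div_le_iff₀ hr]; linarith
      rw [this, norm_smul, hq', Real.norm_of_nonneg (by linarith)]
      have : 0 < δ / r := div_pos hδ0 hr
      nlinarith
    · rw [mem_sphere_iff_norm, add_sub_cancel_left, norm_smul, norm_sub_rev, hq',
        Real.norm_of_nonneg (div_pos hδ0 hr).le, div_mul_cancel₀ _ hr.ne']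
  have hinf := sphere_inter_infinite q hδ0 isOpen_ball hx
  set y : Fin N → E2 := fun i => (hinf.natEmbedding _ i : E2) with hy
  have hy1 : ∀ i, y i ∈ ball o r ∩ sphere q δ := fun i => (hinf.natEmbedding _ i).2
  have hn : ∀ i, ‖y i - q‖ = δ := fun i => by simpa [dist_eq_norm] using (hy1 i).2
  have hinj : Injective y := fun i j h =>
    Fin.ext ((hinf.natEmbedding _).injective (Subtype.ext h))
  refine ⟨y, hinj, fun i => (hy1 i).1, fun i => segment ℝ (y i) q, fun i => ⟨isArc_segment ?_, ?_⟩,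
    ?_⟩
  · intro h
    have := hn i
    rw [h, sub_self, norm_zero] at this
    exact hδ0.ne this
  · exact ((convex_closedBall q δ).segment_subset (sphere_subset_closedBall (hy1 i).2)
      (mem_closedBall_self hδ0.le)).trans hb'
  · rintro i j hij p ⟨⟨a, b, ha, hb, hab, rfl⟩, ⟨c, d, hc, hd, hcd, h⟩⟩
    have h1 : c • (y j - q) = a • (y i - q) := by
      have e1 : b = 1 - a := by linarith
      have e2 : d = 1 - c := by linarith
      rw [e1, e2] at h
      have : c • (y j - q) = (c • y j + (1 - c) • q) - q := by module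
      rw [this, h]
      module
    have h2 : c = a := by
      have := congrArg norm h1
      rw [norm_smul, norm_smul, hn, hn, Real.norm_of_nonneg hc, Real.norm_of_nonneg ha] at this
      exact mul_right_cancel₀ hδ0.ne' this
    by_cases h3 : a = 0
    · have : b = 1 := by linarith
      simp [h3, this]
    · rw [h2] at h1
      exact absurd (hinj (sub_left_injective (smul_right_injective E2 h3 h1))).symm hij

theorem sign_alg {α β γ δ c d u v : ℝ} (hpq : α < β) (hst : γ < δ)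
    (h1 : ¬ (α < γ ∧ γ < β ∧ β < δ)) (h2 : ¬ (γ < α ∧ α < δ ∧ δ < β)) (hc : 0 ≤ c) (hd : 0 ≤ d)
    (hu : 0 < u) (hv : 0 < v)
    (key : c * (u * ((γ - α) * (γ - β))) + d * (v * ((δ - α) * (δ - β))) = 0) :
    c * (u * ((γ - α) * (γ - β))) = 0 ∧ d * (v * ((δ - α) * (δ - β))) = 0 := by
  have hsame : (0 ≤ (γ - α) * (γ - β) ∧ 0 ≤ (δ - α) * (δ - β)) ∨
      ((γ - α) * (γ - β) ≤ 0 ∧ (δ - α) * (δ - β) ≤ 0) := by
    by_cases h3 : α ≤ γ
    · by_cases h4 : β ≤ γ
      · exact Or.inl ⟨mul_nonneg (by linarith) (by linarith),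
          mul_nonneg (by linarith) (by linarith)⟩
      · by_cases h5 : δ ≤ β
        · exact Or.inr ⟨mul_nonpos_of_nonneg_of_nonpos (by linarith) (by linarith),
            mul_nonpos_of_nonneg_of_nonpos (by linarith) (by linarith)⟩
        · have h6 : γ = α := by
            by_contra h6
            exact h1 ⟨lt_of_le_of_ne h3 (Ne.symm h6), not_le.1 h4, not_le.1 h5⟩
          exact Or.inl ⟨by rw [h6, sub_self, zero_mul], mul_nonneg (by linarith) (by linarith)⟩
    · refine Or.inl ⟨mul_nonneg_of_nonpos_of_nonpos (by linarith) (by linarith), ?_⟩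
      by_cases h4 : δ ≤ α
      · exact mul_nonneg_of_nonpos_of_nonpos (by linarith) (by linarith)
      · have h5 : β ≤ δ := by
          by_contra h5
          exact h2 ⟨not_le.1 h3, not_le.1 h4, not_le.1 h5⟩
        exact mul_nonneg (by linarith) (by linarith)
  rcases hsame with ⟨h3, h4⟩ | ⟨h3, h4⟩
  · have h5 := mul_nonneg hc (mul_nonneg hu.le h3)
    have h6 := mul_nonneg hd (mul_nonneg hv.le h4)
    constructor <;> linarith
  · have h5 := mul_nonpos_of_nonneg_of_nonpos hc (mul_nonpos_of_nonneg_of_nonpos hu.le h3)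
    have h6 := mul_nonpos_of_nonneg_of_nonpos hd (mul_nonpos_of_nonneg_of_nonpos hv.le h4)
    constructor <;> linarith

/-- Stereographic coordinates on a circle. -/
theorem stereo (o : E2) {r : ℝ} (hr : 0 < r) {N : E2} (hN : N ∈ sphere o r) :
    ∃ X Y : E2 → ℝ, Continuous X ∧ Continuous Y ∧
      (∀ (a b : ℝ) (p q : E2), a + b = 1 → X (a • p + b • q) = a * X p + b * X q) ∧
      (∀ (a b : ℝ) (p q : E2), a + b = 1 → Y (a • p + b • q) = a * Y p + b * Y q) ∧
      (∀ p q, X p = X q → Y p = Y q → p = q) ∧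
      ∀ q ∈ sphere o r \ {N}, 0 < Y q ∧ X q ^ 2 + Y q ^ 2 = r ^ 2 * (2 * Y q) := by
  have hsq : ∀ q ∈ sphere o r, (q 0 - o 0) ^ 2 + (q 1 - o 1) ^ 2 = r ^ 2 := by
    intro q hq
    have h1 : dist q o = r := hq
    have h2 := EuclideanSpace.dist_sq_eq q o
    rw [h1, Fin.sum_univ_two, Real.dist_eq, Real.dist_eq, sq_abs, sq_abs] at h2
    exact h2.symm
  have hR := hsq N hN
  have hr2 : 0 < r ^ 2 := by positivity
  have hext : ∀ p q : E2, p 0 = q 0 → p 1 = q 1 → p = q := by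
    intro p q h0 h1
    ext i
    fin_cases i
    · exact h0
    · exact h1
  refine ⟨fun q => -(o 1 - N 1) * (q 0 - N 0) + (o 0 - N 0) * (q 1 - N 1),
    fun q => (o 0 - N 0) * (q 0 - N 0) + (o 1 - N 1) * (q 1 - N 1), by fun_prop, by fun_prop,
    ?_, ?_, ?_, ?_⟩
  · intro a b p q hab
    simp only [PiLp.add_apply, PiLp.smul_apply, smul_eq_mul]
    linear_combination (-(o 1 - N 1) * N 0 + (o 0 - N 0) * N 1) * hab
  · intro a b p q hab
    simp only [PiLp.add_apply, PiLp.smul_apply, smul_eq_mul]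
    linear_combination ((o 0 - N 0) * N 0 + (o 1 - N 1) * N 1) * hab
  · intro p q h6 h5
    simp only at h5 h6
    have h7 : r ^ 2 * (p 0 - q 0) = 0 := by
      rw [← hR]
      linear_combination (o 0 - N 0) * h5 - (o 1 - N 1) * h6
    have h8 : r ^ 2 * (p 1 - q 1) = 0 := by
      rw [← hR]
      linear_combination (o 1 - N 1) * h5 + (o 0 - N 0) * h6
    exact hext p q (sub_eq_zero.1 ((mul_eq_zero.1 h7).resolve_left hr2.ne'))
      (sub_eq_zero.1 ((mul_eq_zero.1 h8).resolve_left hr2.ne'))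
  · rintro q ⟨hq, hqN⟩
    have h1 := hsq q hq
    have h2 : 2 * ((o 0 - N 0) * (q 0 - N 0) + (o 1 - N 1) * (q 1 - N 1)) =
        (q 0 - N 0) ^ 2 + (q 1 - N 1) ^ 2 := by linear_combination hR - h1
    refine ⟨?_, ?_⟩
    · by_contra h3
      have h6 := sq_nonneg (q 0 - N 0)
      have h7 := sq_nonneg (q 1 - N 1)
      have h4 : (q 0 - N 0) ^ 2 = 0 := by linarith
      have h5 : (q 1 - N 1) ^ 2 = 0 := by linarith
      exact hqN (hext q N (sub_eq_zero.1 (pow_eq_zero_iff two_ne_zero |>.1 h4))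
        (sub_eq_zero.1 (pow_eq_zero_iff two_ne_zero |>.1 h5)))
    · simp only
      rw [h2, ← hR]
      ring

theorem plane_ch (o : E2) {r : ℝ} (hr : 0 < r) {N : E2} (hN : N ∈ sphere o r) :
    ∃ θ : E2 → ℝ, Chords (ball o r) (sphere o r \ {N}) θ (segment ℝ) ∧
      ∀ q ∈ sphere o r \ {N}, ContinuousAt θ q := by
  obtain ⟨X, Y, hXc, hYc, hXa, hYa, hext, hB⟩ := stereo o hr hN
  obtain ⟨θ, hθ⟩ : ∃ θ : E2 → ℝ, θ = fun q => X q / Y q := ⟨_, rfl⟩
  have hXY : ∀ q ∈ sphere o r \ {N}, X q = θ q * Y q ∧ Y q * (1 + θ q ^ 2) = 2 * r ^ 2 := by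
    intro q hq
    obtain ⟨h0, h3⟩ := hB q hq
    have h1 : X q = θ q * Y q := by rw [hθ]; exact (div_mul_cancel₀ _ h0.ne').symm
    refine ⟨h1, mul_left_cancel₀ h0.ne' ?_⟩
    rw [h1] at h3
    linear_combination h3
  have hinj : InjOn θ (sphere o r \ {N}) := by
    intro p hp q hq h
    obtain ⟨h1, h2⟩ := hXY p hp
    obtain ⟨h3, h4⟩ := hXY q hq
    rw [h] at h1 h2
    have h5 : Y p = Y q := mul_right_cancel₀ (by positivity) (h2.trans h4.symm)
    exact hext p q (by rw [h1, h3, h5]) h5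
  refine ⟨θ, ⟨hinj, fun p _ q _ h => isArc_segment h, ?_, ?_⟩, ?_⟩
  · intro p hp q hq hpq x hx
    rw [← insert_endpoints_openSegment] at hx
    rcases hx with rfl | rfl | hx
    · exact Or.inr (Or.inl rfl)
    · exact Or.inr (Or.inr rfl)
    · exact Or.inl (openSegment_subset_ball_of_ne (sphere_subset_closedBall hp.1)
        (sphere_subset_closedBall hq.1) hpq hx)
  · rintro p hp q hq s hs t ht hpq hst hne h1 h2 _
      ⟨⟨a, b, ha, hb, hab, rfl⟩, ⟨c, d, hc, hd, hcd, h⟩⟩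
    have hL : ∀ z ∈ sphere o r \ {N}, X z * (θ p + θ q) + Y z * (1 - θ p * θ q) - 2 * r ^ 2 =
        -(Y z * ((θ z - θ p) * (θ z - θ q))) := by
      intro z hz
      obtain ⟨h3, h4⟩ := hXY z hz
      rw [h3, ← h4]
      ring
    have e1 := hXa c d s t hcd
    have e2 := hYa c d s t hcd
    rw [h, hXa a b p q hab] at e1
    rw [h, hYa a b p q hab] at e2
    have l1 := hL p hp
    have l2 := hL q hq
    have l3 := hL s hs
    have l4 := hL t ht
    rw [sub_self, zero_mul, mul_zero, neg_zero] at l1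
    rw [sub_self, mul_zero, mul_zero, neg_zero] at l2
    have hz := sign_alg hpq hst h1 h2 hc hd (hB s hs).1 (hB t ht).1 (by
      linear_combination c * l3 + d * l4 - a * l1 - b * l2 + (θ p + θ q) * e1
        + (1 - θ p * θ q) * e2 + (2 * r ^ 2) * (hcd - hab))
    have hend : ∀ z ∈ sphere o r \ {N}, Y z * ((θ z - θ p) * (θ z - θ q)) = 0 →
        z = p ∨ z = q := by
      intro z hz h3
      rcases mul_eq_zero.1 ((mul_eq_zero.1 h3).resolve_left (hB z hz).1.ne') with h4 | h4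
      · exact Or.inl (hinj hz hp (sub_eq_zero.1 h4))
      · exact Or.inr (hinj hz hq (sub_eq_zero.1 h4))
    rw [← h]
    by_cases hc0 : c = 0
    · have hd1 : d = 1 := by linarith
      rw [hc0, hd1, zero_smul, one_smul, zero_add]
      exact hend t ht (by simpa only [hd1, one_mul] using hz.2)
    by_cases hd0 : d = 0
    · have hc1 : c = 1 := by linarith
      rw [hd0, hc1, zero_smul, one_smul, add_zero]
      exact hend s hs (by simpa only [hc1, one_mul] using hz.1)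
    exfalso
    rcases hend s hs ((mul_eq_zero.1 hz.1).resolve_left hc0) with rfl | rfl <;>
      rcases hend t ht ((mul_eq_zero.1 hz.2).resolve_left hd0) with rfl | rfl
    · exact lt_irrefl _ hst
    · exact hne rfl
    · exact lt_asymm hpq hst
    · exact lt_irrefl _ hst
  · intro q hq
    rw [hθ]
    exact hXc.continuousAt.div hYc.continuousAt (hB q hq).1.ne'

theorem exists_cdisc [T2Space S] [ChartedSpace E2 S] {p : S} {O : Set S} (hO : IsOpen O)
    (hp : p ∈ O) : ∃ K U : Set S, CDisc K U ∧ p ∈ U ∧ K ⊆ O := by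
  set φ := chartAt E2 p with hφ
  have hps : p ∈ φ.source := mem_chart_source E2 p
  have h1 : IsOpen (φ.target ∩ φ.symm ⁻¹' O) := φ.isOpen_inter_preimage_symm hO
  have h2 : φ p ∈ φ.target ∩ φ.symm ⁻¹' O := ⟨φ.map_source hps, by simpa [φ.left_inv hps]⟩
  obtain ⟨r, hr, hb⟩ := nhds_basis_closedBall.mem_iff.1 (h1.mem_nhds h2)
  set o := φ p with ho
  have hbt : closedBall o r ⊆ φ.target := fun x hx => (hb hx).1
  have hinj : InjOn φ.symm φ.target := φ.symm.injOn
  have hbd : ∀ q ∈ closedBall o r, φ.symm q ∉ φ.symm '' ball o r → q ∈ sphere o r := by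
    intro q hq h
    have h3 : q ∉ ball o r := fun h3 => h ⟨q, h3, rfl⟩
    exact le_antisymm hq (not_lt.1 h3)
  have hbd' : ∀ q ∈ sphere o r, φ.symm q ∈ φ.symm '' closedBall o r \ φ.symm '' ball o r := by
    intro q hq
    refine ⟨⟨q, sphere_subset_closedBall hq, rfl⟩, ?_⟩
    rintro ⟨q', hq', h⟩
    rw [hinj (hbt (ball_subset_closedBall hq')) (hbt (sphere_subset_closedBall hq)) h] at hq'
    exact (ne_of_lt hq') hq
  have hinf : (sphere o r).Infinite :=
    (isPreconnected_sphere rank_E2 o r).infinite_of_nontrivial (sphere_nontrivial o hr)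
  refine ⟨φ.symm '' closedBall o r, φ.symm '' ball o r, ⟨?_, ?_, ?_, ?_, ?_, ?_⟩,
    ⟨o, mem_ball_self hr, φ.left_inv hps⟩, ?_⟩
  · exact ((isCompact_closedBall _ _).image_of_continuousOn
      (φ.continuousOn_symm.mono hbt)).isClosed
  · exact φ.symm.isOpen_image_of_subset_source isOpen_ball (ball_subset_closedBall.trans hbt)
  · exact image_mono ball_subset_closedBall
  · refine (hinf.image (hinj.mono (sphere_subset_closedBall.trans hbt))).mono ?_
    rintro _ ⟨q, hq, rfl⟩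
    exact hbd' q hq
  · rintro _ ⟨q, hq, rfl⟩ hq' O' hO' hqO N
    obtain ⟨y, hy1, hy2, B, hB1, hB2⟩ := plane_fan hr (hbd q hq hq')
      (φ.isOpen_inter_preimage_symm hO') ⟨hbt hq, hqO⟩ N
    have hBt : ∀ i, B i ⊆ φ.target := fun i x hx => ((hB1 i).2 hx).1
    refine ⟨fun i => φ.symm (y i), fun i j h => hy1 (hinj (hbt (ball_subset_closedBall (hy2 i)))
      (hbt (ball_subset_closedBall (hy2 j))) h), fun i => ⟨y i, hy2 i, rfl⟩,
      fun i => φ.symm '' B i, fun i => ⟨isArc_image (hB1 i).1 (φ.continuousOn_symm.mono (hBt i))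
        (hinj.mono (hBt i)), ?_⟩, ?_⟩
    · rintro _ ⟨x, hx, rfl⟩
      exact ((hB1 i).2 hx).2
    · rintro i j hij _ ⟨⟨x, hx, rfl⟩, ⟨x', hx', h⟩⟩
      rw [hinj (hBt j hx') (hBt i hx) h] at hx'
      rw [hB2 i j hij ⟨hx, hx'⟩]
      rfl
  · intro T hT
    obtain ⟨N, hN, hNT⟩ := hinf.exists_notMem_finite (hT.image φ)
    obtain ⟨θ, hθ, hθc⟩ := plane_ch o hr hN
    have hst : sphere o r \ {N} ⊆ φ.target := fun x hx => hbt (sphere_subset_closedBall hx.1)
    have hseg : ∀ a ∈ sphere o r \ {N}, ∀ b ∈ sphere o r \ {N}, segment ℝ a b ⊆ φ.target :=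
      fun a ha b hb => ((convex_closedBall o r).segment_subset (sphere_subset_closedBall ha.1)
        (sphere_subset_closedBall hb.1)).trans hbt
    refine ⟨φ.symm '' (sphere o r \ {N}), fun q => θ (φ q),
      fun a b => φ.symm '' segment ℝ (φ a) (φ b), ?_, ⟨?_, ?_, ?_, ?_⟩, ?_⟩
    · rintro _ ⟨q, hq, rfl⟩
      exact hbd' q hq.1
    · rintro _ ⟨a, ha, rfl⟩ _ ⟨b, hb, rfl⟩ h
      simp only [φ.right_inv (hst ha), φ.right_inv (hst hb)] at h
      rw [hθ.inj ha hb h]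
    · rintro _ ⟨a, ha, rfl⟩ _ ⟨b, hb, rfl⟩ h
      simp only [φ.right_inv (hst ha), φ.right_inv (hst hb)]
      exact isArc_image (hθ.arc a ha b hb fun e => h (by rw [e]))
        (φ.continuousOn_symm.mono (hseg a ha b hb)) (hinj.mono (hseg a ha b hb))
    · rintro _ ⟨a, ha, rfl⟩ _ ⟨b, hb, rfl⟩ h
      simp only [φ.right_inv (hst ha), φ.right_inv (hst hb)]
      rintro _ ⟨x, hx, rfl⟩
      rcases hθ.sub a ha b hb (fun e => h (by rw [e])) hx with h3 | rfl | rfl
      · exact Or.inl ⟨x, h3, rfl⟩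
      · exact Or.inr (Or.inl rfl)
      · exact Or.inr (Or.inr rfl)
    · rintro _ ⟨a, ha, rfl⟩ _ ⟨b, hb, rfl⟩ _ ⟨c, hc, rfl⟩ _ ⟨d, hd, rfl⟩
      simp only [φ.right_inv (hst ha), φ.right_inv (hst hb), φ.right_inv (hst hc),
        φ.right_inv (hst hd)]
      rintro h3 h4 h5 h6 h7 _ ⟨⟨x, hx, rfl⟩, ⟨x', hx', h⟩⟩
      rw [hinj (hseg c hc d hd hx') (hseg a ha b hb hx) h] at hx'
      rcases hθ.cross a ha b hb c hc d hd h3 h4 (fun e => h5 (by
        rw [(Prod.mk.inj e).1, (Prod.mk.inj e).2])) h6 h7 ⟨hx, hx'⟩ with rfl | rfl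
      · exact Or.inl rfl
      · exact Or.inr rfl
    · rintro _ hqT ⟨q, hq, rfl⟩ hq' ε hε
      have hqs : q ∈ sphere o r \ {N} := by
        refine ⟨hbd q hq hq', fun h => hNT ⟨_, hqT, ?_⟩⟩
        rw [φ.right_inv (hbt hq)]
        exact h
      have h3 : {x | |θ x - θ q| < ε} ∩ {N}ᶜ ∈ nhds q := by
        refine Filter.inter_mem ?_ (isOpen_compl_singleton.mem_nhds hqs.2)
        have := (hθc q hqs) (ball_mem_nhds (θ q) hε)
        simpa [Real.dist_eq, ball] using this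
      obtain ⟨O', hO1, hO2, hO3⟩ := _root_.mem_nhds_iff.1 h3
      refine ⟨φ.source ∩ φ ⁻¹' O', φ.isOpen_inter_preimage hO2,
        ⟨φ.map_target (hbt hq), by simpa [φ.right_inv (hbt hq)] using hO3⟩, ?_⟩
      rintro _ hx ⟨x, hx1, rfl⟩ hx2
      have h4 : x ∈ O' := by simpa [φ.right_inv (hbt hx1)] using hx.2
      simp only [φ.right_inv (hbt hx1), φ.right_inv (hbt hq)]
      exact ⟨⟨x, ⟨hbd x hx1 hx2, (hO1 h4).2⟩, rfl⟩, (hO1 h4).1⟩
  · rintro _ ⟨x, hx, rfl⟩
    exact (hb hx).2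

end Pool.Agent.Lib.EU59
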