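import Mathlib
import Pool.Agent.Lib.EU59.Disc

set_option autoImplicit false

open Set Function

namespace Pool.Agent.Lib.EU59

open Pool.Agent.Lib.MP_15a8b6_co

variable {S : Type*} [TopologicalSpace S]

theorem Fan.loc {ι : Type*} {O : Set S} {y : ι → S} {c : S} (h : Fan O y c) {K U : Set S}
    (hK : IsDisc K U) (hKO : K ⊆ O) (hy : ∀ i, y i ∉ K) (hc : c ∈ U) {c' : S} (hc' : c' ∈ U) :
    Fan O y c' := by
  obtain ⟨B, hB1, hB2⟩ := h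
  obtain ⟨R, hR, hR'⟩ := hK.rad c' hc'
  choose q B' hq hq' hB' hsub hK' using
    fun i => (hB1 i).1.first_hit hK.closed hK.isOpen hK.sub (hy i) hc
  have hin : ∀ i, ∀ p ∈ B' i ∪ R (q i), p ∈ K → p ∈ R (q i) := by
    rintro i p (hp | hp) hpK
    · rw [hK' i ⟨hp, hpK⟩]
      exact (hR _ (hq i) (hq' i)).1.left_mem
    · exact hp
  have hout : ∀ i, ∀ p ∈ B' i ∪ R (q i), p ∉ K → p ∈ B i := by
    rintro i p (hp | hp) hpK
    · exact hsub i hp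
    · exact absurd ((hR _ (hq i) (hq' i)).2 hp) hpK
  refine ⟨fun i => B' i ∪ R (q i), fun i => ⟨(hB' i).trans (hR _ (hq i) (hq' i)).1
    fun p hp => hK' i ⟨hp.1, (hR _ (hq i) (hq' i)).2 hp.2⟩,
    union_subset ((hsub i).trans (hB1 i).2) ((hR _ (hq i) (hq' i)).2.trans hKO)⟩, ?_⟩
  rintro i j hij p ⟨hp1, hp2⟩
  by_cases hpK : p ∈ K
  · have hne : q i ≠ q j := by
      intro h
      have h1 : q i = c := hB2 i j hij ⟨hsub i (hB' i).right_mem, h ▸ hsub j (hB' j).right_mem⟩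
      exact hq' i (h1 ▸ hc)
    exact hR' _ (hq i) (hq' i) _ (hq j) (hq' j) hne ⟨hin i p hp1 hpK, hin j p hp2 hpK⟩
  · have h1 : p = c := hB2 i j hij ⟨hout i p hp1 hpK, hout j p hp2 hpK⟩
    exact absurd (h1 ▸ hK.sub hc) hpK

theorem Fan.move [T2Space S] (hS : HD S) {ι : Type*} [Finite ι] {O : Set S} (hO : IsOpen O)
    {y : ι → S} {P : Set S} (hP : IsPreconnected P) (hPO : P ⊆ O) (hPy : ∀ i, y i ∉ P) {c c' : S}
    (hc : c ∈ P) (hc' : c' ∈ P) (h : Fan O y c) : Fan O y c' := by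
  refine (hP.induction₂ (fun a b => Fan O y a ↔ Fan O y b) ?_
    (fun _ _ _ _ _ _ h1 h2 => h1.trans h2) (fun _ _ _ _ h1 => h1.symm) hc hc').1 h
  intro x hx
  obtain ⟨K, U, hK, hxU, hKO⟩ := hS x (O ∩ (range y)ᶜ)
    (hO.inter (finite_range y).isClosed.isOpen_compl) ⟨hPO hx, by
      rintro ⟨i, rfl⟩
      exact hPy i hx⟩
  have hy : ∀ i, y i ∉ K := fun i hi => (hKO hi).2 ⟨i, rfl⟩
  have hKO' : K ⊆ O := fun p hp => (hKO hp).1
  filter_upwards [mem_nhdsWithin_of_mem_nhds (hK.isOpen.mem_nhds hxU)] with z hz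
  exact ⟨fun h1 => h1.loc hK hKO' hy hxU hz, fun h1 => h1.loc hK hKO' hy hz hxU⟩

theorem arc_trim {A K₁ U₁ K₂ U₂ : Set S} {p q : S} (hA : IsArc A p q) (h1 : CDisc K₁ U₁)
    (h2 : CDisc K₂ U₂) (hd : Disjoint K₁ K₂) (hp : p ∈ U₁) (hq : q ∈ U₂) :
    ∃ r r' B, r ∈ K₁ ∧ r ∉ U₁ ∧ r' ∈ K₂ ∧ r' ∉ U₂ ∧ IsArc B r r' ∧ B ⊆ A ∧ B ∩ K₁ ⊆ {r} ∧
      B ∩ K₂ ⊆ {r'} := by
  obtain ⟨r', B, h3, h4, h5, h6, h7⟩ := hA.first_hit h2.closed h2.isOpen h2.sub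
    (disjoint_left.1 hd (h1.sub hp)) hq
  obtain ⟨r, B', h8, h9, h10, h11, h12⟩ := h5.symm.first_hit h1.closed h1.isOpen h1.sub
    (disjoint_right.1 hd h3) hp
  exact ⟨r, r', B', h8, h9, h3, h4, h10.symm, h11.trans h6, h12,
    fun x hx => h7 ⟨h11 hx.1, hx.2⟩⟩

theorem isArc_preconn {A : Set S} {p q : S} (h : IsArc A p q) : IsPreconnected A := by
  obtain ⟨γ, -, rfl⟩ := h
  exact isPreconnected_range γ.continuous

theorem isArc_compact {A : Set S} {p q : S} (h : IsArc A p q) : IsCompact A := by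
  obtain ⟨γ, -, rfl⟩ := h
  exact isCompact_range γ.continuous

theorem exists_lanes [T2Space S] (hS : HD S) {K₁ U₁ K₂ U₂ : Set S} (h1 : CDisc K₁ U₁)
    (h2 : CDisc K₂ U₂) (hd : Disjoint K₁ K₂) {a : Set S} {p q : S} (ha : IsArc a p q)
    (hp : p ∈ K₁) (hp' : p ∉ U₁) (hq : q ∈ K₂) (hq' : q ∉ U₂) (ha1 : a ∩ K₁ ⊆ {p})
    (ha2 : a ∩ K₂ ⊆ {q}) {Ω O₁ O₂ : Set S} (hΩ : IsOpen Ω) (hO₁ : IsOpen O₁) (hO₂ : IsOpen O₂)
    (haΩ : a ⊆ Ω) (hpO : p ∈ O₁) (hqO : q ∈ O₂) (N : ℕ) :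
    ∃ (L : Fin N → Set S) (r r' : Fin N → S), (∀ i, IsArc (L i) (r i) (r' i) ∧
      r i ∈ (K₁ \ U₁) ∩ O₁ ∧ r' i ∈ (K₂ \ U₂) ∩ O₂ ∧ L i ⊆ Ω ∧ L i ∩ K₁ ⊆ {r i} ∧
      L i ∩ K₂ ⊆ {r' i}) ∧ ∀ i j, i ≠ j → Disjoint (L i) (L j) := by
  set Ω' := Ω ∩ (K₁ᶜ ∪ O₁) ∩ (K₂ᶜ ∪ O₂) with hΩ'
  have ho : IsOpen Ω' := (hΩ.inter (h1.closed.isOpen_compl.union hO₁)).inter
    (h2.closed.isOpen_compl.union hO₂)
  have haΩ' : a ⊆ Ω' := by
    intro x hx
    refine ⟨⟨haΩ hx, ?_⟩, ?_⟩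
    · by_cases h : x ∈ K₁
      · exact Or.inr (by rw [ha1 ⟨hx, h⟩]; exact hpO)
      · exact Or.inl h
    · by_cases h : x ∈ K₂
      · exact Or.inr (by rw [ha2 ⟨hx, h⟩]; exact hqO)
      · exact Or.inl h
  obtain ⟨y, -, hy, hf⟩ := h1.fan p hp hp' Ω' ho (haΩ' ha.left_mem) N
  have hf2 := hf.move hS ho (isArc_preconn ha) haΩ' (fun i hi => hp' (by
    rw [← mem_singleton_iff.1 (ha1 ⟨hi, h1.sub (hy i)⟩)]
    exact hy i)) ha.left_mem ha.right_mem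
  obtain ⟨K, U, hK, hqU, hKO⟩ := hS q (Ω' ∩ K₁ᶜ) (ho.inter h1.closed.isOpen_compl)
    ⟨haΩ' ha.right_mem, disjoint_right.1 hd hq⟩
  obtain ⟨z, -, hz, B, hB, -⟩ := h2.fan q hq hq' U hK.isOpen hqU 1
  obtain ⟨A, hA1, hA2⟩ := hf2.loc hK (fun x hx => (hKO hx).1)
    (fun i hi => (hKO hi).2 (h1.sub (hy i))) hqU ((hB 0).2 (hB 0).1.left_mem)
  choose r r' L e1 e2 e3 e4 e5 e6 e7 e8 using fun i => arc_trim (hA1 i).1 h1 h2 hd (hy i) (hz 0)
  have hL : ∀ i, L i ⊆ Ω' := fun i => (e6 i).trans (hA1 i).2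
  refine ⟨L, r, r', fun i => ⟨e5 i, ⟨⟨e1 i, e2 i⟩, ?_⟩, ⟨⟨e3 i, e4 i⟩, ?_⟩,
    fun x hx => (hL i hx).1.1, e7 i, e8 i⟩, fun i j hij => disjoint_left.2 fun x hx hx' => ?_⟩
  · exact ((hL i (e5 i).left_mem).1.2).resolve_left fun h => h (e1 i)
  · exact ((hL i (e5 i).right_mem).2).resolve_left fun h => h (e3 i)
  · have h3 : x = z 0 := hA2 i j hij ⟨e6 i hx, e6 j hx'⟩
    have h4 : x = r' i := e8 i ⟨hx, h3 ▸ h2.sub (hz 0)⟩
    exact e4 i (h4 ▸ h3 ▸ hz 0)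

theorem es_list {ι : Type*} (f g : ι → ℝ) : ∀ (n a b : ℕ), a + b = n → ∀ s : Finset ι,
    InjOn f s → InjOn g s → 2 ^ n ≤ s.card →
    (∃ l : List ι, l.length = a ∧ (∀ x ∈ l, x ∈ s) ∧ l.Pairwise fun x y => f x < f y ∧ g x < g y) ∨
    (∃ l : List ι, l.length = b ∧ (∀ x ∈ l, x ∈ s) ∧
      l.Pairwise fun x y => f x < f y ∧ g y < g x) := by
  classical
  intro n
  induction n with
  | zero => exact fun a b hab s _ _ _ => Or.inl ⟨[], by simp; omega, by simp, by simp⟩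
  | succ n ih =>
    intro a b hab s hf hg hs
    rcases a with _ | a
    · exact Or.inl ⟨[], rfl, by simp, by simp⟩
    rcases b with _ | b
    · exact Or.inr ⟨[], rfl, by simp, by simp⟩
    have hpos : 0 < 2 ^ n := by positivity
    obtain ⟨p, hp, hmin⟩ := s.exists_min_image f (Finset.card_pos.1 (by omega))
    have hlt : ∀ x ∈ s, g x ≠ g p → f p < f x := fun x hx h =>
      lt_of_le_of_ne (hmin x hx) fun e => h (by rw [hf hp hx e])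
    have hcard : s.card ≤ 1 + ((s.filter fun x => g p < g x).card +
        (s.filter fun x => g x < g p).card) := by
      refine le_trans (Finset.card_le_card (t := {p} ∪ ((s.filter fun x => g p < g x) ∪
        (s.filter fun x => g x < g p))) ?_) ((Finset.card_union_le _ _).trans ?_)
      · intro x hx
        rcases lt_trichotomy (g x) (g p) with h | h | h
        · simp [hx, h]
        · simp [hg hx hp h]
        · simp [hx, h]
      · rw [Finset.card_singleton]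
        exact Nat.add_le_add_left (Finset.card_union_le _ _) 1
    by_cases h : 2 ^ n ≤ (s.filter fun x => g p < g x).card
    · rcases ih a (b + 1) (by omega) _ (hf.mono (Finset.coe_subset.2 (Finset.filter_subset _ _)))
        (hg.mono (Finset.coe_subset.2 (Finset.filter_subset _ _))) h with
        ⟨l, h1, h2, h3⟩ | ⟨l, h1, h2, h3⟩
      · refine Or.inl ⟨p :: l, by simp [h1], ?_, List.pairwise_cons.2 ⟨fun x hx => ?_, h3⟩⟩
        · intro x hx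
          rcases List.mem_cons.1 hx with rfl | hx
          · exact hp
          · exact (Finset.mem_filter.1 (h2 x hx)).1
        · obtain ⟨h4, h5⟩ := Finset.mem_filter.1 (h2 x hx)
          exact ⟨hlt x h4 h5.ne', h5⟩
      · exact Or.inr ⟨l, h1, fun x hx => (Finset.mem_filter.1 (h2 x hx)).1, h3⟩
    · have h' : 2 ^ n ≤ (s.filter fun x => g x < g p).card := by
        rw [pow_succ] at hs
        omega
      rcases ih (a + 1) b (by omega) _ (hf.mono (Finset.coe_subset.2 (Finset.filter_subset _ _)))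
        (hg.mono (Finset.coe_subset.2 (Finset.filter_subset _ _))) h' with
        ⟨l, h1, h2, h3⟩ | ⟨l, h1, h2, h3⟩
      · exact Or.inl ⟨l, h1, fun x hx => (Finset.mem_filter.1 (h2 x hx)).1, h3⟩
      · refine Or.inr ⟨p :: l, by simp [h1], ?_, List.pairwise_cons.2 ⟨fun x hx => ?_, h3⟩⟩
        · intro x hx
          rcases List.mem_cons.1 hx with rfl | hx
          · exact hp
          · exact (Finset.mem_filter.1 (h2 x hx)).1
        · obtain ⟨h4, h5⟩ := Finset.mem_filter.1 (h2 x hx)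
          exact ⟨hlt x h4 h5.ne, h5⟩

theorem es_five (f g : Fin (2 ^ 10) → ℝ) (hf : Injective f) (hg : Injective g) :
    ∃ l : Fin 5 → Fin (2 ^ 10), StrictMono (f ∘ l) ∧ (StrictMono (g ∘ l) ∨ StrictAnti (g ∘ l)) := by
  rcases es_list f g 10 5 5 rfl Finset.univ hf.injOn hg.injOn (by simp) with
    ⟨l, h1, -, h3⟩ | ⟨l, h1, -, h3⟩
  · rw [List.pairwise_iff_get] at h3
    exact ⟨fun i => l.get (i.cast h1.symm), fun i j hij => (h3 _ _ hij).1,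
      Or.inl fun i j hij => (h3 _ _ hij).2⟩
  · rw [List.pairwise_iff_get] at h3
    exact ⟨fun i => l.get (i.cast h1.symm), fun i j hij => (h3 _ _ hij).1,
      Or.inr fun i j hij => (h3 _ _ hij).2⟩

/-- The lane at the other end of a band. -/
def tw (τ : Bool) (j : Fin 5) : Fin 5 := if τ then j else j.rev

theorem tw_tw (τ : Bool) (j : Fin 5) : tw τ (tw τ j) = j := by
  cases τ <;> simp [tw]

theorem exists_band [T2Space S] (hS : HD S) {K₁ U₁ K₂ U₂ : Set S} (h1 : CDisc K₁ U₁)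
    (h2 : CDisc K₂ U₂) (hd : Disjoint K₁ K₂) {a : Set S} {p q : S} (ha : IsArc a p q)
    (hp : p ∈ K₁) (hp' : p ∉ U₁) (hq : q ∈ K₂) (hq' : q ∉ U₂) (ha1 : a ∩ K₁ ⊆ {p})
    (ha2 : a ∩ K₂ ⊆ {q}) {Ω O₁ O₂ : Set S} (hΩ : IsOpen Ω) (hO₁ : IsOpen O₁) (hO₂ : IsOpen O₂)
    (haΩ : a ⊆ Ω) (hpO : p ∈ O₁) (hqO : q ∈ O₂) {θ₁ θ₂ : S → ℝ}
    (hθ₁ : InjOn θ₁ ((K₁ \ U₁) ∩ O₁)) (hθ₂ : InjOn θ₂ ((K₂ \ U₂) ∩ O₂)) :
    ∃ (L : Fin 5 → Set S) (r r' : Fin 5 → S) (τ : Bool), StrictMono (θ₁ ∘ r) ∧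
      StrictMono (θ₂ ∘ r') ∧ (∀ i, r i ∈ (K₁ \ U₁) ∩ O₁) ∧ (∀ i, r' i ∈ (K₂ \ U₂) ∩ O₂) ∧
      (∀ i, IsArc (L i) (r i) (r' (tw τ i)) ∧ L i ⊆ Ω ∧ L i ∩ K₁ ⊆ {r i} ∧
        L i ∩ K₂ ⊆ {r' (tw τ i)}) ∧ ∀ i j, i ≠ j → Disjoint (L i) (L j) := by
  obtain ⟨L, r, r', hL, hL'⟩ := exists_lanes hS h1 h2 hd ha hp hp' hq hq' ha1 ha2 hΩ hO₁ hO₂ haΩ
    hpO hqO (2 ^ 10)
  have hr : Injective (θ₁ ∘ r) := by
    intro i j h
    by_contra hij
    exact disjoint_left.1 (hL' i j hij) (hL i).1.left_mem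
      (hθ₁ (hL i).2.1 (hL j).2.1 h ▸ (hL j).1.left_mem)
  have hr' : Injective (θ₂ ∘ r') := by
    intro i j h
    by_contra hij
    exact disjoint_left.1 (hL' i j hij) (hL i).1.right_mem
      (hθ₂ (hL i).2.2.1 (hL j).2.2.1 h ▸ (hL j).1.right_mem)
  obtain ⟨l, hl, hl'⟩ := es_five _ _ hr hr'
  have hli : Injective l := fun i j h => hl.injective (by simp only [comp_apply, h])
  obtain ⟨τ, hτ⟩ : ∃ τ, StrictMono (θ₂ ∘ fun i => r' (l (tw τ i))) := by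
    rcases hl' with h | h
    · exact ⟨true, h⟩
    · exact ⟨false, fun i j hij => h (Fin.rev_lt_rev.2 hij)⟩
  refine ⟨fun i => L (l i), fun i => r (l i), fun i => r' (l (tw τ i)), τ, hl, hτ,
    fun i => (hL _).2.1, fun i => (hL _).2.2.1, fun i => ?_,
    fun i j hij => hL' _ _ fun h => hij (hli h)⟩
  simp only [tw_tw]
  exact ⟨(hL _).1, (hL _).2.2.2⟩

theorem exists_sep [T2Space S] {ι : Type*} [Finite ι] (A : ι → Set S) (hA : ∀ i, IsCompact (A i))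
    (hd : ∀ i j, i ≠ j → Disjoint (A i) (A j)) :
    ∃ Ω : ι → Set S, (∀ i, IsOpen (Ω i) ∧ A i ⊆ Ω i) ∧ ∀ i j, i ≠ j → Disjoint (Ω i) (Ω j) := by
  have key : ∀ i j, ∃ U V : Set S, IsOpen U ∧ IsOpen V ∧ A i ⊆ U ∧ A j ⊆ V ∧
      (i ≠ j → Disjoint U V) := by
    intro i j
    by_cases h : i = j
    · exact ⟨univ, univ, isOpen_univ, isOpen_univ, subset_univ _, subset_univ _,
        fun h' => absurd h h'⟩
    · obtain ⟨U, V, h1, h2, h3, h4, h5⟩ :=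
        SeparatedNhds.of_isCompact_isCompact (hA i) (hA j) (hd i j h)
      exact ⟨U, V, h1, h2, h3, h4, fun _ => h5⟩
  choose U V h1 h2 h3 h4 h5 using key
  refine ⟨fun i => ⋂ j, U i j ∩ V j i, fun i => ⟨isOpen_iInter_of_finite fun j =>
    (h1 i j).inter (h2 j i), subset_iInter fun j => subset_inter (h3 i j) (h4 j i)⟩,
    fun i j hij => (h5 i j hij).mono ?_ ?_⟩
  · exact (iInter_subset _ j).trans inter_subset_left
  · exact (iInter_subset _ i).trans inter_subset_right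

end Pool.Agent.Lib.EU59
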