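import Mathlib
import Pool.Agent.Lib.EU59.Lanes

set_option autoImplicit false

open Set Function

namespace Pool.Agent.Lib.EU59

open Pool.Agent.Lib.MP_15a8b6_co

variable {S : Type*} [TopologicalSpace S] {X : Type*}

theorem exists_gap {ι : Type*} [Finite ι] (k : ι → ℝ) :
    ∃ ε > 0, ∀ i j, k i < k j → k i + 2 * ε ≤ k j := by
  have h : ∀ᶠ ε in nhdsWithin (0 : ℝ) (Ioi 0), ∀ p : ι × ι, k p.1 < k p.2 →
      k p.1 + 2 * ε ≤ k p.2 := by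
    refine Filter.eventually_all.2 fun p => ?_
    by_cases hp : k p.1 < k p.2
    · filter_upwards [Ioo_mem_nhdsGT (show (0 : ℝ) < (k p.2 - k p.1) / 2 by linarith)] with ε hε _
      linarith [hε.2]
    · exact Filter.Eventually.of_forall fun _ h => absurd h hp
  obtain ⟨ε, h1, h2⟩ := (h.and self_mem_nhdsWithin).exists
  exact ⟨ε, h2, fun i j => h1 (i, j)⟩

/-- Discs at the vertices and five lanes along every edge. -/
structure Ports (S : Type*) [TopologicalSpace S] (H : SimpleGraph X) where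
  K : X → Set S
  U : X → Set S
  B : X → Set S
  θ : X → S → ℝ
  sg : X → S → S → Set S
  P : H.Dart → Prop
  pt : H.Dart → Fin 5 → S
  τ : H.Dart → Bool
  L : H.Dart → Fin 5 → Set S
  key : H.Dart → ℝ
  UK : ∀ d : H.Dart, U d.fst ⊆ K d.fst
  BK : ∀ d : H.Dart, B d.fst ⊆ K d.fst \ U d.fst
  ch : ∀ d : H.Dart, Chords (U d.fst) (B d.fst) (θ d.fst) (sg d.fst)
  disj : ∀ d d' : H.Dart, d.fst ≠ d'.fst → Disjoint (K d.fst) (K d'.fst)
  P_or : ∀ d, P d ∨ P d.symm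
  τ_symm : ∀ d, τ d.symm = τ d
  ptB : ∀ d j, pt d j ∈ B d.fst
  mono : ∀ d, StrictMono (θ d.fst ∘ pt d)
  key_lt : ∀ d d', d.fst = d'.fst → key d < key d' → ∀ j j', θ d.fst (pt d j) < θ d.fst (pt d' j')
  key_inj : ∀ d d', d.fst = d'.fst → key d = key d' → d = d'
  arc : ∀ d, P d → ∀ j, IsArc (L d j) (pt d j) (pt d.symm (tw (τ d) j))
  LK : ∀ d, P d → ∀ j (d' : H.Dart), L d j ∩ K d'.fst ⊆ {pt d j, pt d.symm (tw (τ d) j)}
  LL : ∀ d, P d → ∀ d', P d' → ∀ j j', (d, j) ≠ (d', j') → Disjoint (L d j) (L d' j')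

theorem exists_ports [T2Space S] [ChartedSpace E2 S] [Fintype X] (H : SimpleGraph X)
    {W : Finset X} (hW : ∀ x y, H.Adj x y → x ∈ W) (h : Em S W H.Adj) : Nonempty (Ports S H) := by
  classical
  have hS : HD S := fun _ _ hO hp => exists_disc (E := E2) hO hp
  obtain ⟨F, ends, pos, A, hF, h1, h2⟩ := h
  have hfst : ∀ d : H.Dart, d.fst ∈ W := fun d => hW _ _ d.adj
  have hsnd : ∀ d : H.Dart, d.snd ∈ W := fun d => hW _ _ d.adj.symm
  choose e he he' using fun d : H.Dart => h2 _ (hfst d) _ (hsnd d) d.adj.ne d.adj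
  obtain ⟨V, hV1, hV2⟩ := (W.finite_toSet.image pos).t2_separation
  have hdisc : ∀ x, ∃ K U : Set S, x ∈ W → CDisc K U ∧ pos x ∈ U ∧ K ⊆ V (pos x) ∧
      ∀ g ∈ F, x ∉ ends g → ∀ p ∈ A g, p ∉ K := by
    intro x
    by_cases hx : x ∈ W
    · obtain ⟨K, U, h3, h4, h5⟩ := exists_cdisc (p := pos x)
        ((hV1 (pos x)).2.inter (h1.isOpen_free W.finite_toSet hF {x}))
        ⟨(hV1 _).1, fun w hw h6 h7 => h6 (h1.inj hx hw h7).symm,
          fun g hg h6 h7 => h6 x (h1.avoid g hg x hx h7) rfl⟩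
      refine ⟨K, U, fun _ => ⟨h3, h4, fun p hp => (h5 hp).1, fun g hg h6 p hp hK =>
        (h5 hK).2.2 g hg (fun z hz h7 => h6 ?_) hp⟩⟩
      rwa [mem_singleton_iff.1 h7] at hz
    · exact ⟨∅, ∅, fun h => absurd h hx⟩
  choose K U hKU using hdisc
  have hdj : ∀ x ∈ W, ∀ y ∈ W, x ≠ y → Disjoint (K x) (K y) := fun x hx y hy hxy =>
    (hV2 ⟨x, hx, rfl⟩ ⟨y, hy, rfl⟩ fun h => hxy (h1.inj hx hy h)).mono (hKU x hx).2.2.1
      (hKU y hy).2.2.1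
  choose p q a e1 e2 e3 e4 e5 e6 e7 e8 using fun d : H.Dart =>
    arc_trim (h1.arc' (he d) (he' d)).2.2 (hKU _ (hfst d)).1 (hKU _ (hsnd d)).1
      (hdj _ (hfst d) _ (hsnd d) d.adj.ne) (hKU _ (hfst d)).2.1 (hKU _ (hsnd d)).2.1
  have haK : ∀ d : H.Dart, ∀ z ∈ W, z ≠ d.fst → z ≠ d.snd → ∀ x ∈ a d, x ∉ K z :=
    fun d z hz h3 h4 x hx => (hKU z hz).2.2.2 _ (he d) (by simp [he' d, h3, h4]) x (e6 d hx)
  obtain ⟨n, hn⟩ : ∃ n : X → ℕ, Injective n :=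
    ⟨fun x => Fintype.equivFin X x, fun x y h => (Fintype.equivFin X).injective (Fin.ext h)⟩
  obtain ⟨P, hP⟩ : ∃ P : H.Dart → Prop, ∀ d, P d ↔ n d.fst < n d.snd := ⟨_, fun _ => Iff.rfl⟩
  have hP1 : ∀ d, ¬ P d → P d.symm := by
    intro d hd
    rw [hP] at hd ⊢
    exact lt_of_le_of_ne (not_lt.1 hd) fun h => d.adj.ne (hn h).symm
  have hP2 : ∀ d, P d → ¬ P d.symm := by
    intro d hd
    rw [hP] at hd ⊢
    exact not_lt.2 hd.le
  have had : ∀ d d', P d → P d' → d ≠ d' → Disjoint (a d) (a d') := by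
    intro d d' hd hd' hne
    refine disjoint_left.2 fun x hx hx' => ?_
    have h3 : e d ≠ e d' := by
      intro h
      have h4 := (he' d).symm.trans (h ▸ he' d')
      rcases (SimpleGraph.dart_edge_eq_iff d d').1 h4 with h5 | h5
      · exact hne h5
      · exact hP2 d' hd' (h5 ▸ hd)
    obtain ⟨w, hw, rfl⟩ := h1.cross _ (he d) _ (he d') h3 ⟨e6 d hx, e6 d' hx'⟩
    have h4 := (hKU w hw).2.1
    have h5 := (hKU w hw).1.sub h4
    by_cases h6 : w = d.fst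
    · subst h6
      exact e2 d (mem_singleton_iff.1 (e7 d ⟨hx, h5⟩) ▸ h4)
    by_cases h7 : w = d.snd
    · subst h7
      exact e4 d (mem_singleton_iff.1 (e8 d ⟨hx, h5⟩) ▸ h4)
    exact haK d w hw h6 h7 _ hx h5
  obtain ⟨b, hb1, hb2⟩ : ∃ b : H.Dart → S, (∀ d, P d → b d = p d) ∧
      ∀ d, P d → b d.symm = q d :=
    ⟨fun d => if P d then p d else q d.symm, fun d hd => if_pos hd,
      fun d hd => by simp [hP2 d hd]⟩
  have hbK : ∀ d : H.Dart, b d ∈ K d.fst ∧ b d ∉ U d.fst := by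
    intro d
    by_cases hd : P d
    · rw [hb1 d hd]
      exact ⟨e1 d, e2 d⟩
    · have := hb2 _ (hP1 d hd)
      rw [SimpleGraph.Dart.symm_symm] at this
      rw [this]
      exact ⟨e3 d.symm, e4 d.symm⟩
  have hba : ∀ d : H.Dart, ∃ d', P d' ∧ (d' = d ∨ d' = d.symm) ∧ b d ∈ a d' := by
    intro d
    by_cases hd : P d
    · exact ⟨d, hd, Or.inl rfl, hb1 d hd ▸ (e5 d).left_mem⟩
    · have := hb2 _ (hP1 d hd)
      rw [SimpleGraph.Dart.symm_symm] at this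
      exact ⟨d.symm, hP1 d hd, Or.inr rfl, this ▸ (e5 d.symm).right_mem⟩
  have hch : ∀ x, ∃ (B : Set S) (θ : S → ℝ) (sg : S → S → Set S), x ∈ W →
      B ⊆ K x \ U x ∧ Chords (U x) B θ sg ∧ ∀ q ∈ range b, q ∈ K x → q ∉ U x → ∀ ε > 0, ∃ O,
        IsOpen O ∧ q ∈ O ∧ ∀ q' ∈ O, q' ∈ K x → q' ∉ U x → q' ∈ B ∧ |θ q' - θ q| < ε := by
    intro x
    by_cases hx : x ∈ W
    · obtain ⟨B, θ, sg, h3⟩ := (hKU x hx).1.ch (range b) (finite_range b)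
      exact ⟨B, θ, sg, fun _ => h3⟩
    · exact ⟨∅, fun _ => 0, fun _ _ => ∅, fun h => absurd h hx⟩
  choose B θ sg hB using hch
  obtain ⟨ε, hε, hgap⟩ := exists_gap fun d : H.Dart => θ d.fst (b d)
  choose O hO1 hO2 hO3 using fun d : H.Dart =>
    (hB _ (hfst d)).2.2 (b d) ⟨d, rfl⟩ (hbK d).1 (hbK d).2 ε hε
  have hθ : ∀ d : H.Dart, InjOn (θ d.fst) ((K d.fst \ U d.fst) ∩ O d) := fun d =>
    (hB _ (hfst d)).2.1.inj.mono fun x hx => (hO3 d x hx.2 hx.1.1 hx.1.2).1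
  obtain ⟨Ω, hΩ1, hΩ2⟩ := exists_sep (fun d : {d // P d} => a d) (fun d => isArc_compact (e5 d))
    fun d d' hne => had _ _ d.2 d'.2 fun h => hne (Subtype.ext h)
  choose L r r' τ f1 f2 f3 f4 f5 f6 using fun d : {d // P d} =>
    exists_band hS (hKU _ (hfst d)).1 (hKU _ (hsnd d)).1 (hdj _ (hfst d) _ (hsnd d) d.1.adj.ne)
      (e5 d) (e1 d) (e2 d) (e3 d) (e4 d) (e7 d) (e8 d)
      (Ω := Ω d ∩ ⋂ z ∈ {z | z ∈ W ∧ z ≠ d.1.fst ∧ z ≠ d.1.snd}, (K z)ᶜ)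
      ((hΩ1 d).1.inter ((toFinite _).isOpen_biInter fun z hz =>
        (hKU z hz.1).1.closed.isOpen_compl)) (hO1 d.1) (hO1 d.1.symm)
      (subset_inter (hΩ1 d).2 (subset_iInter₂ fun z hz x hx => haK d z hz.1 hz.2.1 hz.2.2 x hx))
      (hb1 d d.2 ▸ hO2 d.1) (hb2 d d.2 ▸ hO2 d.1.symm) (hθ d.1) (hθ d.1.symm)
  obtain ⟨pt, hp1, hp2⟩ : ∃ pt : H.Dart → Fin 5 → S, (∀ d (hd : P d), pt d = r ⟨d, hd⟩) ∧
      ∀ d (hd : P d), pt d.symm = r' ⟨d, hd⟩ :=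
    ⟨fun d => if hd : P d then r ⟨d, hd⟩ else r' ⟨d.symm, hP1 d hd⟩, fun d hd => dif_pos hd,
      fun d hd => by simp [hP2 d hd]⟩
  obtain ⟨τ', ht1, ht2⟩ : ∃ τ' : H.Dart → Bool, (∀ d (hd : P d), τ' d = τ ⟨d, hd⟩) ∧
      ∀ d (hd : P d), τ' d.symm = τ ⟨d, hd⟩ :=
    ⟨fun d => if hd : P d then τ ⟨d, hd⟩ else τ ⟨d.symm, hP1 d hd⟩, fun d hd => dif_pos hd,
      fun d hd => by simp [hP2 d hd]⟩
  have hcase : ∀ d : H.Dart, P d ∨ ∃ d', P d' ∧ d = d'.symm := fun d =>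
    (em (P d)).imp_right fun hd => ⟨d.symm, hP1 d hd, rfl⟩
  have hpt : ∀ (d : H.Dart) j, pt d j ∈ (K d.fst \ U d.fst) ∩ O d := by
    intro d j
    rcases hcase d with hd | ⟨d', hd, rfl⟩
    · rw [hp1 d hd]
      exact f3 ⟨d, hd⟩ j
    · rw [hp2 d' hd]
      exact f4 ⟨d', hd⟩ j
  have hpt' : ∀ (d : H.Dart) j, pt d j ∈ B d.fst ∧ |θ d.fst (pt d j) - θ d.fst (b d)| < ε :=
    fun d j => hO3 d _ (hpt d j).2 (hpt d j).1.1 (hpt d j).1.2
  refine ⟨⟨K, U, B, θ, sg, P, pt, τ', fun d => if hd : P d then L ⟨d, hd⟩ else fun _ => ∅,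
    fun d => θ d.fst (b d), fun d => (hKU _ (hfst d)).1.sub, fun d => (hB _ (hfst d)).1,
    fun d => (hB _ (hfst d)).2.1, fun d d' => hdj _ (hfst d) _ (hfst d'),
    fun d => (em (P d)).imp_right (hP1 d), ?_, fun d j => (hpt' d j).1, ?_, ?_, ?_, ?_, ?_, ?_⟩⟩
  · intro d
    rcases hcase d with hd | ⟨d', hd, rfl⟩
    · rw [ht1 d hd, ht2 d hd]
    · rw [SimpleGraph.Dart.symm_symm, ht1 d' hd, ht2 d' hd]
  · intro d
    rcases hcase d with hd | ⟨d', hd, rfl⟩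
    · rw [hp1 d hd]
      exact f1 ⟨d, hd⟩
    · rw [hp2 d' hd]
      exact f2 ⟨d', hd⟩
  · intro d d' hdd hk j j'
    have h3 := hgap d d' hk
    have h4 := abs_lt.1 (hpt' d j).2
    have h5 := abs_lt.1 (hpt' d' j').2
    rw [← hdd] at h3 h5
    linarith [h4.2, h5.1]
  · intro d d' hdd hk
    have h3 : b d ∈ B d.fst := (hO3 d _ (hO2 d) (hbK d).1 (hbK d).2).1
    have h4 : b d' ∈ B d'.fst := (hO3 d' _ (hO2 d') (hbK d').1 (hbK d').2).1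
    rw [← hdd] at h4 hk
    have h5 : b d = b d' := (hB _ (hfst d)).2.1.inj h3 h4 hk
    obtain ⟨c, hc1, hc2, hc3⟩ := hba d
    obtain ⟨c', hc1', hc2', hc3'⟩ := hba d'
    have h6 : c = c' := by
      by_contra h6
      exact disjoint_left.1 (had c c' hc1 hc1' h6) hc3 (h5 ▸ hc3')
    subst h6
    rcases hc2 with rfl | rfl <;> rcases hc2' with h7 | h7
    · exact h7
    · rw [h7] at hdd
      exact absurd hdd d'.adj.ne'
    · rw [← h7] at hdd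
      exact absurd hdd d.adj.ne
    · exact SimpleGraph.Dart.symm_involutive.injective h7
  · intro d hd j
    simp only [dif_pos hd, hp1 d hd, hp2 d hd, ht1 d hd]
    exact (f5 ⟨d, hd⟩ j).1
  · intro d hd j d'
    simp only [dif_pos hd, hp1 d hd, hp2 d hd, ht1 d hd]
    rintro x ⟨hx, hx'⟩
    by_cases h3 : d'.fst = d.fst
    · exact Or.inl ((f5 ⟨d, hd⟩ j).2.2.1 ⟨hx, h3 ▸ hx'⟩)
    by_cases h4 : d'.fst = d.snd
    · exact Or.inr ((f5 ⟨d, hd⟩ j).2.2.2 ⟨hx, h4 ▸ hx'⟩)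
    exact absurd hx' (mem_iInter₂.1 ((f5 ⟨d, hd⟩ j).2.1 hx).2 _ ⟨hfst d', h3, h4⟩)
  · intro d hd d' hd' j j' hne
    simp only [dif_pos hd, dif_pos hd']
    by_cases h3 : d = d'
    · subst h3
      exact f6 ⟨d, hd⟩ j j' fun h => hne (by rw [h])
    · exact (hΩ2 ⟨d, hd⟩ ⟨d', hd'⟩ fun h => h3 (congrArg Subtype.val h)).mono
        (fun x hx => ((f5 ⟨d, hd⟩ j).2.1 hx).1) fun x hx => ((f5 ⟨d', hd'⟩ j').2.1 hx).1

end Pool.Agent.Lib.EU59
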