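import Mathlib
import Pool.Agent.Lib.EU59.Ports

set_option autoImplicit false

open Set Function

namespace Pool.Agent.Lib.EU59

open Pool.Agent.Lib.MP_15a8b6_co

variable {S : Type*} [TopologicalSpace S] {X : Type*}

/-- The chords used inside a disc with `5 d` ports. -/
def Allowed (d i k : ℕ) : Prop :=
  i < k ∧ k < 5 * d ∧ (k = i + 1 ∨ (i % 5 = 3 ∧ k = i + 3) ∨ (i = 0 ∧ k + 1 = 5 * d) ∨
    (i = 1 ∧ k + 2 = 5 * d) ∨ (i = 2 ∧ 1 ≤ k % 5 ∧ k % 5 ≤ 3))

theorem Allowed.not_cross {d i k i' k' : ℕ} (h : Allowed d i k) (h' : Allowed d i' k') :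
    ¬ (i < i' ∧ i' < k ∧ k < k') := by
  unfold Allowed at h h'
  omega

/-- Ranks of the darts at each vertex. -/
theorem exists_rank [Fintype X] {H : SimpleGraph X} (key : H.Dart → ℝ)
    (hk : ∀ d d', d.fst = d'.fst → key d = key d' → d = d') :
    ∃ (rk : H.Dart → ℕ) (dg : X → ℕ), (∀ d, rk d < dg d.fst) ∧
      (∀ d d', d.fst = d'.fst → rk d < rk d' → key d < key d') ∧
      (∀ d d', d.fst = d'.fst → rk d = rk d' → d = d') ∧
      ∀ x i, i < dg x → ∃ d, d.fst = x ∧ rk d = i := by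
  classical
  set rk : H.Dart → ℕ := fun d =>
    (Finset.univ.filter fun d' : H.Dart => d'.fst = d.fst ∧ key d' < key d).card with hrk
  set dg : X → ℕ := fun x => (Finset.univ.filter fun d' : H.Dart => d'.fst = x).card with hdg
  have h1 : ∀ d, rk d < dg d.fst := by
    intro d
    refine Finset.card_lt_card ⟨fun d' hd' => ?_, fun h => ?_⟩
    · simp only [Finset.mem_filter] at hd' ⊢
      exact ⟨hd'.1, hd'.2.1⟩
    · have := h (Finset.mem_filter.2 ⟨Finset.mem_univ d, rfl⟩)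
      simp at this
  have h2 : ∀ d d', d.fst = d'.fst → key d < key d' → rk d < rk d' := by
    intro d d' hdd hlt
    refine Finset.card_lt_card ⟨fun c hc => ?_, fun h => ?_⟩
    · simp only [Finset.mem_filter] at hc ⊢
      exact ⟨hc.1, hc.2.1.trans hdd, hc.2.2.trans hlt⟩
    · have := h (Finset.mem_filter.2 ⟨Finset.mem_univ d, hdd, hlt⟩)
      simp at this
  have h3 : ∀ d d', d.fst = d'.fst → rk d = rk d' → d = d' := by
    intro d d' hdd h
    rcases lt_trichotomy (key d) (key d') with h4 | h4 | h4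
    · exact absurd h (h2 d d' hdd h4).ne
    · exact hk d d' hdd h4
    · exact absurd h (h2 d' d hdd.symm h4).ne'
  refine ⟨rk, dg, h1, fun d d' hdd h => ?_, h3, fun x i hi => ?_⟩
  · rcases lt_trichotomy (key d) (key d') with h4 | h4 | h4
    · exact h4
    · exact absurd (congrArg rk (hk d d' hdd h4)) h.ne
    · exact absurd (h2 d' d hdd.symm h4) (not_lt.2 h.le)
  · obtain ⟨d, hd, hd'⟩ := Finset.surj_on_of_inj_on_of_card_le
      (s := Finset.univ.filter fun d' : H.Dart => d'.fst = x) (t := Finset.range (dg x))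
      (fun d _ => rk d) (fun d hd => by
        rw [Finset.mem_range, ← (Finset.mem_filter.1 hd).2]
        exact h1 d)
      (fun d d' hd hd' h => h3 d d'
        ((Finset.mem_filter.1 hd).2.trans (Finset.mem_filter.1 hd').2.symm) h)
      (by simp [hdg]) i (Finset.mem_range.2 hi)
    exact ⟨d, (Finset.mem_filter.1 hd).2, hd'.symm⟩

/-- The graph on the ports is embedded. -/
theorem Ports.em [Fintype X] {H : SimpleGraph X} [Fintype H.Dart] (p : Ports S H)
    {rk : H.Dart → ℕ} {dg : X → ℕ}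
    (h2 : ∀ d d', d.fst = d'.fst → rk d < rk d' → p.key d < p.key d')
    (h3 : ∀ d d', d.fst = d'.fst → rk d = rk d' → d = d') :
    Em S (Finset.univ : Finset (H.Dart × Fin 5)) fun a b =>
      (p.P a.1 ∧ b = (a.1.symm, tw (p.τ a.1) a.2)) ∨
      (a.1.fst = b.1.fst ∧ Allowed (dg a.1.fst) (5 * rk a.1 + a.2) (5 * rk b.1 + b.2)) := by
  classical
  have hlt : ∀ a b : H.Dart × Fin 5, a.1.fst = b.1.fst → 5 * rk a.1 + a.2 < 5 * rk b.1 + b.2 →
      p.θ a.1.fst (p.pt a.1 a.2) < p.θ a.1.fst (p.pt b.1 b.2) := by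
    rintro ⟨d, j⟩ ⟨d', j'⟩ hdd h
    have hj := j.2
    have hj' := j'.2
    by_cases h4 : rk d = rk d'
    · obtain rfl := h3 d d' hdd h4
      exact p.mono d (show j < j' by simp only at h; omega)
    · exact p.key_lt d d' hdd (h2 d d' hdd (by simp only at h; omega)) j j'
  have hidx : ∀ a b : H.Dart × Fin 5, a.1.fst = b.1.fst → 5 * rk a.1 + a.2 = 5 * rk b.1 + b.2 →
      a = b := by
    rintro ⟨d, j⟩ ⟨d', j'⟩ hdd h
    have hj := j.2
    have hj' := j'.2
    simp only at h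
    obtain rfl := h3 d d' hdd (by omega)
    rw [Fin.ext (show (j : ℕ) = j' by omega)]
  have hlt' : ∀ a b : H.Dart × Fin 5, a.1.fst = b.1.fst →
      p.θ a.1.fst (p.pt a.1 a.2) < p.θ a.1.fst (p.pt b.1 b.2) →
      5 * rk a.1 + a.2 < 5 * rk b.1 + b.2 := by
    intro a b hab h
    rcases lt_trichotomy (5 * rk a.1 + a.2) (5 * rk b.1 + b.2) with h4 | h4 | h4
    · exact h4
    · rw [hidx a b hab h4] at h
      exact absurd h (lt_irrefl _)
    · have := hlt b a hab.symm h4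
      rw [← hab] at this
      exact absurd h (lt_asymm this)
  have hK : ∀ a : H.Dart × Fin 5, p.pt a.1 a.2 ∈ p.K a.1.fst ∧ p.pt a.1 a.2 ∉ p.U a.1.fst :=
    fun a => p.BK a.1 (p.ptB a.1 a.2)
  have hinj : Injective fun a : H.Dart × Fin 5 => p.pt a.1 a.2 := by
    intro a b h
    simp only at h
    have hab : a.1.fst = b.1.fst := by
      by_contra hab
      exact disjoint_left.1 (p.disj _ _ hab) (hK a).1 (h ▸ (hK b).1)
    rcases lt_trichotomy (5 * rk a.1 + a.2) (5 * rk b.1 + b.2) with h4 | h4 | h4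
    · exact absurd (congrArg _ h) (hlt a b hab h4).ne
    · exact hidx a b hab h4
    · exact absurd (congrArg _ h.symm) (hlt b a hab.symm h4).ne
  have hB : ∀ a b : H.Dart × Fin 5, a.1.fst = b.1.fst → p.pt b.1 b.2 ∈ p.B a.1.fst :=
    fun a b h => h ▸ p.ptB b.1 b.2
  have hne : ∀ a b : H.Dart × Fin 5, Allowed (dg a.1.fst) (5 * rk a.1 + a.2) (5 * rk b.1 + b.2) →
      p.pt a.1 a.2 ≠ p.pt b.1 b.2 := fun a b h e => by
    rw [hinj e] at h
    exact lt_irrefl _ h.1
  have hsgK : ∀ a b : H.Dart × Fin 5, a.1.fst = b.1.fst →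
      Allowed (dg a.1.fst) (5 * rk a.1 + a.2) (5 * rk b.1 + b.2) →
      p.sg a.1.fst (p.pt a.1 a.2) (p.pt b.1 b.2) ⊆ p.K a.1.fst := by
    intro a b hab h x hx
    rcases (p.ch a.1).sub _ (hB a a rfl) _ (hB a b hab) (hne a b h) hx with h4 | rfl | rfl
    · exact p.UK _ h4
    · exact (hK a).1
    · exact hab ▸ (hK b).1
  have hl : ∀ a : H.Dart × Fin 5, a.1.fst ≠ a.1.symm.fst := fun a => a.1.adj.ne
  refine em_of_arcs (fun a => p.pt a.1 a.2) (fun a b => if a.1.fst = b.1.fst then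
    p.sg a.1.fst (p.pt a.1 a.2) (p.pt b.1 b.2) else p.L a.1 a.2) hinj.injOn ?_ ?_ ?_
  · rintro a - b - (⟨h4, rfl⟩ | ⟨h4, h5⟩)
    · simp only [if_neg (hl a)]
      exact p.arc _ h4 _
    · simp only [if_pos h4]
      exact (p.ch a.1).arc _ (hB a a rfl) _ (hB a b h4) (hne a b h5)
  · rintro a - b - (⟨h4, rfl⟩ | ⟨h4, h5⟩) w - hw
    · simp only [if_neg (hl a)] at hw
      rcases p.LK _ h4 _ w.1 ⟨hw, (hK w).1⟩ with h6 | h6
      · exact Or.inl (hinj h6)
      · exact Or.inr (hinj h6)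
    · simp only [if_pos h4] at hw
      rcases (p.ch a.1).sub _ (hB a a rfl) _ (hB a b h4) (hne a b h5) hw with h6 | h6 | h6
      · exfalso
        by_cases h7 : a.1.fst = w.1.fst
        · exact (hK w).2 (h7 ▸ h6)
        · exact disjoint_left.1 (p.disj _ _ h7) (p.UK _ h6) (hK w).1
      · exact Or.inl (hinj h6)
      · exact Or.inr (hinj h6)
  · rintro a - b - (⟨h4, rfl⟩ | ⟨h4, h5⟩) c - d - (⟨h6, rfl⟩ | ⟨h6, h7⟩) hne' x ⟨hx, hx'⟩
    · simp only [if_neg (hl a), if_neg (hl c)] at hx hx'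
      exact absurd hx' (disjoint_left.1 (p.LL _ h4 _ h6 _ _ fun e => hne' (by
        rw [show a = c from e])) hx)
    · simp only [if_neg (hl a), if_pos h6] at hx hx'
      rcases p.LK _ h4 _ c.1 ⟨hx, hsgK c d h6 h7 hx'⟩ with rfl | rfl
      · exact ⟨a, by simp, rfl⟩
      · exact ⟨(_, _), by simp, rfl⟩
    · simp only [if_neg (hl c), if_pos h4] at hx hx'
      rcases p.LK _ h6 _ a.1 ⟨hx', hsgK a b h4 h5 hx⟩ with rfl | rfl
      · exact ⟨c, by simp, rfl⟩
      · exact ⟨(_, _), by simp, rfl⟩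
    · simp only [if_pos h4, if_pos h6] at hx hx'
      have hac : a.1.fst = c.1.fst := by
        by_contra hac
        exact disjoint_left.1 (p.disj _ _ hac) (hsgK a b h4 h5 hx) (hsgK c d h6 h7 hx')
      have h8 := hlt c d h6 h7.1
      rw [← hac] at hx' h8 h7
      have hcr : ∀ u v w z : H.Dart × Fin 5, a.1.fst = u.1.fst → a.1.fst = v.1.fst →
          a.1.fst = w.1.fst → a.1.fst = z.1.fst →
          Allowed (dg a.1.fst) (5 * rk u.1 + u.2) (5 * rk v.1 + v.2) →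
          Allowed (dg a.1.fst) (5 * rk w.1 + w.2) (5 * rk z.1 + z.2) →
          ¬ (p.θ a.1.fst (p.pt u.1 u.2) < p.θ a.1.fst (p.pt w.1 w.2) ∧
            p.θ a.1.fst (p.pt w.1 w.2) < p.θ a.1.fst (p.pt v.1 v.2) ∧
            p.θ a.1.fst (p.pt v.1 v.2) < p.θ a.1.fst (p.pt z.1 z.2)) := by
        rintro u v w z hu hv hw hz g1 g2 ⟨g3, g4, g5⟩
        refine g1.not_cross g2 ⟨hlt' u w (hu.symm.trans hw) (hu ▸ g3),
          hlt' w v (hw.symm.trans hv) (hw ▸ g4), hlt' v z (hv.symm.trans hz) (hv ▸ g5)⟩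
      rcases (p.ch a.1).cross _ (hB a a rfl) _ (hB a b h4) _ (hB a c hac) _
        (hB a d (hac.trans h6)) (hlt a b h4 h5.1) h8 (fun e => hne' (by
          rw [hinj (Prod.mk.inj e).1, hinj (Prod.mk.inj e).2]))
        (hcr a b c d rfl h4 hac (hac.trans h6) h5 h7)
        (hcr c d a b hac (hac.trans h6) rfl h4 h7 h5) ⟨hx, hx'⟩ with rfl | rfl
      · exact ⟨a, by simp, rfl⟩
      · exact ⟨b, by simp, rfl⟩

/-- The port graph in abstract form. -/
theorem exists_portgraph [T2Space S] [ChartedSpace E2 S] [Fintype X] (H : SimpleGraph X)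
    [Fintype H.Dart] {W : Finset X} (hW : ∀ x y, H.Adj x y → x ∈ W) (h : Em S W H.Adj) :
    ∃ (nx pv bs : H.Dart → H.Dart) (τ : H.Dart → Bool)
      (R : H.Dart × Fin 5 → H.Dart × Fin 5 → Prop),
      (∀ d, nx (pv d) = d) ∧ (∀ d, pv (nx d) = d) ∧ (∀ d, (nx d).fst = d.fst) ∧
      (∀ d d', d.fst = d'.fst → ∃ k, nx^[k] d = d') ∧ (∀ d d', d.fst = d'.fst → bs d = bs d') ∧
      (∀ d, (bs d).fst = d.fst) ∧ (∀ d, τ d.symm = τ d) ∧ Em S Finset.univ R ∧
      (∀ a b, R a b → R b a) ∧ (∀ d j, R (d, j) (d.symm, tw (τ d) j)) ∧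
      (∀ d (j j' : Fin 5), (j' : ℕ) = j + 1 → R (d, j) (d, j')) ∧ (∀ d, R (d, 4) (nx d, 0)) ∧
      (∀ d, R (d, 3) (nx d, 1)) ∧ ∀ d (j : Fin 5), 1 ≤ (j : ℕ) → (j : ℕ) ≤ 3 →
        (bs d, (2 : Fin 5)) = (d, j) ∨ R (bs d, 2) (d, j) := by
  obtain ⟨p⟩ := exists_ports (S := S) H hW h
  obtain ⟨rk, dg, h1, h2, h3, h4⟩ := exists_rank p.key p.key_inj
  have hpos : ∀ d : H.Dart, 0 < dg d.fst := fun d => (Nat.zero_le _).trans_lt (h1 d)
  choose nx hn1 hn2 using fun d : H.Dart =>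
    h4 d.fst (if rk d + 1 < dg d.fst then rk d + 1 else 0) (by
      have := hpos d
      split_ifs <;> omega)
  choose pv hp1 hp2 using fun d : H.Dart =>
    h4 d.fst (if rk d = 0 then dg d.fst - 1 else rk d - 1) (by
      have := h1 d
      split_ifs <;> omega)
  choose bs hb1 hb2 using fun d : H.Dart => h4 d.fst 0 (hpos d)
  have hit : ∀ k d, (nx^[k] d).fst = d.fst := by
    intro k
    induction k with
    | zero => exact fun _ => rfl
    | succ k ih => intro d; rw [iterate_succ_apply', hn1, ih]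
  have hrk : ∀ k d, rk d + k < dg d.fst → rk (nx^[k] d) = rk d + k := by
    intro k
    induction k with
    | zero => exact fun _ _ => rfl
    | succ k ih =>
      intro d hd
      rw [iterate_succ_apply', hn2, hit, ih d (by omega), if_pos (by omega)]
      rfl
  refine ⟨nx, pv, bs, p.τ, _, fun d => ?_, fun d => ?_, hn1, fun d d' hdd => ?_,
    fun d d' hdd => h3 _ _ (by rw [hb1, hb1, hdd]) (by rw [hb2, hb2]), hb1, p.τ_symm,
    (p.em (dg := dg) h2 h3).symm_closure, fun a b h => h.symm, fun d j => ?_, fun d j j' hj => ?_,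
    fun d => ?_, fun d => ?_, fun d j hj hj' => ?_⟩
  · refine h3 _ _ (by rw [hn1, hp1]) ?_
    have := h1 d
    rw [hn2, hp1, hp2]
    split_ifs <;> omega
  · refine h3 _ _ (by rw [hp1, hn1]) ?_
    have := h1 d
    rw [hp2, hn1, hn2]
    split_ifs <;> first | omega | contradiction
  · have e1 := h1 d
    have e2 := h1 d'
    rw [← hdd] at e2
    have e3 : rk (nx^[dg d.fst - rk d] d) = 0 := by
      rw [show dg d.fst - rk d = (dg d.fst - rk d - 1) + 1 by omega, iterate_succ_apply', hn2, hit,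
        hrk _ d (by omega), if_neg (by omega)]
    refine ⟨rk d' + (dg d.fst - rk d), h3 _ _ (by rw [hit, hdd]) ?_⟩
    rw [iterate_add_apply, hrk _ _ (by rw [hit, e3]; omega), e3, zero_add]
  · rcases p.P_or d with h5 | h5
    · exact Or.inl (Or.inl ⟨h5, rfl⟩)
    · exact Or.inr (Or.inl ⟨h5, by simp [p.τ_symm, tw_tw]⟩)
  · refine Or.inl (Or.inr ⟨rfl, ?_⟩)
    have := h1 d
    have := j'.2
    simp only [Allowed]
    omega
  · have e1 := h1 d
    have e2 := hn2 d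
    split_ifs at e2 with e3
    · refine Or.inl (Or.inr ⟨(hn1 d).symm, ?_⟩)
      simp only [Allowed, e2, Fin.isValue, Fin.coe_ofNat_eq_mod]
      omega
    · refine Or.inr (Or.inr ⟨hn1 d, ?_⟩)
      simp only [Allowed, e2, hn1, Fin.isValue, Fin.coe_ofNat_eq_mod, true_and]
      omega
  · have e1 := h1 d
    have e2 := hn2 d
    split_ifs at e2 with e3
    · refine Or.inl (Or.inr ⟨(hn1 d).symm, ?_⟩)
      simp only [Allowed, e2, Fin.isValue, Fin.coe_ofNat_eq_mod]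
      omega
    · refine Or.inr (Or.inr ⟨hn1 d, ?_⟩)
      simp only [Allowed, e2, hn1, Fin.isValue, Fin.coe_ofNat_eq_mod, true_and]
      omega
  · have e1 := h1 d
    by_cases e2 : 2 < 5 * rk d + j
    · refine Or.inr (Or.inl (Or.inr ⟨hb1 d, ?_⟩))
      simp only [Allowed, hb2, hb1, Fin.isValue, Fin.coe_ofNat_eq_mod, true_and]
      omega
    have e3 : bs d = d := h3 _ _ (hb1 d) (by rw [hb2]; omega)
    by_cases e4 : (j : ℕ) = 2
    · exact Or.inl (by rw [e3, show j = 2 from Fin.ext e4])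
    · refine Or.inr (Or.inr (Or.inr ⟨(hb1 d).symm, ?_⟩))
      simp only [Allowed, hb2, Fin.isValue, Fin.coe_ofNat_eq_mod]
      omega

/-- Change of side. -/
def a2 {D : Type*} (φ : D × Bool) : D × Bool := (φ.1, !φ.2)

/-- Nodes, ring flags (`false`) and outer flags (`true`). -/
inductive T5 {H : SimpleGraph X} (a0 a1 : H.Dart × Bool → H.Dart × Bool) :
    X ⊕ (H.Dart × Bool) × Bool → X ⊕ (H.Dart × Bool) × Bool → Prop
  | edge {x y : X} : H.Adj x y → T5 a0 a1 (.inl x) (.inl y)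
  | hub (φ : H.Dart × Bool) : T5 a0 a1 (.inr (φ, false)) (.inl φ.1.fst)
  | r0 (φ : H.Dart × Bool) (c : Bool) : T5 a0 a1 (.inr (φ, c)) (.inr (a0 φ, c))
  | r1 (φ : H.Dart × Bool) (c : Bool) : T5 a0 a1 (.inr (φ, c)) (.inr (a1 φ, c))
  | up (φ : H.Dart × Bool) : T5 a0 a1 (.inr (φ, false)) (.inr (φ, true))

/-- A ribbon structure on `H` realised in `S`. -/
structure RM (S : Type*) [TopologicalSpace S] (H : SimpleGraph X) [Fintype H.Dart]
    (W : Finset X) where
  a0 : H.Dart × Bool → H.Dart × Bool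
  a1 : H.Dart × Bool → H.Dart × Bool
  inv0 : Involutive a0
  inv1 : Involutive a1
  a0_fst : ∀ φ, (a0 φ).1 = φ.1.symm
  a0_a2 : ∀ φ, a0 (a2 φ) = a2 (a0 φ)
  a1_fst : ∀ φ, (a1 φ).1.fst = φ.1.fst
  a1_snd : ∀ φ, (a1 φ).2 = !φ.2
  trans : ∀ φ d, d.fst = φ.1.fst → ∃ k, ((a1 ∘ a2)^[k] φ).1 = d
  em5 : Em S (W.disjSum Finset.univ) fun u v => T5 a0 a1 u v ∨ T5 a0 a1 v u
  emF : Em S Finset.univ fun φ ψ => ψ = a0 φ ∨ ψ = a1 φ ∨ ψ = a2 φ

/-- The lane of a flag. -/
def ln (s c : Bool) : Fin 5 := if s then (if c then 4 else 3) else (if c then 0 else 1)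

theorem exists_rm [T2Space S] [Nonempty S] [ChartedSpace E2 S] [Fintype X] (H : SimpleGraph X)
    [Fintype H.Dart] {W : Finset X} (hW : ∀ x y, H.Adj x y → x ∈ W)
    (hne : ∀ x ∈ W, ∃ y, H.Adj x y) (h : Em S W H.Adj) : Nonempty (RM S H W) := by
  have hS : HD S := fun _ _ hO hp => exists_disc (E := E2) hO hp
  obtain ⟨nx, pv, bs, τ, R, h1, h2, h3, h4, h5, h6, h7, h8, h9, c5, c1, c2, c3, c4⟩ :=
    exists_portgraph (S := S) H hW h
  have h3' : ∀ d, (pv d).fst = d.fst := fun d => by rw [← h3, h1]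
  obtain ⟨a0, ha0⟩ : ∃ a0 : H.Dart × Bool → H.Dart × Bool,
      ∀ d s, a0 (d, s) = (d.symm, if τ d then s else !s) :=
    ⟨fun φ => (φ.1.symm, if τ φ.1 then φ.2 else !φ.2), fun _ _ => rfl⟩
  obtain ⟨a1, ha1, ha1'⟩ : ∃ a1 : H.Dart × Bool → H.Dart × Bool,
      (∀ d, a1 (d, true) = (nx d, false)) ∧ ∀ d, a1 (d, false) = (pv d, true) :=
    ⟨fun φ => if φ.2 then (nx φ.1, false) else (pv φ.1, true), fun _ => rfl, fun _ => rfl⟩
  have l0 : ∀ d s c, R (d, ln s c) ((a0 (d, s)).1, ln (a0 (d, s)).2 c) := by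
    intro d s c
    have := c5 d (ln s c)
    rw [ha0]
    convert this using 2
    cases τ d <;> cases s <;> cases c <;> rfl
  have l1 : ∀ d s c, R (d, ln s c) ((a1 (d, s)).1, ln (a1 (d, s)).2 c) := by
    intro d s c
    cases s
    · rw [ha1']
      apply h9
      cases c
      · have := c3 (pv d)
        rwa [h1] at this
      · have := c2 (pv d)
        rwa [h1] at this
    · rw [ha1]
      cases c
      · exact c3 d
      · exact c2 d
  refine ⟨⟨a0, a1, ?_, ?_, fun φ => by rw [ha0], ?_, ?_, ?_, ?_, ?_, ?_⟩⟩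
  · rintro ⟨d, s⟩
    rw [ha0, ha0, h7]
    cases τ d <;> simp
  · rintro ⟨d, _ | _⟩
    · rw [ha1', ha1, h1]
    · rw [ha1, ha1', h2]
  · rintro ⟨d, s⟩
    simp only [a2, ha0]
    cases τ d <;> simp
  · rintro ⟨d, _ | _⟩
    · rw [ha1', h3']
    · rw [ha1, h3]
  · rintro ⟨d, _ | _⟩
    · rw [ha1']; rfl
    · rw [ha1]; rfl
  · rintro ⟨d, _ | _⟩ d' hd
    · obtain ⟨k, hk⟩ := h4 d d' hd.symm
      refine ⟨k, ?_⟩
      have : ∀ k, (a1 ∘ a2)^[k] (d, false) = (nx^[k] d, false) := by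
        intro k
        induction k with
        | zero => rfl
        | succ k ih => rw [iterate_succ_apply', iterate_succ_apply', ih]; exact ha1 _
      rw [this, hk]
    · obtain ⟨k, hk⟩ := h4 d' d hd
      refine ⟨k, ?_⟩
      have : ∀ k, (a1 ∘ a2)^[k] (d, true) = (pv^[k] d, true) := by
        intro k
        induction k with
        | zero => rfl
        | succ k ih => rw [iterate_succ_apply', iterate_succ_apply', ih]; exact ha1' _
      rw [this, ← hk]
      exact (LeftInverse.iterate h2 k) d'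
  · obtain ⟨f, f2, fl⟩ : ∃ f : H.Dart × Fin 5 → X ⊕ (H.Dart × Bool) × Bool,
        (∀ d, f (d, 2) = .inl d.fst) ∧ ∀ d s c, f (d, ln s c) = .inr ((d, s), c) :=
      ⟨fun a => ![.inr ((a.1, false), true), .inr ((a.1, false), false), .inl a.1.fst,
        .inr ((a.1, true), false), .inr ((a.1, true), true)] a.2, fun _ => rfl,
        fun _ s c => by cases s <;> cases c <;> rfl⟩
    have hj : ∀ j : Fin 5, j = 2 ∨ ∃ s c, j = ln s c := by decide
    have hb : ∀ d, ConnIn R {x | x ∈ Finset.univ ∧ f x = .inl d.fst} (bs d, 2) (d, 2) := by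
      intro d
      rcases c4 d 2 (by decide) (by decide) with h10 | h10
      · rw [h10]
        exact .refl
      · exact .single ⟨h10, ⟨Finset.mem_univ _, by rw [f2, h6]⟩, Finset.mem_univ _, f2 d⟩
    have hT : ∀ u v, T5 a0 a1 u v → u ≠ v → ∃ a b, R a b ∧ f a = u ∧ f b = v := by
      rintro _ _ (@⟨x, y, hxy⟩ | ⟨d, s⟩ | ⟨⟨d, s⟩, c⟩ | ⟨⟨d, s⟩, c⟩ | ⟨d, s⟩) hne
      · exact ⟨_, _, c5 ⟨(x, y), hxy⟩ 2, f2 _, by
          rw [show tw (τ _) 2 = 2 by cases τ _ <;> rfl, f2]; rfl⟩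
      · rcases c4 d (ln s false) (by cases s <;> decide) (by cases s <;> decide) with h10 | h10
        · exact absurd (Prod.mk.inj h10).2 (by cases s <;> decide)
        · exact ⟨_, _, h9 _ _ h10, fl _ _ _, by rw [f2, h6]⟩
      · exact ⟨_, _, l0 d s c, fl _ _ _, fl _ _ _⟩
      · exact ⟨_, _, l1 d s c, fl _ _ _, fl _ _ _⟩
      · refine ⟨(d, ln s false), (d, ln s true), ?_, fl _ _ _, fl _ _ _⟩
        cases s
        · exact h9 _ _ (c1 d _ _ rfl)
        · exact c1 d _ _ rfl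
    refine h8.minor hS _ (Finset.Subset.refl _) f ?_ ?_ ?_
    · rintro ⟨d, j⟩ - ⟨d', j'⟩ - hab
      rcases hj j with rfl | ⟨s, c, rfl⟩ <;> rcases hj j' with rfl | ⟨s', c', rfl⟩
      · rw [f2, f2] at hab
        have h10 := Sum.inl.inj hab
        have h11 := hb d'
        rw [← h5 d d' h10, ← h10] at h11
        rw [f2]
        exact ((hb d).symm h9).trans h11
      · rw [f2, fl] at hab
        exact absurd hab (by simp)
      · rw [f2, fl] at hab
        exact absurd hab (by simp)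
      · rw [fl, fl] at hab
        simp only [Sum.inr.injEq, Prod.mk.injEq] at hab
        obtain ⟨⟨rfl, rfl⟩, rfl⟩ := hab
        exact .refl
    · rintro (x | ⟨⟨d, s⟩, c⟩) hu
      · obtain ⟨y, hy⟩ := hne x (by simpa using hu)
        exact ⟨(⟨(x, y), hy⟩, 2), Finset.mem_univ _, f2 _⟩
      · exact ⟨_, Finset.mem_univ _, fl d s c⟩
    · rintro u - v - huv (h10 | h10)
      · obtain ⟨a, b, h11, h12, h13⟩ := hT u v h10 huv
        exact ⟨a, Finset.mem_univ _, b, Finset.mem_univ _, h11, h12, h13⟩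
      · obtain ⟨a, b, h11, h12, h13⟩ := hT v u h10 huv.symm
        exact ⟨b, Finset.mem_univ _, a, Finset.mem_univ _, h9 _ _ h11, h13, h12⟩
  · obtain ⟨f, hf⟩ : ∃ f : H.Dart × Fin 5 → H.Dart × Bool,
        ∀ d j, f (d, j) = (d, decide (3 ≤ (j : ℕ))) :=
      ⟨fun a => (a.1, decide (3 ≤ (a.2 : ℕ))), fun _ _ => rfl⟩
    have fl : ∀ d s c, f (d, ln s c) = (d, s) := fun d s c => by
      rw [hf]
      cases s <;> cases c <;> rfl
    refine h8.minor hS _ (Finset.Subset.refl _) f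
      (conn_of_base h9 f (fun φ => (φ.1, ln φ.2 false)) ?_) ?_ ?_
    · rintro ⟨d, j⟩ -
      have m : ∀ i : Fin 5, decide (3 ≤ (i : ℕ)) = decide (3 ≤ (j : ℕ)) →
          (d, i) ∈ {x | x ∈ Finset.univ ∧ f x = f (d, j)} := fun i hi =>
        ⟨Finset.mem_univ _, by rw [hf, hf, hi]⟩
      rw [hf] at m ⊢
      fin_cases j
      · exact .single ⟨c1 d 0 1 rfl, m 0 rfl, m 1 rfl⟩
      · exact .refl
      · exact .single ⟨h9 _ _ (c1 d 1 2 rfl), m 2 rfl, m 1 rfl⟩
      · exact .refl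
      · exact .single ⟨h9 _ _ (c1 d 3 4 rfl), m 4 rfl, m 3 rfl⟩
    · rintro ⟨d, s⟩ -
      exact ⟨_, Finset.mem_univ _, fl d s false⟩
    · rintro ⟨d, s⟩ - _ - - (rfl | rfl | rfl)
      · exact ⟨_, Finset.mem_univ _, _, Finset.mem_univ _, l0 d s false, fl _ _ _, fl _ _ _⟩
      · exact ⟨_, Finset.mem_univ _, _, Finset.mem_univ _, l1 d s false, fl _ _ _, fl _ _ _⟩
      · cases s
        · exact ⟨(d, 2), Finset.mem_univ _, (d, 3), Finset.mem_univ _, c1 d 2 3 rfl, hf _ _, hf _ _⟩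
        · exact ⟨(d, 3), Finset.mem_univ _, (d, 2), Finset.mem_univ _, h9 _ _ (c1 d 2 3 rfl),
            hf _ _, hf _ _⟩

end Pool.Agent.Lib.EU59
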