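import Mathlib
import Pool.Agent.Lib.EU59.Ribbon

set_option autoImplicit false

open Set Function

namespace Pool.Agent.Lib.EU59

open Pool.Agent.Lib.MP_15a8b6_co

variable {S : Type*} [TopologicalSpace S] {V X : Type*}

/-- Nodes coloured `a` or `b`. -/
def Two (col : X → V) (a b : V) : Set X := {x | col x = a ∨ col x = b}

/-- An embedded Kempe structure for `G`. -/
structure KS (S : Type*) [TopologicalSpace S] (G : SimpleGraph V) (root : V → X) (col : X → V)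
    (W : Finset X) (H : SimpleGraph X) : Prop where
  sub : ∀ x y, H.Adj x y → x ∈ W
  mem : ∀ v, root v ∈ W
  em : Em S W H.Adj
  conn : ∀ a b, G.Adj a b → ConnIn H.Adj (Two col a b) (root a) (root b)

/-- A Kempe structure of minimal size. -/
structure KMin (S : Type*) [TopologicalSpace S] (G : SimpleGraph V) (root : V → X) (col : X → V)
    (W : Finset X) (H : SimpleGraph X) : Prop extends KS S G root col W H where
  min : ∀ W' H', KS S G root col W' H' → W.card + H.edgeSet.ncard ≤ W'.card + H'.edgeSet.ncard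

variable {G : SimpleGraph V} {root : V → X} {col : X → V} {W : Finset X} {H : SimpleGraph X}

theorem KS.exists_min (h : KS S G root col W H) : ∃ W H, KMin S G root col W H := by
  classical
  have hex : ∃ n, ∃ W H, KS S G root col W H ∧ W.card + H.edgeSet.ncard = n := ⟨_, W, H, h, rfl⟩
  obtain ⟨W₁, H₁, h1, h2⟩ := Nat.find_spec hex
  exact ⟨W₁, H₁, h1, fun W' H' h' => h2 ▸ Nat.find_min' hex ⟨W', H', h', rfl⟩⟩

theorem KMin.le [Finite X] (h : KMin S G root col W H) (W' : Finset X) (Es : Set (Sym2 X))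
    (hsub : ∀ a b, s(a, b) ∈ Es → a ∈ W') (hroot : ∀ v, root v ∈ W')
    (hem : Em S W' fun a b => s(a, b) ∈ Es)
    (hconn : ∀ a b, G.Adj a b → ConnIn (fun p q => p = q ∨ s(p, q) ∈ Es) (Two col a b)
      (root a) (root b)) : W.card + H.edgeSet.ncard ≤ W'.card + Es.ncard := by
  refine (h.min W' (SimpleGraph.fromEdgeSet Es) ⟨fun x y hxy => hsub x y hxy.1, hroot,
    hem.mono (Finset.Subset.refl _) fun a _ b _ _ hab => hab.1, fun a b hab =>
      (hconn a b hab).lift id fun p q hpq hp hq => ?_⟩).trans ?_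
  · by_cases e : p = q
    · rw [e]
      exact .refl
    · exact .single ⟨⟨hpq.resolve_left e, e⟩, hp, hq⟩
  · rw [SimpleGraph.edgeSet_fromEdgeSet]
    exact Nat.add_le_add_left (ncard_le_ncard sdiff_subset) _

theorem KS.lift (h : KS S G root col W H) {a b : V} (hab : G.Adj a b) {R : X → X → Prop}
    (f : X → X) (ha : f (root a) = root a) (hb : f (root b) = root b)
    (hf : ∀ p q, H.Adj p q → p ∈ Two col a b → q ∈ Two col a b →
      f p ∈ Two col a b ∧ R (f p) (f q)) : ConnIn R (Two col a b) (root a) (root b) := by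
  have := (h.conn a b hab).lift f (R' := R) (T' := Two col a b) fun p q h1 h2 h3 =>
    .single ⟨(hf p q h1 h2 h3).2, (hf p q h1 h2 h3).1, (hf q p h1.symm h3 h2).1⟩
  rwa [ha, hb] at this

theorem KMin.nbr [Finite X] (h : KMin S G root col W H) (hG : ∀ v, ∃ w, G.Adj v w)
    (hroot : Injective root) : ∀ x ∈ W, ∃ y, H.Adj x y := by
  classical
  intro x hx
  by_contra hn
  push Not at hn
  have hr : ∀ v, root v ≠ x := by
    rintro v rfl
    obtain ⟨w, hw⟩ := hG v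
    rcases (h.conn v w hw).cases_head with h1 | ⟨y, h1, -⟩
    · exact hw.ne (hroot h1)
    · exact hn y h1.1
  have := h.min (W.erase x) H ⟨fun a b hab => Finset.mem_erase.2
    ⟨fun e => hn b (e ▸ hab), h.sub a b hab⟩, fun v => Finset.mem_erase.2 ⟨hr v, h.mem v⟩,
    h.em.mono (Finset.erase_subset _ _) fun _ _ _ _ _ h => h, h.conn⟩
  have := Finset.card_erase_lt_of_mem hx
  omega

theorem KMin.merge [T2Space S] [Finite X] (hS : HD S) (h : KMin S G root col W H) {x y : X}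
    (hx : x ∈ W) (hy : y ∈ W) (hxy : x ≠ y) (hc : col x = col y) (hr : y ∉ range root)
    (hem : Em S W fun a b => H.Adj a b ∨ (a = x ∧ b = y)) : False := by
  classical
  have hρW : ∀ c ∈ W, (if c = y then x else c) ∈ W.erase y := by
    intro c hc'
    split_ifs with h2
    · exact Finset.mem_erase.2 ⟨hxy, hx⟩
    · exact Finset.mem_erase.2 ⟨h2, hc'⟩
  have hry : ∀ v, root v ≠ y := fun v e => hr ⟨v, e⟩
  have key : ∀ a b, s(a, b) ∈ Sym2.map (fun c => if c = y then x else c) '' H.edgeSet →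
      ∃ p q, H.Adj p q ∧ (if p = y then x else p) = a ∧ (if q = y then x else q) = b := by
    rintro a b ⟨e, he, h1⟩
    induction e using Sym2.ind with
    | _ p q =>
      rcases Sym2.eq_iff.1 h1 with ⟨h2, h3⟩ | ⟨h2, h3⟩
      · exact ⟨p, q, he, h2, h3⟩
      · exact ⟨q, p, H.adj_symm he, h3, h2⟩
  have h1 := h.le (W.erase y) (Sym2.map (fun c => if c = y then x else c) '' H.edgeSet)
    (fun a b hab => by
      obtain ⟨p, q, h1, rfl, -⟩ := key a b hab
      exact hρW p (h.sub p q h1))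
    (fun v => Finset.mem_erase.2 ⟨hry v, h.mem v⟩)
    (Em.mono (Emb.contract hS hem hx hy hxy (Or.inr ⟨rfl, rfl⟩)) (Finset.Subset.refl _)
      fun a _ b _ _ hab => by
        obtain ⟨p, q, h1, h2, h3⟩ := key a b hab
        exact ⟨p, h.sub p q h1, q, h.sub q p h1.symm, Or.inl h1, h2, h3⟩)
    (fun a b hab => h.lift hab (fun c => if c = y then x else c) (if_neg (hry a)) (if_neg (hry b))
      fun p q h1 h2 _ => ⟨by
        split_ifs with h3
        · subst h3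
          simpa only [Two, mem_ofPred_eq, hc] using h2
        · exact h2, Or.inr ⟨s(p, q), h1, rfl⟩⟩)
  have h2 := ncard_image_le (f := Sym2.map fun c => if c = y then x else c) (s := H.edgeSet)
  have := Finset.card_erase_lt_of_mem hy
  omega

section Maps

variable [Fintype H.Dart]

/-- Two flags lie on the same face. -/
def RM.Fc (M : RM S H W) : H.Dart × Bool → H.Dart × Bool → Prop :=
  Relation.ReflTransGen fun x y => y = M.a1 x ∨ y = M.a0 x

/-- The two neighbours at a corner. -/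
def RM.Lk (M : RM S H W) (a b : X) : Prop := ∃ φ, φ.1.snd = a ∧ (M.a1 φ).1.snd = b

theorem RM.Lk.symm {M : RM S H W} {a b : X} (h : M.Lk a b) : M.Lk b a := by
  obtain ⟨φ, h1, h2⟩ := h
  exact ⟨M.a1 φ, h2, by rw [M.inv1, h1]⟩

theorem RM.a0_vx (M : RM S H W) (φ : H.Dart × Bool) : (M.a0 φ).1.fst = φ.1.snd := by
  rw [M.a0_fst]; rfl

theorem RM.a0_tg (M : RM S H W) (φ : H.Dart × Bool) : (M.a0 φ).1.snd = φ.1.fst := by
  rw [M.a0_fst]; rfl

theorem RM.Fc.symm {M : RM S H W} {φ ψ : H.Dart × Bool} (h : M.Fc φ ψ) : M.Fc ψ φ := by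
  induction h with
  | refl => exact .refl
  | tail _ h ih =>
    refine .head ?_ ih
    rcases h with rfl | rfl
    · exact Or.inl (M.inv1 _).symm
    · exact Or.inr (M.inv0 _).symm

theorem RM.Fc.t0 {M : RM S H W} {φ ψ : H.Dart × Bool} (h : M.Fc φ ψ) : M.Fc φ (M.a0 ψ) :=
  h.tail (Or.inr rfl)

theorem RM.Fc.t1 {M : RM S H W} {φ ψ : H.Dart × Bool} (h : M.Fc φ ψ) : M.Fc φ (M.a1 ψ) :=
  h.tail (Or.inl rfl)

theorem RM.Fc.rfl {M : RM S H W} {φ : H.Dart × Bool} : M.Fc φ φ := .refl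

theorem RM.em_face [T2Space S] [Nonempty S] (hS : HD S) (M : RM S H W)
    (hW : ∀ x y, H.Adj x y → x ∈ W) {φ ψ : H.Dart × Bool} (h : M.Fc φ ψ) :
    Em S W fun a b => H.Adj a b ∨ (a = φ.1.fst ∧ b = ψ.1.fst) := by
  classical
  set W₀ := (W.disjSum (Finset.univ : Finset ((H.Dart × Bool) × Bool))).filter
    fun u => ∀ χ c, u = .inr (χ, c) → c = false ∧ M.Fc φ χ with hW₀
  have m1 : ∀ a ∈ W, Sum.inl a ∈ W₀ := fun a ha => by simp [hW₀, ha]
  have m2 : ∀ χ, M.Fc φ χ → Sum.inr (χ, false) ∈ W₀ := fun χ hχ =>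
    Finset.mem_filter.2 ⟨by simp, by
      rintro _ _ ⟨⟩
      exact ⟨rfl, hχ⟩⟩
  refine M.em5.minor hS W₀ (Finset.filter_subset _ _) (Sum.elim id fun _ => φ.1.fst)
    (conn_of_base (fun _ _ h => h.symm) _ Sum.inl ?_) (fun u hu => ⟨_, m1 u hu, rfl⟩) ?_
  · rintro (a | ⟨χ, c⟩) hu
    · exact .refl
    · obtain ⟨rfl, h1⟩ := (Finset.mem_filter.1 hu).2 χ c rfl
      clear hu
      induction h1 with
      | refl => exact .single ⟨Or.inl (.hub φ), ⟨m2 φ .refl, rfl⟩, m1 _ (hW _ _ φ.1.adj), rfl⟩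
      | @tail χ₁ χ₂ h1 h2 ih =>
        refine .head ⟨Or.inr ?_, ⟨m2 _ (h1.tail h2), rfl⟩, m2 _ h1, rfl⟩ ih
        rcases h2 with rfl | rfl
        · exact .r1 _ _
        · exact .r0 _ _
  · rintro u hu v hv - (h1 | ⟨rfl, rfl⟩)
    · exact ⟨_, m1 u hu, _, m1 v hv, Or.inl (.edge h1), rfl, rfl⟩
    · exact ⟨_, m2 ψ h, _, m1 _ hv, Or.inl (.hub ψ), rfl, rfl⟩

theorem RM.em_link [T2Space S] [Nonempty S] (hS : HD S) (M : RM S H W)
    (hW : ∀ x y, H.Adj x y → x ∈ W) (T : Set X)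
    (hT : ∀ φ : H.Dart × Bool, φ.1.snd ∈ T → (M.a1 φ).1.snd ∈ T → φ.1.snd ≠ (M.a1 φ).1.snd →
      φ.1.fst ∉ T) :
    Em S W fun a b => H.Adj a b ∨ (M.Lk a b ∧ a ∈ T ∧ b ∈ T) := by
  classical
  set W₀ := (W.disjSum (Finset.univ : Finset ((H.Dart × Bool) × Bool))).filter
    fun u => ∀ χ c, u = .inr (χ, c) → c = false with hW₀
  have m1 : ∀ a ∈ W, Sum.inl a ∈ W₀ := fun a ha => by simp [hW₀, ha]
  have m2 : ∀ χ, Sum.inr (χ, false) ∈ W₀ := fun χ => by simp [hW₀]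
  obtain ⟨own, ho1, ho2⟩ : ∃ own : H.Dart × Bool → X,
      (∀ χ, χ.1.fst ∉ T ∧ χ.1.snd ∈ T → own χ = χ.1.snd) ∧
      ∀ χ, ¬ (χ.1.fst ∉ T ∧ χ.1.snd ∈ T) → own χ = χ.1.fst :=
    ⟨fun χ => if χ.1.fst ∉ T ∧ χ.1.snd ∈ T then χ.1.snd else χ.1.fst, fun _ h => if_pos h,
      fun _ h => if_neg h⟩
  refine M.em5.minor hS W₀ (Finset.filter_subset _ _) (Sum.elim id fun χ => own χ.1)
    (conn_of_base (fun _ _ h => h.symm) _ Sum.inl ?_) (fun u hu => ⟨_, m1 u hu, rfl⟩) ?_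
  · have key : ∀ χ x, own χ = x → χ.1.fst = x → ConnIn (fun u v => T5 M.a0 M.a1 u v ∨
        T5 M.a0 M.a1 v u) {u | u ∈ W₀ ∧ Sum.elim id (fun χ => own χ.1) u = x}
        (.inr (χ, false)) (.inl x) := by
      rintro χ _ h1 rfl
      exact .single ⟨Or.inl (.hub χ), ⟨m2 χ, h1⟩, m1 _ (hW _ _ χ.1.adj), rfl⟩
    rintro (a | ⟨χ, c⟩) hu
    · exact .refl
    · obtain rfl := (Finset.mem_filter.1 hu).2 χ c rfl
      by_cases h1 : χ.1.fst ∉ T ∧ χ.1.snd ∈ T
      · have h2 : own (M.a0 χ) = own χ := by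
          rw [ho1 χ h1, ho2 _ fun h => h.1 (M.a0_vx χ ▸ h1.2), M.a0_vx]
        exact .head ⟨Or.inl (.r0 χ false), ⟨m2 χ, rfl⟩, m2 _, h2⟩
          (key _ _ h2 (by rw [M.a0_vx]; exact (ho1 χ h1).symm))
      · exact key χ _ rfl (ho2 χ h1).symm
  · rintro u hu v hv huv (h1 | ⟨⟨χ, rfl, rfl⟩, h2, h3⟩)
    · exact ⟨_, m1 u hu, _, m1 v hv, Or.inl (.edge h1), rfl, rfl⟩
    · have h4 := hT χ h2 h3 huv
      exact ⟨_, m2 χ, _, m2 (M.a1 χ), Or.inl (.r1 χ false), ho1 χ ⟨h4, h2⟩,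
        ho1 _ ⟨M.a1_fst χ ▸ h4, h3⟩⟩

variable [T2Space S] [Nonempty S] [Finite X]

theorem KMin.rainbow (hS : HD S) (h : KMin S G root col W H) (hcol : ∀ v, col (root v) = v)
    (M : RM S H W) {φ ψ : H.Dart × Bool} (hf : M.Fc φ ψ) (hc : col φ.1.fst = col ψ.1.fst) :
    φ.1.fst = ψ.1.fst := by
  by_contra hne
  by_cases h1 : ψ.1.fst ∈ range root
  · by_cases h2 : φ.1.fst ∈ range root
    · obtain ⟨u, hu⟩ := h1
      obtain ⟨v, hv⟩ := h2
      rw [← hu, ← hv, hcol, hcol] at hc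
      exact hne (by rw [← hu, ← hv, hc])
    · exact h.merge hS (h.sub _ _ ψ.1.adj) (h.sub _ _ φ.1.adj) (Ne.symm hne) hc.symm h2
        (M.em_face hS h.sub hf.symm)
  · exact h.merge hS (h.sub _ _ φ.1.adj) (h.sub _ _ ψ.1.adj) hne hc h1 (M.em_face hS h.sub hf)

theorem KMin.proper (hS : HD S) (h : KMin S G root col W H) (hcol : ∀ v, col (root v) = v)
    (M : RM S H W) {x y : X} (hxy : H.Adj x y) : col x ≠ col y := by
  intro hc
  have := h.rainbow hS hcol M (φ := (⟨(x, y), hxy⟩, true)) (.single (Or.inr rfl))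
    (by rw [M.a0_vx]; exact hc)
  rw [M.a0_vx] at this
  exact hxy.ne this

theorem KMin.lk_ne (hS : HD S) (h : KMin S G root col W H) (hcol : ∀ v, col (root v) = v)
    (M : RM S H W) {x y : X} (hl : M.Lk x y) (hxy : x ≠ y) : col x ≠ col y := by
  obtain ⟨φ, rfl, rfl⟩ := hl
  intro hc
  have h1 : M.Fc (M.a0 φ) (M.a0 (M.a1 φ)) := (RM.Fc.rfl.t0.symm).t1.t0
  have := h.rainbow hS hcol M h1 (by rw [M.a0_vx, M.a0_vx]; exact hc)
  rw [M.a0_vx, M.a0_vx] at this
  exact hxy this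

theorem KMin.em_two (hS : HD S) (h : KMin S G root col W H) (hcol : ∀ v, col (root v) = v)
    (M : RM S H W) (z w : V) :
    Em S W fun a b => H.Adj a b ∨ (M.Lk a b ∧ a ∈ Two col z w ∧ b ∈ Two col z w) := by
  refine M.em_link hS h.sub _ fun φ h1 h2 h3 h4 => ?_
  have e1 := h.lk_ne hS hcol M ⟨φ, rfl, rfl⟩ h3
  have e2 := h.proper hS hcol M φ.1.adj
  have e3 := h.proper hS hcol M (M.a1 φ).1.adj
  rw [M.a1_fst] at e3
  simp only [Two, mem_ofPred_eq] at h1 h2 h4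
  grind

theorem KMin.gadj (hS : HD S) (h : KMin S G root col W H) (hcol : ∀ v, col (root v) = v)
    (M : RM S H W) {x y : X} (hxy : H.Adj x y) : G.Adj (col x) (col y) := by
  by_contra hn
  have h1 := h.le W (H.edgeSet \ {s(x, y)}) (fun a b hab => h.sub a b hab.1) h.mem
    (h.em.mono (Finset.Subset.refl _) fun _ _ _ _ _ hab => hab.1)
    (fun a b hab => h.lift hab id rfl rfl fun p q h1 h2 h3 => ⟨h2, Or.inr ⟨h1, fun e => hn (by
      have e1 := h.proper hS hcol M h1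
      have e2 := hab.symm
      simp only [Two, mem_ofPred_eq] at h2 h3
      rcases Sym2.eq_iff.1 (mem_singleton_iff.1 e) with ⟨rfl, rfl⟩ | ⟨rfl, rfl⟩ <;>
        rcases h2 with h2 | h2 <;> rcases h3 with h3 | h3 <;> simp_all)⟩⟩)
  have h2 := ncard_sdiff_singleton_lt_of_mem (s := H.edgeSet) (a := s(x, y)) hxy
  omega

theorem KMin.swap (hS : HD S) (h : KMin S G root col W H) (hcol : ∀ v, col (root v) = v)
    (M : RM S H W) {u z₁ z₂ w₁ w₂ v : X} (hr : z₁ ∉ range root) (hu : H.Adj z₁ u)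
    (hw₁ : H.Adj z₁ w₁) (hw₂ : H.Adj z₁ w₂) (hv : H.Adj z₁ v)
    (hall : ∀ y, H.Adj z₁ y → y = u ∨ y = w₁ ∨ y = w₂ ∨ y = v) (hw : w₁ ≠ w₂)
    (c1 : col w₂ = col w₁) (c2 : col v = col u) (c3 : col z₂ = col z₁) (hz : z₂ ≠ z₁)
    (c4 : col u ≠ col w₁) (l1 : M.Lk w₁ z₂) (l2 : M.Lk w₂ z₂) : False := by
  classical
  have hzW : z₂ ∈ W := by
    obtain ⟨φ, -, rfl⟩ := l1
    exact h.sub _ _ (M.a1 φ).1.adj.symm
  have hry : ∀ a, root a ≠ z₁ := fun a e => hr ⟨a, e⟩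
  have p1 := h.proper hS hcol M hu
  have p2 := h.proper hS hcol M hw₁
  have me : ∀ y, H.Adj z₁ y → y ∈ W.erase z₁ := fun y hy =>
    Finset.mem_erase.2 ⟨hy.ne', h.sub _ _ hy.symm⟩
  have hz' : z₂ ∈ W.erase z₁ := Finset.mem_erase.2 ⟨hz, hzW⟩
  have h1 := h.le (W.erase z₁) ({e ∈ H.edgeSet | z₁ ∉ e} ∪ {s(u, v), s(w₁, z₂), s(w₂, z₂)})
    (by
      rintro a b (⟨h1, h2⟩ | h1 | h1 | h1)
      · exact Finset.mem_erase.2 ⟨fun e => h2 (by simp [e]), h.sub a b h1⟩
      all_goals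
        rcases Sym2.eq_iff.1 h1 with ⟨rfl, -⟩ | ⟨rfl, -⟩ <;> first | exact hz' | exact me _ ‹_›)
    (fun a => Finset.mem_erase.2 ⟨hry a, h.mem a⟩)
    (Em.mono (em_of_emb (Emb.contract hS (h.em_two hS hcol M (col z₁) (col w₁))
      (h.sub _ _ hu.symm) (h.sub _ _ hu) hu.ne' (Or.inl hu.symm))).symm_closure
      (Finset.Subset.refl _) (by
      have k1 : ∀ a ∈ W.erase z₁, ∀ b ∈ W.erase z₁, (H.Adj a b ∨ (M.Lk a b ∧
          a ∈ Two col (col z₁) (col w₁) ∧ b ∈ Two col (col z₁) (col w₁))) →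
          ∃ a' ∈ W, ∃ b' ∈ W, (H.Adj a' b' ∨ (M.Lk a' b' ∧ a' ∈ Two col (col z₁) (col w₁) ∧
            b' ∈ Two col (col z₁) (col w₁))) ∧ (if a' = z₁ then u else a') = a ∧
            (if b' = z₁ then u else b') = b := fun a ha b hb hab =>
        ⟨a, Finset.mem_of_mem_erase ha, b, Finset.mem_of_mem_erase hb, hab,
          if_neg (Finset.ne_of_mem_erase ha), if_neg (Finset.ne_of_mem_erase hb)⟩
      have k2 := k1 _ (me _ hw₁) _ hz' (Or.inr ⟨l1, Or.inr rfl, Or.inl c3⟩)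
      have k3 := k1 _ (me _ hw₂) _ hz' (Or.inr ⟨l2, Or.inr c1, Or.inl c3⟩)
      have k4 : ∃ a' ∈ W, ∃ b' ∈ W, (H.Adj a' b' ∨ (M.Lk a' b' ∧ a' ∈ Two col (col z₁) (col w₁) ∧
            b' ∈ Two col (col z₁) (col w₁))) ∧ (if a' = z₁ then u else a') = u ∧
            (if b' = z₁ then u else b') = v :=
        ⟨z₁, h.sub _ _ hv, v, h.sub _ _ hv.symm, Or.inl hv, if_pos rfl, if_neg hv.ne'⟩
      rintro a ha b hb - (⟨h1, -⟩ | h1 | h1 | h1)
      · exact Or.inl (k1 a ha b hb (Or.inl h1))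
      all_goals
        rcases Sym2.eq_iff.1 h1 with ⟨rfl, rfl⟩ | ⟨rfl, rfl⟩ <;>
          first | exact Or.inl ‹_› | exact Or.inr ‹_›))
    (fun a b hab => by
      have hab' := hab.ne
      obtain ⟨t, ht1, ht2⟩ : ∃ t, (z₁ ∈ Two col a b → ∀ y, H.Adj z₁ y → y ∈ Two col a b →
          t ∈ Two col a b) ∧ ∀ y, H.Adj z₁ y → z₁ ∈ Two col a b → y ∈ Two col a b →
          t = y ∨ s(t, y) ∈ ({s(u, v), s(w₁, z₂), s(w₂, z₂)} : Set (Sym2 X)) := by
        by_cases hw' : w₁ ∈ Two col a b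
        · refine ⟨z₂, fun h1 _ _ _ => by simpa only [Two, mem_ofPred_eq, c3] using h1, ?_⟩
          intro y hy h1 h2
          simp only [Two, mem_ofPred_eq] at h1 h2 hw'
          rcases hall y hy with rfl | rfl | rfl | rfl
          · grind
          · exact Or.inr (by simp [Sym2.eq_swap])
          · exact Or.inr (by simp [Sym2.eq_swap])
          · grind
        · have hy' : ∀ y, H.Adj z₁ y → y ∈ Two col a b → y = u ∨ y = v := by
            intro y hy h2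
            rcases hall y hy with rfl | rfl | rfl | rfl
            · exact Or.inl rfl
            · exact absurd h2 hw'
            · exact absurd (by simpa only [Two, mem_ofPred_eq, c1] using h2) hw'
            · exact Or.inr rfl
          refine ⟨u, fun _ y hy h2 => ?_, fun y hy _ h2 => ?_⟩
          · rcases hy' y hy h2 with rfl | rfl
            · exact h2
            · simpa only [Two, mem_ofPred_eq, c2] using h2
          · rcases hy' y hy h2 with rfl | rfl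
            · exact Or.inl rfl
            · exact Or.inr (by simp)
      refine h.lift hab (fun c => if c = z₁ then t else c) (if_neg (hry a)) (if_neg (hry b))
        fun p q h1 h2 h3 => ?_
      by_cases hp : p = z₁
      · subst hp
        rw [if_pos rfl, if_neg h1.ne']
        exact ⟨ht1 h2 q h1 h3, (ht2 q h1 h2 h3).imp_right Or.inr⟩
      by_cases hq : q = z₁
      · subst hq
        rw [if_pos rfl, if_neg hp, Sym2.eq_swap (a := p)]
        exact ⟨h2, (ht2 p h1.symm h3 h2).imp Eq.symm Or.inr⟩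
      · rw [if_neg hp, if_neg hq]
        exact ⟨h2, Or.inr (Or.inl ⟨h1, by simp [Ne.symm hp, Ne.symm hq]⟩)⟩)
  have h2 : ({e ∈ H.edgeSet | z₁ ∉ e} ∪ {s(u, v), s(w₁, z₂), s(w₂, z₂)}).ncard ≤
      {e ∈ H.edgeSet | z₁ ∉ e}.ncard + 3 :=
    (ncard_union_le _ _).trans (Nat.add_le_add_left ((ncard_insert_le _ _).trans
      (Nat.add_le_add_right ((ncard_insert_le _ _).trans (by simp)) 1)) _)
  have n1 : u ≠ w₁ := fun e => c4 (by rw [e])
  have n2 : u ≠ w₂ := fun e => c4 (by rw [e, c1])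
  have h3 : ({e ∈ H.edgeSet | z₁ ∉ e} ∪ {s(z₁, u), s(z₁, w₁), s(z₁, w₂)}).ncard =
      {e ∈ H.edgeSet | z₁ ∉ e}.ncard + 3 := by
    rw [ncard_union_eq (by
      refine disjoint_left.2 ?_
      rintro e ⟨-, h1⟩ (rfl | rfl | rfl) <;> simp at h1), ncard_eq_three.2 ⟨_, _, _, ?_, ?_, ?_, rfl⟩]
    · simp [n1, hw₁.ne]
    · simp [n2, hw₂.ne]
    · simp [hw, hw₂.ne]
  have h4 : ({e ∈ H.edgeSet | z₁ ∉ e} ∪ {s(z₁, u), s(z₁, w₁), s(z₁, w₂)}).ncard ≤
      H.edgeSet.ncard := by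
    refine ncard_le_ncard ?_
    rintro e (h1 | rfl | rfl | rfl)
    · exact h1.1
    · exact hu
    · exact hw₁
    · exact hw₂
  have := Finset.card_erase_lt_of_mem (h.sub _ _ hu)
  omega

end Maps

end Pool.Agent.Lib.EU59
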