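import Mathlib
import Pool.Agent.Lib.EU59.Kempe

set_option autoImplicit false

open Set Function

namespace Pool.Agent.Lib.EU59

open Pool.Agent.Lib.MP_15a8b6_co

variable {S : Type*} [TopologicalSpace S] {V X : Type*}
variable {G : SimpleGraph V} {root : V → X} {col : X → V} {W : Finset X} {H : SimpleGraph X}
variable [Fintype H.Dart]

/-- The distance function of a pair of colours. -/
structure Dl (M : RM S H W) (root : V → X) (T : Set X) (δ : X → ℕ) (Rch : X → Prop) : Prop where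
  rch : ∀ x y, H.Adj x y → x ∈ T → y ∈ T → Rch x
  inj : ∀ x y x' y', H.Adj x y → x ∈ T → y ∈ T → H.Adj x' y' → x' ∈ T → y' ∈ T → δ x = δ x' →
    x = x'
  step : ∀ x y, (H.Adj x y ∨ (M.Lk x y ∧ x ≠ y)) → x ∈ T → y ∈ T → Rch x →
    Rch y ∧ (δ y = δ x + 1 ∨ δ x = δ y + 1)
  twin : ∀ x y, x ∉ range root → H.Adj x y → x ∈ T → y ∈ T → ∃ y', y' ≠ y ∧ H.Adj x y' ∧ y' ∈ T

theorem two_comm (col : X → V) (a b : V) : Two col a b = Two col b a := by
  ext x
  exact or_comm

theorem walk_conn {K : SimpleGraph X} {T : Set X} (hK : ∀ a b, K.Adj a b → a ∈ T ∧ b ∈ T)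
    {R : X → X → Prop} {a b : X} (p : K.Walk a b) (hR : ∀ x y, s(x, y) ∈ p.edges → R x y) :
    ConnIn R T a b := by
  induction p with
  | nil => exact .refl
  | cons h p ih =>
    exact .head ⟨hR _ _ (by simp), hK _ _ h⟩ (ih fun x y hxy => hR x y (by simp [hxy]))

variable [T2Space S] [Nonempty S] [Finite X]

theorem KMin.exists_dl (hS : HD S) (h : KMin S G root col W H) (hcol : ∀ v, col (root v) = v)
    (M : RM S H W) {z w : V} (hzw : G.Adj z w) : ∃ δ Rch, Dl M root (Two col z w) δ Rch := by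
  classical
  set T := Two col z w with hT
  obtain ⟨Hp, hHp⟩ : ∃ Hp : SimpleGraph X, ∀ a b, Hp.Adj a b ↔
      a ≠ b ∧ a ∈ T ∧ b ∈ T ∧ (H.Adj a b ∨ M.Lk a b) :=
    ⟨SimpleGraph.fromRel fun a b => a ∈ T ∧ b ∈ T ∧ (H.Adj a b ∨ M.Lk a b), fun a b => by
      rw [SimpleGraph.fromRel_adj]
      exact and_congr_right fun _ => ⟨fun h1 => h1.elim id fun h2 =>
        ⟨h2.2.1, h2.1, h2.2.2.imp (fun h => h.symm) fun h => h.symm⟩, Or.inl⟩⟩
  obtain ⟨H₀, hH₀⟩ : ∃ H₀ : SimpleGraph X, ∀ a b, H₀.Adj a b ↔ H.Adj a b ∧ a ∈ T ∧ b ∈ T :=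
    ⟨SimpleGraph.fromRel fun a b => H.Adj a b ∧ a ∈ T ∧ b ∈ T, fun a b => by
      rw [SimpleGraph.fromRel_adj]
      exact ⟨fun h1 => h1.2.elim id fun h2 => ⟨h2.1.symm, h2.2.2, h2.2.1⟩,
        fun h1 => ⟨h1.1.ne, Or.inl h1⟩⟩⟩
  have hle : H₀ ≤ Hp := fun a b hab => by
    obtain ⟨h1, h2, h3⟩ := (hH₀ a b).1 hab
    exact (hHp a b).2 ⟨h1.ne, h2, h3, Or.inl h1⟩
  have hne : ∀ a b, Hp.Adj a b → col a ≠ col b := fun a b hab => by
    obtain ⟨h1, -, -, h2 | h2⟩ := (hHp a b).1 hab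
    · exact h.proper hS hcol M h2
    · exact h.lk_ne hS hcol M h2 h1
  have hr₀ : H₀.Reachable (root z) (root w) := by
    rw [SimpleGraph.reachable_iff_reflTransGen]
    exact Relation.ReflTransGen.mono (fun a b hab => (hH₀ a b).2 hab) _ _ (h.conn z w hzw)
  obtain ⟨P, hP⟩ := hr₀.exists_isPath
  obtain ⟨Q, hQ⟩ := (hr₀.mono hle).exists_walk_length_eq_dist
  have hsub : H₀.edgeSet ⊆ H.edgeSet := SimpleGraph.edgeSet_mono fun a b hab => ((hH₀ a b).1 hab).1
  have hQe : ∀ a b, s(a, b) ∈ Q.edges → Hp.Adj a b := fun a b hab => Q.adj_of_mem_edges hab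
  have h1 := h.le W ((H.edgeSet \ H₀.edgeSet) ∪ {e | e ∈ Q.edges})
    (by
      rintro a b (h1 | h1)
      · exact h.sub a b h1.1
      · obtain ⟨-, -, -, h2 | ⟨φ, rfl, -⟩⟩ := (hHp a b).1 (hQe a b h1)
        · exact h.sub a b h2
        · exact h.sub _ _ φ.1.adj.symm) h.mem
    ((h.em_two hS hcol M z w).mono (Finset.Subset.refl _) (by
      rintro a - b - - (h1 | h1)
      · exact Or.inl h1.1
      · obtain ⟨-, h2, h3, h4⟩ := (hHp a b).1 (hQe a b h1)
        exact h4.imp_right fun h5 => ⟨h5, h2, h3⟩))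
    (fun a b hab => by
      have hc : ConnIn (fun p q => p = q ∨ s(p, q) ∈ (H.edgeSet \ H₀.edgeSet) ∪
          {e | e ∈ Q.edges}) T (root z) (root w) :=
        walk_conn (fun a b hab => ⟨((hHp a b).1 hab).2.1, ((hHp a b).1 hab).2.2.1⟩) Q
          fun x y hxy => Or.inr (Or.inr hxy)
      by_cases e : s(a, b) = s(z, w)
      · rcases Sym2.eq_iff.1 e with ⟨rfl, rfl⟩ | ⟨rfl, rfl⟩
        · exact hc
        · rw [two_comm]
          exact hc.symm fun p q hpq => hpq.imp Eq.symm fun h2 => Sym2.eq_swap ▸ h2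
      · refine h.lift hab id rfl rfl fun p q h1 h2 h3 => ⟨h2, Or.inr (Or.inl ⟨h1, fun h4 => e ?_⟩)⟩
        obtain ⟨-, h5, h6⟩ := (hH₀ p q).1 h4
        have h7 := h.proper hS hcol M h1
        simp only [hT, Two, mem_ofPred_eq] at h2 h3 h5 h6
        rw [Sym2.eq_iff]
        grind)
  have h2 : ((H.edgeSet \ H₀.edgeSet) ∪ {e | e ∈ Q.edges}).ncard ≤
      (H.edgeSet \ H₀.edgeSet).ncard + Q.length := by
    refine (ncard_union_le _ _).trans (Nat.add_le_add_left ?_ _)
    rw [← Q.length_edges, show {e | e ∈ Q.edges} = (Q.edges.toFinset : Set _) by simp,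
      ncard_coe_finset]
    exact List.toFinset_card_le _
  have h3 := ncard_sdiff_add_ncard_of_subset hsub
  have h4 : {e | e ∈ P.edges}.ncard = P.length := by
    rw [← P.length_edges, show {e | e ∈ P.edges} = (P.edges.toFinset : Set _) by simp,
      ncard_coe_finset]
    exact List.toFinset_card_of_nodup hP.isTrail.edges_nodup
  have h5 : {e | e ∈ P.edges} ⊆ H₀.edgeSet := fun e he => P.edges_subset_edgeSet he
  have hd : ∀ {a b : X} (p : H₀.Walk a b), Hp.dist a b ≤ p.length := fun p =>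
    (SimpleGraph.dist_le (p.mapLe hle)).trans (by simp)
  have h6 := hd P
  have h7 := ncard_le_ncard h5
  have h8 : {e | e ∈ P.edges} = H₀.edgeSet := eq_of_subset_of_ncard_le h5 (by omega)
  have hL : P.length ≤ Hp.dist (root z) (root w) := by omega
  have hre : ∀ i, Hp.Reachable (root z) (P.getVert i) := fun i => (P.take i).reachable.mono hle
  have hδ : ∀ i ≤ P.length, Hp.dist (root z) (P.getVert i) = i := by
    intro i hi
    have e1 := hd (P.take i)
    have e2 := hd (P.drop i)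
    have e3 := (hre i).dist_triangle_left (root w)
    rw [SimpleGraph.Walk.take_length] at e1
    rw [SimpleGraph.Walk.drop_length] at e2
    omega
  have hed : ∀ x y, H.Adj x y → x ∈ T → y ∈ T → ∃ i < P.length,
      s(P.getVert i, P.getVert (i + 1)) = s(x, y) := fun x y a1 a2 a3 =>
    (P.mk_mem_edges_iff_exists).1 (show s(x, y) ∈ {e | e ∈ P.edges} from
      h8 ▸ (hH₀ x y).2 ⟨a1, a2, a3⟩)
  have hon : ∀ x y, H.Adj x y → x ∈ T → y ∈ T → ∃ i ≤ P.length, P.getVert i = x := by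
    intro x y a1 a2 a3
    obtain ⟨i, hi, e⟩ := hed x y a1 a2 a3
    rcases Sym2.eq_iff.1 e with ⟨e1, -⟩ | ⟨-, e1⟩
    · exact ⟨i, hi.le, e1⟩
    · exact ⟨i + 1, hi, e1⟩
  refine ⟨Hp.dist (root z), Hp.Reachable (root z), fun x y a1 a2 a3 => ?_,
    fun x y x' y' a1 a2 a3 b1 b2 b3 e => ?_, fun x y a1 a2 a3 a4 => ?_,
    fun x y hx a1 a2 a3 => ?_⟩
  · obtain ⟨i, -, rfl⟩ := hon x y a1 a2 a3
    exact hre i
  · obtain ⟨i, hi, rfl⟩ := hon x y a1 a2 a3
    obtain ⟨j, hj, rfl⟩ := hon x' y' b1 b2 b3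
    rw [hδ i hi, hδ j hj] at e
    rw [e]
  · have hxy : Hp.Adj x y := (hHp x y).2
      ⟨a1.elim (fun h => h.ne) fun h => h.2, a2, a3, a1.imp_right fun h => h.1⟩
    have a5 := a4.trans hxy.reachable
    refine ⟨a5, ?_⟩
    have hval : ∀ {a b : X}, Hp.Adj a b → decide (col a = z) ≠ decide (col b = z) := by
      intro a b hab
      have e1 := hne a b hab
      obtain ⟨-, e2, e3, -⟩ := (hHp a b).1 hab
      simp only [hT, Two, mem_ofPred_eq] at e2 e3
      simp only [ne_eq, decide_eq_decide]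
      grind
    let c : Hp.Coloring Bool := SimpleGraph.Coloring.mk (fun a => decide (col a = z)) hval
    obtain ⟨p, hp⟩ := a4.exists_walk_length_eq_dist
    obtain ⟨q, hq⟩ := a5.exists_walk_length_eq_dist
    have e1 := c.even_length_iff_congr p
    have e2 := c.even_length_iff_congr q
    have e3 : c x ≠ c y := hval hxy
    have e4 : Hp.dist (root z) y ≠ Hp.dist (root z) x := by
      intro e
      rw [hq, e, ← hp, e1] at e2
      apply e3
      rw [Bool.eq_iff_iff]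
      tauto
    have := hxy.diff_dist_adj (u := root z)
    omega
  · obtain ⟨i, hi, e⟩ := hed x y a1 a2 a3
    have hadj : ∀ j < P.length, H.Adj (P.getVert j) (P.getVert (j + 1)) ∧ P.getVert j ∈ T ∧
        P.getVert (j + 1) ∈ T := fun j hj => (hH₀ _ _).1 (P.adj_getVert_succ hj)
    rcases Sym2.eq_iff.1 e with ⟨rfl, rfl⟩ | ⟨rfl, rfl⟩
    · rcases i with _ | i
      · exact absurd ⟨z, P.getVert_zero.symm⟩ hx
      · refine ⟨P.getVert i, fun e1 => ?_, (hadj i (by omega)).1.symm, (hadj i (by omega)).2.1⟩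
        have := congrArg (Hp.dist (root z)) e1
        rw [hδ _ (by omega), hδ _ (by omega)] at this
        omega
    · have hi' : i + 1 < P.length := by
        by_contra hn
        exact hx ⟨w, by rw [show i + 1 = P.length by omega, P.getVert_length]⟩
      refine ⟨P.getVert (i + 1 + 1), fun e1 => ?_, (hadj _ hi').1, (hadj _ hi').2.2⟩
      have := congrArg (Hp.dist (root z)) e1
      rw [hδ _ (by omega), hδ _ (by omega)] at this
      omega

end Pool.Agent.Lib.EU59
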