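import Mathlib
import Pool.Agent.Lib.EU59.Short

set_option autoImplicit false

open Set Function

namespace Pool.Agent.Lib.EU59

open Pool.Agent.Lib.MP_15a8b6_co

variable {S : Type*} [TopologicalSpace S] {V X : Type*}

/-- The neighbours as a finite set. -/
noncomputable def nb [Fintype X] (H : SimpleGraph X) (x : X) : Finset X := by
  classical exact Finset.univ.filter fun y => H.Adj x y

theorem mem_nb [Fintype X] {H : SimpleGraph X} {x y : X} : y ∈ nb H x ↔ H.Adj x y := by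
  simp [nb]

variable {G : SimpleGraph V} {root : V → X} {col : X → V} {W : Finset X} {H : SimpleGraph X}
variable [Fintype H.Dart]

theorem a2_inv {D : Type*} : Involutive (a2 : D × Bool → D × Bool) := by
  rintro ⟨d, s⟩
  simp [a2]

theorem a2_ne {D : Type*} (φ : D × Bool) : a2 φ ≠ φ := by
  obtain ⟨d, s⟩ := φ
  cases s <;> simp [a2]

namespace RM

variable (M : RM S H W)

theorem a1_ne (φ : H.Dart × Bool) : M.a1 φ ≠ φ := fun h => by
  have := M.a1_snd φ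
  rw [h] at this
  simp at this

theorem a0_ne (φ : H.Dart × Bool) : M.a0 φ ≠ φ := fun h => by
  have := M.a0_vx φ
  rw [h] at this
  exact φ.1.adj.ne this

/-- Rotation around a node. -/
abbrev σ : H.Dart × Bool → H.Dart × Bool := M.a1 ∘ a2

/-- Rotation around a face. -/
abbrev ρ : H.Dart × Bool → H.Dart × Bool := M.a1 ∘ M.a0

theorem σ_ap (φ : H.Dart × Bool) : M.σ φ = M.a1 (a2 φ) := rfl

theorem ρ_ap (φ : H.Dart × Bool) : M.ρ φ = M.a1 (M.a0 φ) := rfl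

theorem σ_vx (k : ℕ) (φ : H.Dart × Bool) : (M.σ^[k] φ).1.fst = φ.1.fst := by
  induction k with
  | zero => rfl
  | succ k ih => rw [iterate_succ_apply', σ_ap, M.a1_fst]; exact ih

theorem σ_snd (k : ℕ) (φ : H.Dart × Bool) : (M.σ^[k] φ).2 = φ.2 := by
  induction k with
  | zero => rfl
  | succ k ih => rw [iterate_succ_apply', σ_ap, M.a1_snd]; simpa [a2] using ih

theorem σ_adj (k : ℕ) (φ : H.Dart × Bool) : H.Adj φ.1.fst (M.σ^[k] φ).1.snd :=
  M.σ_vx k φ ▸ (M.σ^[k] φ).1.adj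

theorem σ_ext {i j : ℕ} {φ : H.Dart × Bool} (h : (M.σ^[i] φ).1.snd = (M.σ^[j] φ).1.snd) :
    M.σ^[i] φ = M.σ^[j] φ :=
  Prod.ext (SimpleGraph.Dart.ext _ _ (Prod.ext (by rw [M.σ_vx, M.σ_vx]) h))
    (by rw [M.σ_snd, M.σ_snd])

theorem σ_inj : Injective M.σ := M.inv1.injective.comp a2_inv.injective

theorem a1_σ (φ : H.Dart × Bool) : M.a1 (M.σ φ) = a2 φ := M.inv1 _

theorem a1_ρ (φ : H.Dart × Bool) : M.a1 (M.ρ φ) = M.a0 φ := M.inv1 _

theorem ρ_vx (φ : H.Dart × Bool) : (M.ρ φ).1.fst = φ.1.snd := by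
  rw [ρ_ap, M.a1_fst, M.a0_vx]

theorem nbr_mem {k : ℕ} {φ : H.Dart × Bool} (hk : 0 < k) (h : M.σ^[k] φ = φ) {y : X}
    (hy : H.Adj φ.1.fst y) : ∃ i < k, (M.σ^[i] φ).1.snd = y := by
  obtain ⟨j, hj⟩ := M.trans φ ⟨(φ.1.fst, y), hy⟩ rfl
  refine ⟨j % k, Nat.mod_lt _ hk, ?_⟩
  rw [IsPeriodicPt.iterate_mod_apply h j, hj]

variable [Fintype X]

theorem deg_le {k : ℕ} {φ : H.Dart × Bool} (hk : 0 < k) (h : M.σ^[k] φ = φ) :
    (nb H φ.1.fst).card ≤ k := by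
  classical
  refine le_trans (Finset.card_le_card (t := (Finset.range k).image fun i => (M.σ^[i] φ).1.snd)
    fun y hy => ?_) (Finset.card_image_le.trans (by simp))
  obtain ⟨i, hi, h1⟩ := M.nbr_mem hk h (mem_nb.1 hy)
  exact Finset.mem_image.2 ⟨i, Finset.mem_range.2 hi, h1⟩

theorem σ_ne {i j : ℕ} {φ : H.Dart × Bool} (hij : i < j) (hj : j < i + (nb H φ.1.fst).card) :
    (M.σ^[i] φ).1.snd ≠ (M.σ^[j] φ).1.snd := by
  intro h
  have h1 := M.σ_ext h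
  obtain ⟨k, rfl⟩ := Nat.exists_eq_add_of_le hij.le
  rw [iterate_add_apply] at h1
  have := M.deg_le (by omega) ((M.σ_inj.iterate i) h1).symm
  omega

theorem σ_deg (φ : H.Dart × Bool) : M.σ^[(nb H φ.1.fst).card] φ = φ := by
  obtain ⟨i, hi, j, hj, hij, h⟩ := Finset.exists_ne_map_eq_of_card_lt_of_maps_to
    (s := Finset.range ((nb H φ.1.fst).card + 1)) (t := nb H φ.1.fst) (by simp)
    (f := fun i => (M.σ^[i] φ).1.snd) fun i _ => mem_nb.2 (M.σ_adj i φ)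
  simp only [Finset.mem_range] at hi hj
  wlog hlt : i < j generalizing i j
  · exact this j i hij.symm h.symm hj hi (by omega)
  have h1 : ¬ j < i + (nb H φ.1.fst).card := fun h1 => M.σ_ne hlt h1 h
  obtain rfl : i = 0 := by omega
  obtain rfl : j = (nb H φ.1.fst).card := by omega
  exact (M.σ_ext h).symm

omit [Fintype X] in
theorem lk_σ (k : ℕ) (φ : H.Dart × Bool) : M.Lk (M.σ^[k + 1] φ).1.snd (M.σ^[k] φ).1.snd :=
  ⟨_, rfl, by rw [iterate_succ_apply', M.a1_σ]; rfl⟩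

/-- The face of the flag is a triangle. -/
def Tri (φ : H.Dart × Bool) : Prop := M.ρ^[3] φ = φ

omit [Fintype X]

variable {M}

theorem Tri.a1 {φ : H.Dart × Bool} (h : M.Tri φ) : M.Tri (M.a1 φ) := by
  have := dih_conj M.inv1 M.inv0 3 φ
  rwa [show (M.a1 ∘ M.a0)^[3] φ = φ from h] at this

theorem Tri.ρ {φ : H.Dart × Bool} (h : M.Tri φ) : M.Tri (M.ρ φ) := by
  unfold Tri
  rw [← iterate_succ_apply, iterate_succ_apply', h]

theorem Tri.a0 {φ : H.Dart × Bool} (h : M.Tri φ) : M.Tri (M.a0 φ) := M.a1_ρ φ ▸ h.ρ.a1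

theorem tri_a1 {φ : H.Dart × Bool} : M.Tri (M.a1 φ) ↔ M.Tri φ :=
  ⟨fun h => M.inv1 φ ▸ h.a1, Tri.a1⟩

theorem Tri.fc {φ ψ : H.Dart × Bool} (h : M.Tri φ) (hf : M.Fc φ ψ) : M.Tri ψ := by
  induction hf with
  | refl => exact h
  | tail _ h1 ih =>
    rcases h1 with rfl | rfl
    · exact ih.a1
    · exact ih.a0

theorem Tri.tg {φ : H.Dart × Bool} (h : M.Tri φ) : (M.ρ φ).1.snd = (M.a1 φ).1.snd := by
  have h1 : M.a1 φ = M.a0 (M.ρ (M.ρ φ)) := by
    rw [← M.a1_ρ]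
    exact congrArg M.a1 h.symm
  rw [h1, M.a0_tg, M.ρ_vx]

theorem Tri.adj {φ : H.Dart × Bool} (h : M.Tri φ) : H.Adj φ.1.snd (M.a1 φ).1.snd := by
  rw [← h.tg, ← M.ρ_vx]
  exact (M.ρ φ).1.adj

end RM

variable [Fintype X] [Fintype V]

/-- The consequences of minimality. -/
structure Fx (M : RM S H W) (G : SimpleGraph V) (root : V → X) (col : X → V)
    (δ : Set X → X → ℕ) (Rch : Set X → X → Prop) : Prop where
  rainbow : ∀ {φ ψ}, M.Fc φ ψ → col φ.1.fst = col ψ.1.fst → φ.1.fst = ψ.1.fst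
  proper : ∀ {x y}, H.Adj x y → col x ≠ col y
  lk_ne : ∀ {x y}, M.Lk x y → x ≠ y → col x ≠ col y
  swap : ∀ {u z₁ z₂ w₁ w₂ v : X}, z₁ ∉ range root → H.Adj z₁ u → H.Adj z₁ w₁ → H.Adj z₁ w₂ →
    H.Adj z₁ v → (∀ y, H.Adj z₁ y → y = u ∨ y = w₁ ∨ y = w₂ ∨ y = v) → w₁ ≠ w₂ →
    col w₂ = col w₁ → col v = col u → col z₂ = col z₁ → z₂ ≠ z₁ → col u ≠ col w₁ →
    M.Lk w₁ z₂ → M.Lk w₂ z₂ → False
  dl : ∀ {x y}, H.Adj x y → Dl M root (Two col (col x) (col y)) (δ (Two col (col x) (col y)))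
    (Rch (Two col (col x) (col y)))
  rootdeg : ∀ v, (nb G v).card ≤ (nb H (root v)).card
  four : ∀ v, 4 ≤ (nb G v).card

theorem KMin.exists_fx [T2Space S] [Nonempty S] (hS : HD S) (h : KMin S G root col W H)
    (hcol : ∀ v, col (root v) = v) (M : RM S H W) (hG : ∀ v, 4 ≤ (nb G v).card) :
    ∃ δ Rch, Fx M G root col δ Rch := by
  classical
  have key : ∀ T : Set X, ∃ (δ : X → ℕ) (Rch : X → Prop),
      (∃ z w, G.Adj z w ∧ T = Two col z w) → Dl M root T δ Rch := by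
    intro T
    by_cases hT : ∃ z w, G.Adj z w ∧ T = Two col z w
    · obtain ⟨z, w, hzw, rfl⟩ := hT
      obtain ⟨δ, Rch, h1⟩ := h.exists_dl hS hcol M hzw
      exact ⟨δ, Rch, fun _ => h1⟩
    · exact ⟨fun _ => 0, fun _ => True, fun h1 => absurd h1 hT⟩
  choose δ Rch hδ using key
  refine ⟨δ, Rch, h.rainbow hS hcol M, h.proper hS hcol M, h.lk_ne hS hcol M, h.swap hS hcol M,
    fun hxy => hδ _ ⟨_, _, h.gadj hS hcol M hxy, rfl⟩, fun v => ?_, hG⟩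
  refine le_trans (Finset.card_le_card (t := (nb H (root v)).image col) fun b hb => ?_)
    Finset.card_image_le
  have hb' := mem_nb.1 hb
  rcases (h.conn v b hb').cases_head with h1 | ⟨y, ⟨h1, -, h2⟩, -⟩
  · exact absurd (by rw [← hcol v, h1, hcol]) hb'.ne
  · have h3 := h.proper hS hcol M h1
    rw [hcol] at h3
    exact Finset.mem_image.2 ⟨y, mem_nb.2 h1, h2.resolve_left h3.symm⟩

namespace Fx

variable {M : RM S H W} {δ : Set X → X → ℕ} {Rch : Set X → X → Prop}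
  (F : Fx M G root col δ Rch)
include F

theorem twin {x y : X} (hx : x ∉ range root) (hxy : H.Adj x y) :
    ∃ y', y' ≠ y ∧ H.Adj x y' ∧ col y' = col y := by
  obtain ⟨y', h1, h2, h3⟩ := (F.dl hxy).twin x y hx hxy (Or.inl rfl) (Or.inr rfl)
  exact ⟨y', h1, h2, h3.resolve_left (F.proper h2).symm⟩

theorem three {x a b c : X} (ha : H.Adj x a) (hb : H.Adj x b) (hc : H.Adj x c)
    (e1 : col b = col a) (e2 : col c = col a) : a = b ∨ a = c ∨ b = c := by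
  have D := F.dl ha
  have r := D.rch x a ha (Or.inl rfl) (Or.inr rfl)
  have s1 := (D.step x a (Or.inl ha) (Or.inl rfl) (Or.inr rfl) r).2
  have s2 := (D.step x b (Or.inl hb) (Or.inl rfl) (Or.inr e1) r).2
  have s3 := (D.step x c (Or.inl hc) (Or.inl rfl) (Or.inr e2) r).2
  have i1 := D.inj a x b x ha.symm (Or.inr rfl) (Or.inl rfl) hb.symm (Or.inr e1) (Or.inl rfl)
  have i2 := D.inj a x c x ha.symm (Or.inr rfl) (Or.inl rfl) hc.symm (Or.inr e2) (Or.inl rfl)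
  have i3 := D.inj b x c x hb.symm (Or.inr e1) (Or.inl rfl) hc.symm (Or.inr e2) (Or.inl rfl)
  by_contra hn
  push Not at hn
  have j1 := mt i1 hn.1
  have j2 := mt i2 hn.2.1
  have j3 := mt i3 hn.2.2
  omega

theorem even_deg {x : X} (hx : x ∉ range root) : Even (nb H x).card := by
  choose g hg1 hg2 hg3 using fun y (hy : y ∈ nb H x) => F.twin hx (mem_nb.1 hy)
  have := Finset.sum_involution (s := nb H x) (f := fun _ => (1 : ZMod 2)) g
    (fun _ _ => by decide) (fun a ha _ => hg1 a ha) (fun a ha => mem_nb.2 (hg2 a ha))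
    (fun a ha => by
      rcases F.three (mem_nb.1 ha) (hg2 a ha) (hg2 _ (mem_nb.2 (hg2 a ha))) (hg3 a ha)
        ((hg3 _ _).trans (hg3 a ha)) with h | h | h
      · exact absurd h.symm (hg1 a ha)
      · exact h.symm
      · exact absurd h.symm (hg1 _ _))
  rw [← ZMod.natCast_eq_zero_iff_even]
  simpa using this

theorem four_le (φ : H.Dart × Bool) : 4 ≤ (nb H φ.1.fst).card := by
  classical
  by_cases hx : φ.1.fst ∈ range root
  · obtain ⟨v, hv⟩ := hx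
    exact hv ▸ (F.four v).trans (F.rootdeg v)
  have h1 := F.even_deg hx
  have h2 : 0 < (nb H φ.1.fst).card := Finset.card_pos.2 ⟨_, mem_nb.2 φ.1.adj⟩
  have h3 : 2 ≤ (nb H φ.1.fst).card := by
    obtain ⟨k, hk⟩ := h1
    omega
  have h4 := M.σ_ne (φ := φ) (i := 0) (j := 1) (by omega) (by omega)
  have h5 := F.lk_ne (M.lk_σ 0 φ) h4.symm
  obtain ⟨y, h6, h7, h8⟩ := F.twin hx φ.1.adj
  have h9 : 2 < (nb H φ.1.fst).card := Finset.two_lt_card_iff.2 ⟨_, _, y,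
    mem_nb.2 (M.σ_adj 0 φ), mem_nb.2 (M.σ_adj 1 φ), mem_nb.2 h7, h4, h6.symm, fun e => h5 (by rw [e, h8]; rfl)⟩
  obtain ⟨k, hk⟩ := h1
  omega

end Fx

/-- Hosts of degree four. -/
def IsQ (H : SimpleGraph X) (root : V → X) (x : X) : Prop := x ∉ range root ∧ (nb H x).card = 4

omit [Fintype V] in
theorem IsQ.σ4 {M : RM S H W} {φ : H.Dart × Bool} (h : IsQ H root φ.1.fst) : M.σ^[4] φ = φ :=
  h.2 ▸ M.σ_deg φ

omit [Fintype V] in
theorem IsQ.a1 {M : RM S H W} {φ : H.Dart × Bool} (h : IsQ H root φ.1.fst) :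
    (M.a1 φ).1.snd = (M.σ^[3] φ).1.snd := by
  have h1 : M.a1 φ = a2 (M.σ^[3] φ) := by
    rw [← M.a1_σ, ← iterate_succ_apply' M.σ, h.σ4]
  rw [h1]
  rfl

namespace Fx

variable {M : RM S H W} {δ : Set X → X → ℕ} {Rch : Set X → X → Prop}
  (F : Fx M G root col δ Rch)
include F

theorem col_two {φ : H.Dart × Bool} (h : IsQ H root φ.1.fst) :
    col (M.σ^[2] φ).1.snd = col φ.1.snd := by
  obtain ⟨y, h1, h2, h3⟩ := F.twin h.1 φ.1.adj
  obtain ⟨i, hi, rfl⟩ := M.nbr_mem (by norm_num) (h.σ4 (M := M)) h2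
  have h4 := h.2
  interval_cases i
  · exact absurd rfl h1
  · exact absurd h3 (F.lk_ne (M.lk_σ 0 φ) h1)
  · exact h3
  · have h5 := M.lk_σ 3 φ
    rw [h.σ4] at h5
    exact absurd h3.symm (F.lk_ne h5 h1.symm)

theorem col_three {φ : H.Dart × Bool} (h : IsQ H root φ.1.fst) :
    col (M.σ^[3] φ).1.snd = col (M.σ φ).1.snd :=
  F.col_two (φ := M.σ φ) (M.σ_vx 1 φ ▸ h)

theorem tri_Q {φ : H.Dart × Bool} (ht : M.Tri φ) (h1 : IsQ H root φ.1.fst)
    (h2 : IsQ H root φ.1.snd) : False := by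
  have h2' : IsQ H root (M.a0 φ).1.fst := M.a0_vx φ ▸ h2
  have d1 := h1.2
  have e1 : (M.σ^[3] (M.a0 φ)).1.snd = (M.σ^[3] φ).1.snd := by
    rw [← h2'.a1, ← h1.a1]
    exact ht.tg
  have e2 : (M.σ (M.a0 φ)).1.snd = (M.σ φ).1.snd := by
    have f1 : M.Fc (a2 φ) (M.a0 (M.σ (M.a0 φ))) := by
      rw [M.σ_ap, ← M.a0_a2]
      exact RM.Fc.rfl.t0.t1.t0
    have f2 : M.Fc (a2 φ) (M.a0 (M.σ φ)) := RM.Fc.rfl.t1.t0
    have := F.rainbow (f1.symm.trans f2) (by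
      rw [M.a0_vx, M.a0_vx, ← F.col_three h2', e1, F.col_three h1])
    rwa [M.a0_vx, M.a0_vx] at this
  have adj := fun k => M.a0_vx φ ▸ M.σ_adj k (M.a0 φ)
  refine F.swap (u := φ.1.fst) (z₁ := φ.1.snd) (z₂ := (M.σ^[2] φ).1.snd)
    (w₁ := (M.σ^[3] φ).1.snd) (w₂ := (M.σ φ).1.snd) (v := (M.σ^[2] (M.a0 φ)).1.snd) h2.1
    φ.1.adj.symm (e1 ▸ adj 3) (e2 ▸ adj 1) (adj 2) (fun y hy => ?_)
    (M.σ_ne (i := 1) (j := 3) (by omega) (by omega)).symm (F.col_three h1).symm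
    (by rw [F.col_two h2', M.a0_tg]) (F.col_two h1)
    (M.σ_ne (i := 0) (j := 2) (by omega) (by omega)).symm (F.proper (M.σ_adj 3 φ))
    (M.lk_σ 2 φ) (M.lk_σ 1 φ).symm
  obtain ⟨i, hi, rfl⟩ := M.nbr_mem (by norm_num) (h2'.σ4 (M := M)) (M.a0_vx φ ▸ hy)
  interval_cases i
  · exact Or.inl (M.a0_tg φ)
  · exact Or.inr (Or.inr (Or.inl e2))
  · exact Or.inr (Or.inr (Or.inr rfl))
  · exact Or.inr (Or.inl e1)

end Fx

end Pool.Agent.Lib.EU59
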