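import Mathlib
import Pool.Agent.Lib.EU59.Local

set_option autoImplicit false

open Set Function

namespace Pool.Agent.Lib.EU59

open Pool.Agent.Lib.MP_15a8b6_co

variable {S : Type*} [TopologicalSpace S] {V X : Type*}
variable {G : SimpleGraph V} {root : V → X} {col : X → V} {W : Finset X} {H : SimpleGraph X}
variable [Fintype H.Dart] [Fintype X]

/-- The corner is heavy because of the triangle across the edge of the flag. -/
def Half (M : RM S H W) (col : X → V) (δ : Set X → X → ℕ) (φ : H.Dart × Bool) : Prop :=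
  M.Tri (a2 φ) ∧ δ (Two col (col φ.1.snd) (col (M.a1 φ).1.snd)) (M.a1 φ).1.snd =
    δ (Two col (col φ.1.snd) (col (M.a1 φ).1.snd)) (M.σ φ).1.snd

/-- The charge taken by a corner from its face. -/
noncomputable def take (M : RM S H W) (root : V → X) (col : X → V) (δ : Set X → X → ℕ)
    (φ : H.Dart × Bool) : ℕ := by
  classical exact if IsQ H root φ.1.fst ∧ ¬ M.Tri φ then
    (if Half M col δ φ ∨ Half M col δ (M.a1 φ) then 2 else 1) else 0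

variable {M : RM S H W} {δ : Set X → X → ℕ} {Rch : Set X → X → Prop}

theorem take_a1 (φ : H.Dart × Bool) : take M root col δ (M.a1 φ) = take M root col δ φ := by
  unfold take
  rw [M.a1_fst, RM.tri_a1, M.inv1]
  split_ifs <;> first | rfl | tauto

theorem take_le (φ : H.Dart × Bool) : take M root col δ φ ≤ 2 := by
  unfold take
  split_ifs <;> omega

theorem take_Q {φ : H.Dart × Bool} (h : take M root col δ φ ≠ 0) : IsQ H root φ.1.fst := by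
  unfold take at h
  split_ifs at h with h1
  · exact h1.1
  · exact h1.1
  · exact absurd rfl h

theorem take_tri {φ : H.Dart × Bool} (h : M.Tri φ) : take M root col δ φ = 0 := by
  unfold take
  exact if_neg fun h1 => h1.2 h

theorem take_two {φ : H.Dart × Bool} (h : take M root col δ φ = 2) :
    Half M col δ φ ∨ Half M col δ (M.a1 φ) := by
  unfold take at h
  split_ifs at h with h1 h2
  · exact h2
  all_goals omega

theorem take_ge {φ₀ φ₁ φ₂ φ₃ : H.Dart × Bool} (h1 : M.σ φ₀ = φ₁) (h3 : M.σ φ₂ = φ₃)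
    (h4 : M.σ φ₃ = φ₀) (hQ : IsQ H root φ₀.1.fst) {T : Set X}
    (hT : Two col (col φ₀.1.snd) (col φ₃.1.snd) = T) (ht : ¬ M.Tri φ₀) :
    1 ≤ take M root col δ φ₀ ∧ ((M.Tri φ₁ ∧ δ T φ₃.1.snd = δ T φ₁.1.snd) ∨
      (M.Tri φ₃ ∧ δ T φ₀.1.snd = δ T φ₂.1.snd) → take M root col δ φ₀ = 2) := by
  have e1 : M.a1 φ₀ = a2 φ₃ := by rw [← h4, M.a1_σ]
  have e2 : M.a1 φ₃ = a2 φ₂ := by rw [← h3, M.a1_σ]
  have e3 : (a2 φ₃).1 = φ₃.1 := rfl
  have e4 : (a2 φ₂).1 = φ₂.1 := rfl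
  unfold take
  rw [if_pos ⟨hQ, ht⟩]
  refine ⟨by split_ifs <;> omega, fun h => if_pos (h.imp (fun h => ⟨?_, ?_⟩) fun h => ⟨?_, ?_⟩)⟩
  · rw [← RM.tri_a1, ← M.σ_ap, h1]
    exact h.1
  · rw [e1, e3, hT, h1]
    exact h.2
  · rw [e1, a2_inv]
    exact h.1
  · rw [M.inv1, M.σ_ap, e1, a2_inv, e2, e3, e4, two_comm, hT]
    exact h.2

variable [Fintype V]

namespace Fx

variable (F : Fx M G root col δ Rch)
include F

theorem host_sum {φ : H.Dart × Bool} (hQ : IsQ H root φ.1.fst) :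
    4 ≤ ∑ i ∈ Finset.range 4, take M root col δ (M.σ^[i] φ) := by
  have hQ' : ∀ i, IsQ H root (M.σ^[i] φ).1.fst := fun i => (M.σ_vx i φ).symm ▸ hQ
  have d4 := hQ.2
  have c2 := F.col_two hQ
  have c3 := F.col_three hQ
  have s4 := hQ.σ4 (M := M)
  have l0 := M.lk_σ 0 φ
  have l1 := M.lk_σ 1 φ
  have l2 := M.lk_σ 2 φ
  have l3 := M.lk_σ 3 φ
  rw [s4] at l3
  have n01 := M.σ_ne (φ := φ) (i := 0) (j := 1) (by omega) (by omega)
  have n12 := M.σ_ne (φ := φ) (i := 1) (j := 2) (by omega) (by omega)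
  have n23 := M.σ_ne (φ := φ) (i := 2) (j := 3) (by omega) (by omega)
  have n03 := M.σ_ne (φ := φ) (i := 0) (j := 3) (by omega) (by omega)
  have n02 := M.σ_ne (φ := φ) (i := 0) (j := 2) (by omega) (by omega)
  have n13 := M.σ_ne (φ := φ) (i := 1) (j := 3) (by omega) (by omega)
  have q0 := hQ' 0
  have q1 := hQ' 1
  have q2 := hQ' 2
  have q3 := hQ' 3
  have h2 : M.σ (M.σ^[1] φ) = M.σ^[2] φ := (iterate_succ_apply' _ _ _).symm
  have h3 : M.σ (M.σ^[2] φ) = M.σ^[3] φ := (iterate_succ_apply' _ _ _).symm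
  have h4 : M.σ (M.σ^[3] φ) = φ := (iterate_succ_apply' _ _ _).symm.trans s4
  simp only [Finset.sum_range_succ, Finset.sum_range_zero, zero_add]
  simp only [iterate_zero, iterate_one, id_eq, zero_add, Nat.reduceAdd] at *
  generalize M.σ^[3] φ = φ₃ at *
  generalize M.σ^[2] φ = φ₂ at *
  generalize h1 : M.σ φ = φ₁ at *
  obtain ⟨T, hT⟩ : ∃ T, Two col (col φ.1.snd) (col φ₁.1.snd) = T := ⟨_, rfl⟩
  have T0 : Two col (col φ.1.snd) (col φ₃.1.snd) = T := by rw [c3, hT]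
  have T1 : Two col (col φ₁.1.snd) (col φ.1.snd) = T := by rw [two_comm, hT]
  have T2 : Two col (col φ₂.1.snd) (col φ₁.1.snd) = T := by rw [c2, hT]
  have T3 : Two col (col φ₃.1.snd) (col φ₂.1.snd) = T := by rw [c2, c3, T1]
  have g0 := take_ge (δ := δ) h1 h3 h4 q0 T0
  have g1 := take_ge (δ := δ) h2 h4 h1 q1 T1
  have g2 := take_ge (δ := δ) h3 h1 h2 q2 T2
  have g3 := take_ge (δ := δ) h4 h2 h3 q3 T3
  have m0 : φ.1.snd ∈ T := hT ▸ Or.inl rfl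
  have m1 : φ₁.1.snd ∈ T := hT ▸ Or.inr rfl
  have m2 : φ₂.1.snd ∈ T := hT ▸ Or.inl c2
  have m3 : φ₃.1.snd ∈ T := hT ▸ Or.inr c3
  have ad : ∀ {ψ χ : H.Dart × Bool}, M.σ χ = ψ → M.Tri ψ → H.Adj ψ.1.snd χ.1.snd := by
    rintro _ χ rfl h
    have := h.adj
    rwa [M.a1_σ] at this
  have a0 := ad h4
  have a1 := ad h1
  have a2 := ad h2
  have a3 := ad h3
  by_cases hn : ¬ M.Tri φ ∧ ¬ M.Tri φ₁ ∧ ¬ M.Tri φ₂ ∧ ¬ M.Tri φ₃
  · have := (g0 hn.1).1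
    have := (g1 hn.2.1).1
    have := (g2 hn.2.2.1).1
    have := (g3 hn.2.2.2).1
    omega
  obtain ⟨D, r⟩ : Dl M root T (δ T) (Rch T) ∧
      (Rch T φ.1.snd ∨ Rch T φ₁.1.snd ∨ Rch T φ₂.1.snd ∨ Rch T φ₃.1.snd) := by
    by_cases t0 : M.Tri φ
    · have D := F.dl (a0 t0)
      rw [T0] at D
      exact ⟨D, Or.inl (D.rch _ _ (a0 t0) m0 m3)⟩
    by_cases t1 : M.Tri φ₁
    · have D := F.dl (a1 t1)
      rw [T1] at D
      exact ⟨D, Or.inr (Or.inl (D.rch _ _ (a1 t1) m1 m0))⟩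
    by_cases t2 : M.Tri φ₂
    · have D := F.dl (a2 t2)
      rw [T2] at D
      exact ⟨D, Or.inr (Or.inr (Or.inl (D.rch _ _ (a2 t2) m2 m1)))⟩
    have t3 : M.Tri φ₃ := by_contra fun t3 => hn ⟨t0, t1, t2, t3⟩
    have D := F.dl (a3 t3)
    rw [T3] at D
    exact ⟨D, Or.inr (Or.inr (Or.inr (D.rch _ _ (a3 t3) m3 m2)))⟩
  have s0 := D.step _ _ (Or.inr ⟨l0.symm, n01⟩) m0 m1
  have s1 := D.step _ _ (Or.inr ⟨l1.symm, n12⟩) m1 m2
  have s2 := D.step _ _ (Or.inr ⟨l2.symm, n23⟩) m2 m3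
  have s3 := D.step _ _ (Or.inr ⟨l3.symm, n03.symm⟩) m3 m0
  have r0 : Rch T φ.1.snd := r.elim id fun r => r.elim (fun r => (s3 (s2 (s1 r).1).1).1)
    fun r => r.elim (fun r => (s3 (s2 r).1).1) fun r => (s3 r).1
  have u0 := (s0 r0).2
  have u1 := (s1 (s0 r0).1).2
  have u2 := (s2 (s1 (s0 r0).1).1).2
  have u3 := (s3 (s2 (s1 (s0 r0).1).1).1).2
  have i02 : (M.Tri φ ∨ M.Tri φ₁) → (M.Tri φ₂ ∨ M.Tri φ₃) → δ T φ.1.snd ≠ δ T φ₂.1.snd := by
    rintro (t | t) (t' | t') e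
    · exact n02 (D.inj _ _ _ _ (a0 t) m0 m3 (a2 t') m2 m1 e)
    · exact n02 (D.inj _ _ _ _ (a0 t) m0 m3 (a3 t').symm m2 m3 e)
    · exact n02 (D.inj _ _ _ _ (a1 t).symm m0 m1 (a2 t') m2 m1 e)
    · exact n02 (D.inj _ _ _ _ (a1 t).symm m0 m1 (a3 t').symm m2 m3 e)
  have i13 : (M.Tri φ₁ ∨ M.Tri φ₂) → (M.Tri φ₃ ∨ M.Tri φ) → δ T φ₁.1.snd ≠ δ T φ₃.1.snd := by
    rintro (t | t) (t' | t') e
    · exact n13 (D.inj _ _ _ _ (a1 t) m1 m0 (a3 t') m3 m2 e)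
    · exact n13 (D.inj _ _ _ _ (a1 t) m1 m0 (a0 t').symm m3 m0 e)
    · exact n13 (D.inj _ _ _ _ (a2 t).symm m1 m2 (a3 t') m3 m2 e)
    · exact n13 (D.inj _ _ _ _ (a2 t).symm m1 m2 (a0 t').symm m3 m0 e)
  have e : δ T φ.1.snd = δ T φ₂.1.snd ∨ δ T φ₁.1.snd = δ T φ₃.1.snd := by omega
  clear s0 s1 s2 s3 u0 u1 u2 u3 a0 a1 a2 a3 ad D r r0
  generalize take M root col δ φ = k0 at *
  generalize take M root col δ φ₁ = k1 at *
  generalize take M root col δ φ₂ = k2 at *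
  generalize take M root col δ φ₃ = k3 at *
  generalize δ T φ.1.snd = d0 at *
  generalize δ T φ₁.1.snd = d1 at *
  generalize δ T φ₂.1.snd = d2 at *
  generalize δ T φ₃.1.snd = d3 at *
  by_cases t0 : M.Tri φ <;> by_cases t1 : M.Tri φ₁ <;> by_cases t2 : M.Tri φ₂ <;>
    by_cases t3 : M.Tri φ₃ <;>
    simp only [t0, t1, t2, t3, not_true, not_false_eq_true, true_and, false_and, or_false,
      false_or, or_true, forall_true_left, false_implies, and_true, or_self]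
      at g0 g1 g2 g3 i02 i13 hn <;> omega

theorem half_next {ψ : H.Dart × Bool} (h : Half M col δ ψ) (h0 : take M root col δ ψ ≠ 0) :
    take M root col δ (M.ρ ψ) = 0 := by
  by_contra h1
  exact F.tri_Q h.1 (take_Q (φ := ψ) h0) (M.ρ_vx ψ ▸ take_Q h1 : IsQ H root ψ.1.snd)

theorem half_prev {ψ : H.Dart × Bool} (h : Half M col δ (M.a1 (M.ρ ψ)))
    (h0 : take M root col δ (M.ρ ψ) ≠ 0) : take M root col δ ψ = 0 := by
  by_contra h1
  rw [M.a1_ρ] at h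
  refine F.tri_Q h.1 ?_ ?_
  · have := take_Q h0
    rwa [M.ρ_vx, ← M.a0_vx] at this
  · have := take_Q h1
    rwa [← M.a0_tg] at this

theorem rung {ψ₀ ψ₁ ψ₂ ψ₃ : H.Dart × Bool} (h1 : M.ρ ψ₀ = ψ₁) (h2 : M.ρ ψ₁ = ψ₂)
    (h3 : M.ρ ψ₂ = ψ₃) (h4 : M.ρ ψ₃ = ψ₀) (q0 : IsQ H root ψ₀.1.fst) (q2 : IsQ H root ψ₂.1.fst)
    (f0 : Half M col δ ψ₀) (f2 : Half M col δ (M.a1 ψ₂)) : False := by
  have e0 : (M.a1 ψ₀).1.snd = ψ₂.1.snd := by rw [← h4, M.a1_ρ, M.a0_tg, ← h3, M.ρ_vx]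
  have e1 : M.a1 ψ₂ = M.a0 ψ₁ := by rw [← h2, M.a1_ρ]
  have e2 : (M.a1 ψ₂).1.snd = ψ₀.1.snd := by rw [e1, M.a0_tg, ← h1, M.ρ_vx]
  have q2' : IsQ H root (M.a1 ψ₂).1.fst := (M.a1_fst ψ₂).symm ▸ q2
  have c0 : col (M.σ ψ₀).1.snd = col ψ₂.1.snd := by rw [← F.col_three q0, ← q0.a1, e0]
  have c2 : col (M.σ (M.a1 ψ₂)).1.snd = col ψ₂.1.snd := by
    rw [← F.col_three q2', ← q2'.a1, M.inv1]
  have b0 : H.Adj ψ₀.1.snd (M.σ ψ₀).1.snd := f0.1.adj
  have b2 : H.Adj ψ₀.1.snd (M.σ (M.a1 ψ₂)).1.snd := e2 ▸ f2.1.adj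
  have g0 := f0.2
  have g2 := f2.2
  rw [e0] at g0
  rw [M.inv1, e2] at g2
  have D := F.dl b0
  rw [c0] at D
  have e3 := D.inj _ _ _ _ b0.symm (Or.inr c0) (Or.inl rfl) b2.symm (Or.inr c2) (Or.inl rfl)
    (g0.symm.trans g2)
  have t0 : (M.σ (M.a0 ψ₀)).1.snd = (M.σ ψ₀).1.snd := by
    have := f0.1.tg
    rwa [M.ρ_ap, M.a0_a2] at this
  have t2 : (M.σ ψ₁).1.snd = (M.σ (M.a1 ψ₂)).1.snd := by
    have := f2.1.tg
    rwa [M.ρ_ap, M.a0_a2, e1, M.inv0, ← e1] at this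
  have h1' : M.a1 (M.a0 ψ₀) = ψ₁ := h1
  have e4 : M.σ ψ₁ = a2 (M.σ (M.a0 ψ₀)) := by
    refine Prod.ext (SimpleGraph.Dart.ext _ _ (Prod.ext ?_ ?_)) ?_
    · exact (M.σ_vx 1 ψ₁).trans ((h1' ▸ M.a1_fst (M.a0 ψ₀)).trans (M.σ_vx 1 _).symm)
    · exact t2.trans (e3.symm.trans t0.symm)
    · exact (M.σ_snd 1 ψ₁).trans ((h1' ▸ M.a1_snd (M.a0 ψ₀)).trans
        (congrArg (fun b => !b) (M.σ_snd 1 _).symm))
  have e5 : M.σ^[3] (a2 (M.a0 ψ₀)) = a2 (M.a0 ψ₀) := by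
    have : M.σ (a2 (M.a0 ψ₀)) = ψ₁ := by rw [M.σ_ap, a2_inv, ← h1]; rfl
    simp only [iterate_succ_apply, iterate_zero_apply]
    rw [this, e4, M.σ_ap, a2_inv, M.a1_σ]
  have := M.deg_le (by norm_num) e5
  have := F.four_le (a2 (M.a0 ψ₀))
  omega

theorem ρ_ne (φ : H.Dart × Bool) : ∀ k, 0 < k → k < 3 → M.ρ^[k] φ ≠ φ := by
  intro k h1 h2 h
  interval_cases k
  · have := M.ρ_vx φ
    rw [show M.ρ φ = φ from h] at this
    exact φ.1.adj.ne this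
  · have h3 : M.ρ (M.ρ φ) = φ := h
    have h4 : M.σ^[1] (a2 (M.a0 φ)) = a2 (M.a0 φ) := by
      rw [iterate_one, M.σ_ap, a2_inv]
      refine Prod.ext (SimpleGraph.Dart.ext _ _ (Prod.ext (M.a1_fst _) ?_)) (M.a1_snd _)
      have := M.ρ_vx (M.ρ φ)
      rw [h3] at this
      exact this.symm.trans (M.a0_tg φ).symm
    have := M.deg_le (by norm_num) h4
    have := F.four_le (a2 (M.a0 φ))
    omega

theorem face_sum {φ : H.Dart × Bool} {O : Finset (H.Dart × Bool)} (hO : ∀ ψ, ψ ∈ O ↔ M.Fc φ ψ) :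
    ∑ ψ ∈ O, take M root col δ ψ + 24 ≤ 4 * O.card := by
  classical
  have hc : ∀ l, (∀ k, 0 < k → k < l → M.ρ^[k] φ ≠ φ) → 2 * l ≤ O.card := fun l hl => by
    simpa using dih_sum_ge M.inv1 M.inv0 M.a1_ne M.a0_ne hl ((hO φ).2 .rfl)
      (fun ψ h => (hO _).2 ((hO ψ).1 h).t1) (fun ψ h => (hO _).2 ((hO ψ).1 h).t0) (fun _ => 1)
      fun _ => rfl
  have hs : ∀ l, 0 < l → M.ρ^[l] φ = φ → ∑ ψ ∈ O, take M root col δ ψ ≤
      2 * ∑ i ∈ Finset.range l, take M root col δ (M.ρ^[i] φ) := fun l h1 h2 =>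
    dih_sum_le M.inv1 M.inv0 h1 h2 (fun ψ h => (hO ψ).1 h) _ take_a1
  have ext : ∀ l, (∀ k, 0 < k → k < l → M.ρ^[k] φ ≠ φ) → M.ρ^[l] φ ≠ φ →
      ∀ k, 0 < k → k < l + 1 → M.ρ^[k] φ ≠ φ := fun l h1 h2 k h3 h4 =>
    (Nat.lt_succ_iff_lt_or_eq.1 h4).elim (h1 k h3) fun e => e ▸ h2
  have two : ∀ ψ, take M root col δ (M.ρ ψ) = 2 →
      (Half M col δ (M.ρ ψ) ∧ take M root col δ (M.ρ (M.ρ ψ)) = 0) ∨
      (Half M col δ (M.a1 (M.ρ ψ)) ∧ take M root col δ ψ = 0) := fun ψ h =>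
    (take_two h).imp (fun h1 => ⟨h1, F.half_next h1 (by omega)⟩)
      fun h1 => ⟨h1, F.half_prev h1 (by omega)⟩
  have n3 := F.ρ_ne φ
  by_cases h3 : M.ρ^[3] φ = φ
  · rw [Finset.sum_eq_zero fun ψ h => take_tri (RM.Tri.fc h3 ((hO ψ).1 h))]
    have := hc 3 n3
    omega
  have n4 := ext 3 n3 h3
  by_cases h4 : M.ρ^[4] φ = φ
  · have e1 := hc 4 n4
    have e2 := hs 4 (by norm_num) h4
    simp only [Finset.sum_range_succ, Finset.sum_range_zero, zero_add, iterate_succ_apply',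
      iterate_zero_apply] at e2 h4
    obtain ⟨ψ₁, h1⟩ : ∃ ψ, M.ρ φ = ψ := ⟨_, rfl⟩
    obtain ⟨ψ₂, h2⟩ : ∃ ψ, M.ρ ψ₁ = ψ := ⟨_, rfl⟩
    obtain ⟨ψ₃, h3⟩ : ∃ ψ, M.ρ ψ₂ = ψ := ⟨_, rfl⟩
    have w0 := two ψ₃
    have w1 := two φ
    have w2 := two ψ₁
    have w3 := two ψ₂
    simp only [h1, h2, h3] at e2 h4
    simp only [h1, h2, h3, h4] at w0 w1 w2 w3
    have tq := fun ψ => take_Q (M := M) (root := root) (col := col) (δ := δ) (φ := ψ)
    have k0 := fun a b => F.rung h1 h2 h3 h4 (tq _ a) (tq _ b)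
    have k1 := fun a b => F.rung h2 h3 h4 h1 (tq _ a) (tq _ b)
    have k2 := fun a b => F.rung h3 h4 h1 h2 (tq _ a) (tq _ b)
    have k3 := fun a b => F.rung h4 h1 h2 h3 (tq _ a) (tq _ b)
    have b0 := take_le (M := M) (root := root) (col := col) (δ := δ) φ
    have b1 := take_le (M := M) (root := root) (col := col) (δ := δ) ψ₁
    have b2 := take_le (M := M) (root := root) (col := col) (δ := δ) ψ₂
    have b3 := take_le (M := M) (root := root) (col := col) (δ := δ) ψ₃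
    have : take M root col δ φ + take M root col δ ψ₁ + take M root col δ ψ₂ +
        take M root col δ ψ₃ ≤ 4 := by
      clear e2 two hs tq
      generalize take M root col δ φ = t0 at *
      generalize take M root col δ ψ₁ = t1 at *
      generalize take M root col δ ψ₂ = t2 at *
      generalize take M root col δ ψ₃ = t3 at *
      interval_cases t0 <;> interval_cases t1 <;> interval_cases t2 <;> interval_cases t3 <;>
        first | omega | (exfalso; simp at w0 w1 w2 w3 k0 k1 k2 k3; tauto)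
    omega
  have n5 := ext 4 n4 h4
  by_cases h5 : M.ρ^[5] φ = φ
  · have e1 := hc 5 n5
    have e2 := hs 5 (by norm_num) h5
    simp only [Finset.sum_range_succ, Finset.sum_range_zero, zero_add, iterate_succ_apply',
      iterate_zero_apply] at e2 h5
    have two' : ∀ ψ, take M root col δ (M.ρ ψ) = 2 →
        take M root col δ (M.ρ (M.ρ ψ)) = 0 ∨ take M root col δ ψ = 0 := fun ψ h =>
      (two ψ h).imp And.right And.right
    have w0 := two' (M.ρ (M.ρ (M.ρ (M.ρ φ))))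
    have w1 := two' φ
    have w2 := two' (M.ρ φ)
    have w3 := two' (M.ρ (M.ρ φ))
    have w4 := two' (M.ρ (M.ρ (M.ρ φ)))
    rw [h5] at w0 w4
    have b0 := take_le (M := M) (root := root) (col := col) (δ := δ) φ
    have b1 := take_le (M := M) (root := root) (col := col) (δ := δ) (M.ρ φ)
    have b2 := take_le (M := M) (root := root) (col := col) (δ := δ) (M.ρ (M.ρ φ))
    have b3 := take_le (M := M) (root := root) (col := col) (δ := δ) (M.ρ (M.ρ (M.ρ φ)))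
    have b4 := take_le (M := M) (root := root) (col := col) (δ := δ) (M.ρ (M.ρ (M.ρ (M.ρ φ))))
    omega
  have e1 := hc 6 (ext 5 n5 h5)
  have e2 : ∑ ψ ∈ O, take M root col δ ψ ≤ O.card • 2 :=
    Finset.sum_le_card_nsmul _ _ _ fun ψ _ => take_le ψ
  rw [smul_eq_mul] at e2
  omega

end Fx

end Pool.Agent.Lib.EU59
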