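import Mathlib
import Pool.Agent.Lib.EU59.Disch

set_option autoImplicit false

open Set Function

namespace Pool.Agent.Lib.EU59

open Pool.Agent.Lib.MP_15a8b6_co

variable {S : Type*} [TopologicalSpace S] {V X Y : Type*}

theorem sum_nb [Fintype X] (H : SimpleGraph X) : ∑ x, (nb H x).card = 2 * H.edgeSet.ncard := by
  classical
  rw [ncard_eq_toFinset_card', ← SimpleGraph.edgeFinset, ← H.sum_degrees_eq_twice_card_edges]
  refine Finset.sum_congr rfl fun x _ => ?_
  rw [← SimpleGraph.card_neighborFinset_eq_degree]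
  congr 1
  ext y
  simp [mem_nb]

theorem card_flags [Fintype X] (H : SimpleGraph X) [Fintype H.Dart] :
    Fintype.card (H.Dart × Bool) = 4 * H.edgeSet.ncard := by
  classical
  have h1 : Fintype.card H.Dart = 2 * H.edgeFinset.card := by
    convert H.dart_card_eq_twice_card_edges
  rw [ncard_eq_toFinset_card', ← SimpleGraph.edgeFinset, Fintype.card_prod, Fintype.card_bool, h1]
  ring

/-- From an abstract embedding to a drawing without crossings. -/
theorem drawing_of_em {W : Finset Y} {R : Y → Y → Prop} (h : Em S W R) (ES : Finset (Sym2 Y))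
    (hE : ∀ e ∈ ES, ∃ a ∈ W, ∃ b ∈ W, e = s(a, b) ∧ a ≠ b ∧ R a b) :
    ∃ (G' : SimpleGraph (Fin W.card)) (D' : Drawing G' S), (∀ e f, e ≠ f → ¬ D'.Meet e f) ∧
      ES.card ≤ G'.edgeSet.ncard := by
  classical
  set r : Fin W.card → Y := fun i => (W.equivFin.symm i : Y) with hr
  have hinj : Injective r := Subtype.val_injective.comp W.equivFin.symm.injective
  have hmem : ∀ i, r i ∈ W := fun i => (W.equivFin.symm i).2
  have hsurj : ∀ a ∈ W, ∃ i, r i = a := fun a ha => ⟨W.equivFin ⟨a, ha⟩, by simp [hr]⟩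
  set G' : SimpleGraph (Fin W.card) := SimpleGraph.fromRel fun i j => R (r i) (r j) with hG
  have hc : ∀ e : G'.edgeSet, ∃ c : Bool → Fin W.card, (e : Sym2 _) = s(c false, c true) := by
    rintro ⟨e, he⟩
    induction e using Sym2.ind with
    | _ i j => exact ⟨fun b => if b then j else i, rfl⟩
  choose c hc using hc
  obtain ⟨D, hD⟩ := drawing_of_emb (S := S) hinj c hc (Emb.mono h.symm_closure
    (fun a ha => by
      obtain ⟨i, -, rfl⟩ := Finset.mem_image.1 ha
      exact hmem i) (by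
      rintro _ - _ - - ⟨e, rfl, rfl⟩
      have h1 : s(c e false, c e true) ∈ G'.edgeSet := hc e ▸ e.2
      have h2 : G'.Adj (c e false) (c e true) := h1
      rw [hG, SimpleGraph.fromRel_adj] at h2
      exact h2.2))
  refine ⟨G', D, hD, ?_⟩
  rw [← ncard_coe_finset]
  refine (ncard_le_ncard (t := Sym2.map r '' G'.edgeSet) fun e he => ?_).trans ncard_image_le
  obtain ⟨a, ha, b, hb, rfl, hab, h1⟩ := hE e he
  obtain ⟨i, rfl⟩ := hsurj a ha
  obtain ⟨j, rfl⟩ := hsurj b hb
  have h2 : G'.Adj i j := by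
    rw [hG, SimpleGraph.fromRel_adj]
    exact ⟨fun e => hab (by rw [e]), Or.inl h1⟩
  exact ⟨s(i, j), h2, rfl⟩

variable {G : SimpleGraph V} {root : V → X} {col : X → V} {W : Finset X} {H : SimpleGraph X}
variable [Fintype H.Dart] [Fintype X] [Fintype V]
variable {M : RM S H W} {δ : Set X → X → ℕ} {Rch : Set X → X → Prop}

theorem Fx.count [DecidableEq (H.Dart × Bool)] (F : Fx M G root col δ Rch) (hroot : Injective root)
    (hW : ∀ v, root v ∈ W) (hne : ∀ x ∈ W, ∃ y, H.Adj x y) {fc : H.Dart × Bool → H.Dart × Bool}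
    (hfc : ∀ φ ψ, fc φ = fc ψ ↔ M.Fc φ ψ) :
    G.edgeSet.ncard + 3 * W.card + 3 * (Finset.univ.image fc).card ≤
      3 * H.edgeSet.ncard + 3 * Fintype.card V := by
  classical
  set QS := W.filter (IsQ H root) with hQS
  have h1 : ∑ φ, take M root col δ φ + 24 * (Finset.univ.image fc).card ≤
      16 * H.edgeSet.ncard := by
    have e1 := Finset.sum_fiberwise_of_maps_to (s := Finset.univ) (t := Finset.univ.image fc)
      (g := fc) (fun φ h => Finset.mem_image_of_mem fc h) (take M root col δ)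
    have e2 := Finset.card_eq_sum_card_image fc Finset.univ
    have e3 : ∑ r ∈ Finset.univ.image fc,
        (∑ φ ∈ Finset.univ with fc φ = r, take M root col δ φ + 24) ≤
        ∑ r ∈ Finset.univ.image fc, 4 * (Finset.univ.filter fun φ => fc φ = r).card := by
      refine Finset.sum_le_sum fun r hr => ?_
      obtain ⟨φ, -, rfl⟩ := Finset.mem_image.1 hr
      exact F.face_sum (φ := φ) fun ψ => by rw [← hfc, Finset.mem_filter_univ, eq_comm]
    rw [Finset.sum_add_distrib, e1, ← Finset.mul_sum, ← e2, Finset.card_univ, card_flags,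
      Finset.sum_const, smul_eq_mul] at e3
    omega
  have h2 : 8 * QS.card ≤ ∑ φ, take M root col δ φ := by
    rw [← Finset.sum_fiberwise Finset.univ (fun φ : H.Dart × Bool => φ.1.fst)]
    refine le_trans ?_ (Finset.sum_le_sum_of_subset (Finset.subset_univ QS))
    rw [mul_comm, ← smul_eq_mul]
    refine Finset.card_nsmul_le_sum _ _ _ fun x hx => ?_
    obtain ⟨hx1, hx2⟩ := Finset.mem_filter.1 hx
    obtain ⟨y, hy⟩ := hne x hx1
    have e1 := F.host_sum (φ := (⟨(x, y), hy⟩, true)) hx2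
    have e2 := dih_sum_ge M.inv1 a2_inv M.a1_ne a2_ne (l := 4) (φ := (⟨(x, y), hy⟩, true))
      (fun k h3 h4 h5 => by
        have := M.deg_le h3 h5
        have := hx2.2
        simp only at *
        omega) (O := Finset.univ.filter fun φ : H.Dart × Bool => φ.1.fst = x) (by simp)
      (fun ψ h => by
        rw [Finset.mem_filter_univ] at h ⊢
        rw [M.a1_fst, h])
      (fun ψ h => by
        rw [Finset.mem_filter_univ] at h ⊢
        exact h) (take M root col δ) take_a1
    exact le_trans (by omega) (le_trans (Nat.mul_le_mul_left 2 e1) e2)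
  have hsub : Finset.univ.image root ⊆ W := fun x hx => by
    obtain ⟨v, -, rfl⟩ := Finset.mem_image.1 hx
    exact hW v
  have h3 : 2 * G.edgeSet.ncard ≤ ∑ x ∈ Finset.univ.image root, (nb H x).card := by
    rw [Finset.sum_image hroot.injOn, ← sum_nb]
    exact Finset.sum_le_sum fun v _ => F.rootdeg v
  have h4 : (W \ Finset.univ.image root).card * 6 ≤
      ∑ x ∈ W \ Finset.univ.image root, (nb H x).card + 2 * QS.card := by
    have e1 : (W \ Finset.univ.image root).card • 6 ≤ ∑ x ∈ W \ Finset.univ.image root,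
        ((nb H x).card + 2 * if IsQ H root x then 1 else 0) := by
      refine Finset.card_nsmul_le_sum _ _ _ fun x hx => ?_
      obtain ⟨hx1, hx2⟩ := Finset.mem_sdiff.1 hx
      have hx3 : x ∉ range root := fun ⟨v, hv⟩ => hx2 (Finset.mem_image.2 ⟨v, by simp, hv⟩)
      obtain ⟨y, hy⟩ := hne x hx1
      have e2 : 4 ≤ (nb H x).card := F.four_le (⟨(x, y), hy⟩, true)
      obtain ⟨k, hk⟩ := F.even_deg hx3
      split_ifs with h
      · omega
      · have : (nb H x).card ≠ 4 := fun e => h ⟨hx3, e⟩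
        omega
    rw [Finset.sum_add_distrib, ← Finset.mul_sum, smul_eq_mul] at e1
    have e2 : ∑ x ∈ W \ Finset.univ.image root, (if IsQ H root x then 1 else 0) ≤ QS.card := by
      rw [hQS, Finset.card_filter]
      exact Finset.sum_le_sum_of_subset Finset.sdiff_subset
    omega
  have h5 := Finset.sum_sdiff (f := fun x => (nb H x).card) hsub
  have h6 : ∑ x ∈ W, (nb H x).card ≤ 2 * H.edgeSet.ncard :=
    sum_nb H ▸ Finset.sum_le_sum_of_subset (Finset.subset_univ W)
  have h7 := Finset.card_sdiff_add_card_eq_card hsub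
  rw [Finset.card_image_of_injective _ hroot, Finset.card_univ] at h7
  omega

omit [Fintype V] in
/-- The triangulation by sides and faces. -/
theorem RM.tri_graph [T2Space S] [Nonempty S] [DecidableEq (H.Dart × Bool)] (hS : HD S)
    (M : RM S H W) (hW : ∀ x y, H.Adj x y → x ∈ W) (h2 : ∀ φ, M.ρ^[2] φ ≠ φ)
    {fc : H.Dart × Bool → H.Dart × Bool} (hfc : ∀ φ ψ, fc φ = fc ψ ↔ M.Fc φ ψ) :
    ∃ (n' : ℕ) (G' : SimpleGraph (Fin n')) (D' : Drawing G' S), (∀ e f, e ≠ f → ¬ D'.Meet e f) ∧
      W.card ≤ n' ∧ 3 * H.edgeSet.ncard + 3 * n' ≤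
        G'.edgeSet.ncard + 3 * W.card + 3 * (Finset.univ.image fc).card := by
  classical
  obtain ⟨sd, hsd, hsd'⟩ : ∃ sd : H.Dart × Bool → H.Dart × Bool,
      (∀ φ ψ, sd φ = sd ψ ↔ (ψ = φ ∨ ψ = M.a0 φ)) ∧ ∀ φ, φ = sd φ ∨ φ = M.a0 (sd φ) := by
    let s : Setoid (H.Dart × Bool) := ⟨fun φ ψ => ψ = φ ∨ ψ = M.a0 φ, fun _ => Or.inl rfl, by
      rintro _ _ (rfl | rfl)
      · exact Or.inl rfl
      · exact Or.inr (M.inv0 _).symm, by
      rintro _ _ _ (rfl | rfl) (rfl | rfl)
      · exact Or.inl rfl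
      · exact Or.inr rfl
      · exact Or.inr rfl
      · exact Or.inl (M.inv0 _)⟩
    exact ⟨fun φ => (Quotient.mk s φ).out, fun φ ψ =>
      Quotient.out_injective.eq_iff.trans Quotient.eq, fun φ => Quotient.mk_out (s := s) φ⟩
  obtain ⟨f, f0, f1, f2⟩ : ∃ f : X ⊕ (H.Dart × Bool) × Bool → X ⊕ (H.Dart × Bool) × Bool,
      (∀ x, f (.inl x) = .inl x) ∧ (∀ φ, f (.inr (φ, false)) = .inr (sd φ, false)) ∧
      ∀ φ, f (.inr (φ, true)) = .inr (fc φ, true) :=
    ⟨Sum.map id fun p => (if p.2 then fc p.1 else sd p.1, p.2), fun _ => rfl, fun _ => rfl,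
      fun _ => rfl⟩
  set W₅ := W.disjSum (Finset.univ : Finset ((H.Dart × Bool) × Bool)) with hW₅
  have m1 : ∀ p, Sum.inr p ∈ W₅ := fun p => by simp [hW₅]
  have m0 : ∀ x ∈ W, Sum.inl x ∈ W₅ := fun x hx => by simp [hW₅, hx]
  have hem := em_of_emb (emb_minor hS f _ W₅ _ rfl M.em5 (by
    rintro (a | ⟨φ, _ | _⟩) - (b | ⟨ψ, _ | _⟩) - hab <;>
      simp only [f0, f1, f2, Sum.inl.injEq, Sum.inr.injEq, Prod.mk.injEq, reduceCtorEq, and_true,
        and_false] at hab
    · rw [hab]
      exact .refl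
    · rcases (hsd φ ψ).1 hab with rfl | rfl
      · exact .refl
      · exact .single ⟨Or.inl (.r0 φ false), ⟨m1 _, rfl⟩, m1 _, by rw [f1, f1, hab]⟩
    · have h3 := (hfc φ ψ).1 hab
      clear hab
      induction h3 with
      | refl => exact .refl
      | @tail χ₁ χ₂ h3 h4 ih =>
        refine .tail ih ⟨Or.inl ?_, ⟨m1 _, by rw [f2, f2, (hfc _ _).2 h3]⟩, m1 _,
          by rw [f2, f2, (hfc _ _).2 (h3.tail h4)]⟩
        rcases h4 with rfl | rfl
        · exact .r1 _ _
        · exact .r0 _ _))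
  set E₁ : Finset (Sym2 (X ⊕ (H.Dart × Bool) × Bool)) :=
    H.edgeSet.toFinset.image (Sym2.map Sum.inl) with hE₁
  set E₂ : Finset (Sym2 (X ⊕ (H.Dart × Bool) × Bool)) :=
    Finset.univ.image fun φ : H.Dart × Bool => s(.inr (sd φ, false), .inl φ.1.fst) with hE₂
  set E₃ : Finset (Sym2 (X ⊕ (H.Dart × Bool) × Bool)) := Finset.univ.image fun d : H.Dart =>
    s(.inr (sd (d, true), false), .inr (sd (M.a1 (d, true)), false)) with hE₃
  set E₄ : Finset (Sym2 (X ⊕ (H.Dart × Bool) × Bool)) := (Finset.univ.image sd).image fun χ =>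
    s(.inr (χ, false), .inr (fc χ, true)) with hE₄
  have hs1 : ∀ φ, sd φ ≠ sd (M.a1 φ) := by
    intro φ h
    rcases (hsd _ _).1 h with h3 | h3
    · exact M.a1_ne φ h3
    · exact φ.1.adj.ne ((M.a1_fst φ).symm.trans (h3 ▸ M.a0_vx φ))
  have hss : ∀ φ, fc (sd φ) = fc φ := by
    intro φ
    rcases hsd' φ with h | h
    · rw [← h]
    · exact (hfc _ _).2 (.single (Or.inr h))
  obtain ⟨G', D', hD, hE⟩ := drawing_of_em hem (E₁ ∪ E₂ ∪ E₃ ∪ E₄) (by
    have key : ∀ a ∈ W₅, ∀ b ∈ W₅, T5 M.a0 M.a1 a b → f a ≠ f b →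
        ∃ u ∈ W₅.image f, ∃ v ∈ W₅.image f, s(f a, f b) = s(u, v) ∧ u ≠ v ∧
          ∃ a ∈ W₅, ∃ b ∈ W₅, (T5 M.a0 M.a1 a b ∨ T5 M.a0 M.a1 b a) ∧ f a = u ∧ f b = v :=
      fun a ha b hb h3 h4 => ⟨_, Finset.mem_image_of_mem f ha, _, Finset.mem_image_of_mem f hb,
        rfl, h4, a, ha, b, hb, Or.inl h3, rfl, rfl⟩
    intro e he
    simp only [Finset.mem_union] at he
    rcases he with ((he | he) | he) | he
    · obtain ⟨e, he', rfl⟩ := Finset.mem_image.1 he
      rw [Set.mem_toFinset] at he'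
      induction e using Sym2.ind with
      | _ x y =>
        have h3 : H.Adj x y := he'
        simpa only [f0, Sym2.map_mk] using key _ (m0 x (hW _ _ h3)) _ (m0 y (hW _ _ h3.symm))
          (.edge h3) (by simp [f0, h3.ne])
    · obtain ⟨φ, -, rfl⟩ := Finset.mem_image.1 he
      simpa only [f0, f1] using key _ (m1 _) _ (m0 _ (hW _ _ φ.1.adj)) (.hub φ) (by simp [f0, f1])
    · obtain ⟨d, -, rfl⟩ := Finset.mem_image.1 he
      simpa only [f1] using key _ (m1 _) _ (m1 _) (.r1 (d, true) false) (by simp [f1, hs1])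
    · obtain ⟨χ, hχ, rfl⟩ := Finset.mem_image.1 he
      obtain ⟨φ, -, rfl⟩ := Finset.mem_image.1 hχ
      simpa only [f1, f2, hss φ] using key _ (m1 _) _ (m1 _) (.up φ) (by simp [f1, f2]))
  have c0 := card_flags H
  have c1 : E₁.card = H.edgeSet.ncard := by
    rw [hE₁, Finset.card_image_of_injective _ (Sym2.map.injective Sum.inl_injective),
      ncard_eq_toFinset_card']
  have c2 : E₂.card = 4 * H.edgeSet.ncard := by
    rw [hE₂, Finset.card_image_of_injective, Finset.card_univ, c0]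
    intro φ ψ h
    simp only [Sym2.eq_iff, Sum.inr.injEq, Prod.mk.injEq, and_true, Sum.inl.injEq, reduceCtorEq,
      and_self, or_false] at h
    rcases (hsd _ _).1 h.1 with h3 | h3
    · exact h3.symm
    · exact absurd (h.2.trans (h3 ▸ M.a0_vx φ)) φ.1.adj.ne
  have c3 : E₃.card = 2 * H.edgeSet.ncard := by
    rw [Fintype.card_prod, Fintype.card_bool] at c0
    rw [hE₃, Finset.card_image_of_injective, Finset.card_univ]
    · omega
    have key : ∀ φ ψ, sd φ = sd ψ → sd (M.a1 φ) = sd (M.a1 ψ) → ψ = φ := by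
      intro φ ψ h3 h4
      rcases (hsd _ _).1 h3 with h5 | rfl
      · exact h5
      rcases (hsd _ _).1 h4 with h5 | h5
      · exact M.inv1.injective h5
      · exact absurd (show M.a1 (M.a0 (M.a1 (M.a0 φ))) = φ by rw [h5, M.inv0, M.inv1]) (h2 φ)
    intro d d' h
    simp only [Sym2.eq_iff, Sum.inr.injEq, Prod.mk.injEq, and_true] at h
    rcases h with h | h
    · exact (Prod.mk.inj (key _ _ h.1 h.2)).1.symm
    · have h3 := key _ _ h.1 (by rw [M.inv1]; exact h.2)
      have h4 := M.a1_snd (d', true)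
      rw [h3] at h4
      simp at h4
  have c4 : E₄.card = (Finset.univ.image sd).card := by
    rw [hE₄, Finset.card_image_of_injective]
    intro φ ψ h
    simp only [Sym2.eq_iff, Sum.inr.injEq, Prod.mk.injEq, and_true, reduceCtorEq, and_false,
      and_self, or_false] at h
    exact h.1
  have c5 : 2 * (Finset.univ.image sd).card ≤ 4 * H.edgeSet.ncard := by
    rw [← c0, ← Finset.card_univ]
    refine Finset.mul_card_image_le_card _ 2 fun b hb => ?_
    obtain ⟨φ, -, rfl⟩ := Finset.mem_image.1 hb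
    exact Finset.one_lt_card.2 ⟨φ, by simp, M.a0 φ,
      Finset.mem_filter_univ _ |>.2 ((hsd _ _).2 (Or.inr rfl)).symm, (M.a0_ne φ).symm⟩
  obtain ⟨κ, k1, k2, k3, k4⟩ : ∃ κ : Sym2 (X ⊕ (H.Dart × Bool) × Bool) → ℕ,
      (∀ e ∈ E₁, κ e = 0) ∧ (∀ e ∈ E₂, κ e = 1) ∧ (∀ e ∈ E₃, κ e = 2) ∧ ∀ e ∈ E₄, κ e = 4 := by
    let w : X ⊕ (H.Dart × Bool) × Bool → ℕ := Sum.elim (fun _ => 0) fun p => if p.2 then 3 else 1
    refine ⟨Sym2.lift ⟨fun a b => w a + w b, fun a b => add_comm _ _⟩, ?_, ?_, ?_, ?_⟩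
    · intro e he
      obtain ⟨e, -, rfl⟩ := Finset.mem_image.1 he
      induction e using Sym2.ind with
      | _ x y => rfl
    all_goals
      intro e he
      obtain ⟨e, -, rfl⟩ := Finset.mem_image.1 he
      rfl
  have c6 : (E₁ ∪ E₂ ∪ E₃ ∪ E₄).card = E₁.card + E₂.card + E₃.card + E₄.card := by
    rw [Finset.card_union_of_disjoint, Finset.card_union_of_disjoint,
      Finset.card_union_of_disjoint]
    all_goals
      refine Finset.disjoint_left.2 fun e h3 h4 => ?_
      try simp only [Finset.mem_union] at h3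
    · have := k1 e h3
      have := k2 e h4
      omega
    · have := k3 e h4
      rcases h3 with h3 | h3
      · have := k1 e h3
        omega
      · have := k2 e h3
        omega
    · have := k4 e h4
      rcases h3 with (h3 | h3) | h3
      · have := k1 e h3
        omega
      · have := k2 e h3
        omega
      · have := k3 e h3
        omega
  have c7 : (W₅.image f).card ≤
      W.card + (Finset.univ.image sd).card + (Finset.univ.image fc).card := by
    refine le_trans (Finset.card_le_card (t := W.image Sum.inl ∪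
      (Finset.univ.image sd).image (fun χ => Sum.inr (χ, false)) ∪
      (Finset.univ.image fc).image (fun χ => Sum.inr (χ, true))) ?_)
      ((Finset.card_union_le _ _).trans (add_le_add ((Finset.card_union_le _ _).trans
        (add_le_add Finset.card_image_le Finset.card_image_le)) Finset.card_image_le))
    intro u hu
    obtain ⟨a, ha, rfl⟩ := Finset.mem_image.1 hu
    rcases a with a | ⟨φ, _ | _⟩
    · exact Finset.mem_union_left _ (Finset.mem_union_left _
        ((f0 a).symm ▸ Finset.mem_image_of_mem _ (Finset.inl_mem_disjSum.1 ha)))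
    · exact Finset.mem_union_left _ (Finset.mem_union_right _
        ((f1 φ).symm ▸ Finset.mem_image_of_mem _ (Finset.mem_image_of_mem _ (Finset.mem_univ φ))))
    · exact Finset.mem_union_right _
        ((f2 φ).symm ▸ Finset.mem_image_of_mem _ (Finset.mem_image_of_mem _ (Finset.mem_univ φ)))
  have c8 : W.card ≤ (W₅.image f).card :=
    Finset.card_le_card_of_injOn Sum.inl (fun x hx =>
      Finset.mem_coe.2 (Finset.mem_image.2 ⟨_, m0 x hx, f0 x⟩)) Sum.inl_injective.injOn
  exact ⟨_, G', D', hD, c8, by omega⟩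

end Pool.Agent.Lib.EU59
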