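import Mathlib
import Pool.Agent.Lib.EU59.Count

set_option autoImplicit false

open Set Function

namespace Pool.Agent.Lib.EU59

open Pool.Agent.Lib.MP_15a8b6_co

universe u

variable {S : Type*} [TopologicalSpace S] {X : Type*}

/-- An embedded graph that is at least as dense as a graph with `m` edges and `n` vertices. -/
def Wit (S : Type*) [TopologicalSpace S] (m n : ℕ) : Prop :=
  ∃ (n' : ℕ) (G' : SimpleGraph (Fin n')) (D' : Drawing G' S), (∀ e f, e ≠ f → ¬ D'.Meet e f) ∧
    3 ≤ n' ∧ m + 3 * n' ≤ G'.edgeSet.ncard + 3 * n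

theorem Wit.mono {m n m₁ n₁ : ℕ} (h : Wit S m n) (h1 : m₁ + 3 * n ≤ m + 3 * n₁) : Wit S m₁ n₁ := by
  obtain ⟨n', G', D', h2, h3, h4⟩ := h
  exact ⟨n', G', D', h2, h3, by omega⟩

theorem wit_triangle [T2Space S] [Nonempty S] [ChartedSpace E2 S] : Wit S 3 3 := by
  classical
  obtain ⟨K, U, hK, -, -⟩ := exists_cdisc (p := Classical.arbitrary S) isOpen_univ (mem_univ _)
  obtain ⟨W, hW, hc⟩ := hK.inf.exists_subset_card_eq 3
  obtain ⟨B, θ, sg, hB, hch, h1⟩ := hK.ch W W.finite_toSet
  have hWB : ∀ q ∈ W, q ∈ B := fun q hq => by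
    obtain ⟨O, -, h2, h3⟩ := h1 q hq (hW hq).1 (hW hq).2 1 one_pos
    exact (h3 q h2 (hW hq).1 (hW hq).2).1
  have h4 : ∀ p ∈ W, ∀ r ∈ W, ∀ q ∈ W, ∀ t ∈ W, ¬ (θ p < θ r ∧ θ r < θ q ∧ θ q < θ t) := by
    rintro p hp r hr q hq t ht ⟨a1, a2, a3⟩
    have e1 : ({θ p, θ r, θ q, θ t} : Finset ℝ) ⊆ W.image θ := by
      intro x hx
      simp only [Finset.mem_insert, Finset.mem_singleton] at hx
      rcases hx with rfl | rfl | rfl | rfl <;> exact Finset.mem_image_of_mem θ ‹_›
    have e2 := (Finset.card_le_card e1).trans Finset.card_image_le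
    rw [Finset.card_insert_of_notMem (by simp [a1.ne, (a1.trans a2).ne, (a1.trans (a2.trans a3)).ne]),
      Finset.card_insert_of_notMem (by simp [a2.ne, (a2.trans a3).ne]),
      Finset.card_pair a3.ne] at e2
    omega
  have hne : ∀ {a b : S}, θ a < θ b → a ≠ b := fun h e => h.ne (by rw [e])
  have hem : Em S W fun a b => θ a < θ b := by
    refine em_of_arcs id sg (injOn_id _)
      (fun a ha b hb h => hch.arc a (hWB a ha) b (hWB b hb) (hne h)) ?_ ?_
    · intro a ha b hb h w hw h2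
      rcases hch.sub a (hWB a ha) b (hWB b hb) (hne h) h2 with h3 | h3
      · exact absurd h3 (hW hw).2
      · exact h3
    · intro a ha b hb h c hc' d hd h' hn p hp
      rcases hch.cross a (hWB a ha) b (hWB b hb) c (hWB c hc') d (hWB d hd) h h' hn
        (h4 a ha c hc' b hb d hd) (h4 c hc' a ha d hd b hb) hp with rfl | rfl
      · exact ⟨_, ha, rfl⟩
      · exact ⟨_, hb, rfl⟩
  obtain ⟨G', D', h2, h3⟩ := drawing_of_em hem.symm_closure (W.offDiag.image Sym2.mk.uncurry) (by
    intro e he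
    obtain ⟨⟨a, b⟩, h5, rfl⟩ := Finset.mem_image.1 he
    obtain ⟨ha, hb, hab⟩ := Finset.mem_offDiag.1 h5
    exact ⟨a, ha, b, hb, rfl, hab,
      lt_or_gt_of_ne fun e => hab (hch.inj (hWB a ha) (hWB b hb) e)⟩)
  rw [Sym2.card_image_offDiag] at h3
  exact ⟨_, G', D', h2, hc.ge, by
    have : W.card.choose 2 = 3 := by rw [hc]; rfl
    omega⟩

theorem KS.core [T2Space S] [Nonempty S] [ChartedSpace E2 S] [Fintype X] {V : Type*} [Fintype V]
    {G : SimpleGraph V} {root : V → X} {col : X → V} {W : Finset X} {H : SimpleGraph X}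
    (h : KS S G root col W H) (hcol : ∀ v, col (root v) = v) (hG : ∀ v, 4 ≤ (nb G v).card)
    (h3 : 3 ≤ Fintype.card V) : Wit S G.edgeSet.ncard (Fintype.card V) := by
  classical
  have hS : HD S := fun _ _ hO hp => exists_disc (E := E2) hO hp
  have hroot : Injective root := LeftInverse.injective hcol
  obtain ⟨W, H, h⟩ := h.exists_min
  have hne := h.nbr (fun v => by
    obtain ⟨w, hw⟩ := Finset.card_pos.1 (lt_of_lt_of_le (by norm_num) (hG v))
    exact ⟨w, mem_nb.1 hw⟩) hroot
  obtain ⟨M⟩ := exists_rm H h.sub hne h.em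
  obtain ⟨δ, Rch, F⟩ := h.exists_fx hS hcol M hG
  obtain ⟨fc, hfc⟩ : ∃ fc : H.Dart × Bool → H.Dart × Bool, ∀ φ ψ, fc φ = fc ψ ↔ M.Fc φ ψ := by
    let s : Setoid (H.Dart × Bool) := ⟨M.Fc, fun _ => .refl, RM.Fc.symm, fun a b => a.trans b⟩
    exact ⟨fun φ => (Quotient.mk s φ).out, fun φ ψ =>
      Quotient.out_injective.eq_iff.trans Quotient.eq⟩
  have h1 := F.count hroot h.mem hne hfc
  obtain ⟨n', G', D', h4, h5, h6⟩ := M.tri_graph hS h.sub
    (fun φ => F.ρ_ne φ 2 (by norm_num) (by norm_num)) hfc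
  have h7 : Fintype.card V ≤ W.card :=
    Finset.card_le_card_of_injOn root (fun v _ => h.mem v) hroot.injOn
  exact ⟨n', G', D', h4, by omega, by omega⟩

theorem KS.wit [T2Space S] [Nonempty S] [ChartedSpace E2 S] [Fintype X] {W : Finset X}
    {H : SimpleGraph X} (N : ℕ) (hN : 3 ≤ N) : ∀ (V : Type u) [Fintype V] (G : SimpleGraph V)
      (root : V → X) (col : X → V), KS S G root col W H → (∀ a b, G.Adj a b → col (root a) = a) →
      Fintype.card V ≤ N → Wit S G.edgeSet.ncard N := by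
  classical
  induction N, hN using Nat.le_induction with
  | base =>
    intro V _ G root col _ _ hV
    have h1 := G.card_edgeFinset_le_card_choose_two.trans (Nat.choose_le_choose 2 hV)
    refine wit_triangle.mono ?_
    rw [ncard_eq_toFinset_card', ← SimpleGraph.edgeFinset]
    have : Nat.choose 3 2 = 3 := rfl
    omega
  | succ N hN ih =>
    intro V _ G root col h hcol hV
    by_cases h1 : Fintype.card V ≤ N
    · exact (ih V G root col h hcol h1).mono (by omega)
    by_cases h2 : ∀ v, 4 ≤ (nb G v).card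
    · refine (h.core (fun v => ?_) h2 (by omega)).mono (by omega)
      obtain ⟨w, hw⟩ := Finset.card_pos.1 (lt_of_lt_of_le (by norm_num) (h2 v))
      exact hcol v w (mem_nb.1 hw)
    push Not at h2
    obtain ⟨v, hv⟩ := h2
    obtain ⟨w₀, hw₀⟩ := Fintype.exists_ne_of_one_lt_card (by omega : 1 < Fintype.card V) v
    obtain ⟨col', hc'⟩ : ∃ col' : X → {w // w ≠ v}, ∀ x (a : {w // w ≠ v}), col x = a →
        col' x = a :=
      ⟨fun x => if h : col x = v then ⟨w₀, hw₀⟩ else ⟨col x, h⟩, fun x a ha => by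
        simp only [dif_neg (ha ▸ a.2 : ¬ col x = v)]
        exact Subtype.ext ha⟩
    have h3 := ih {w // w ≠ v} (G.comap Subtype.val) (fun a => root a) col'
      ⟨h.sub, fun a => h.mem a, h.em, fun a b hab => (h.conn a b hab).mono fun x hx =>
        hx.imp (hc' x a) (hc' x b)⟩ (fun a b hab => hc' _ _ (hcol a b hab)) (by
        rw [Fintype.card_subtype_compl, Fintype.card_subtype_eq]
        omega)
    have h4 : G.edgeSet.ncard ≤
        (G.comap (Subtype.val : {w // w ≠ v} → V)).edgeSet.ncard + (nb G v).card := by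
      refine le_trans (ncard_le_ncard (t := Sym2.map Subtype.val ''
        (G.comap (Subtype.val : {w // w ≠ v} → V)).edgeSet ∪ (fun w => s(v, w)) '' (nb G v)) ?_)
        ((ncard_union_le _ _).trans (add_le_add ncard_image_le
          (le_trans ncard_image_le (ncard_coe_finset _).le)))
      intro e he
      induction e using Sym2.ind with
      | _ a b =>
        have hab : G.Adj a b := he
        by_cases ha : a = v
        · exact Or.inr ⟨b, mem_nb.2 (ha ▸ hab), by rw [ha]⟩
        by_cases hb : b = v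
        · exact Or.inr ⟨a, mem_nb.2 (hb ▸ hab.symm), by rw [hb]; exact Sym2.eq_swap⟩
        exact Or.inl ⟨s(⟨a, ha⟩, ⟨b, hb⟩), hab, rfl⟩
    exact h3.mono (by omega)

end Pool.Agent.Lib.EU59
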