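import Mathlib
import Pool.Agent.Lib.EU59.Core

set_option autoImplicit false

open Set Function

namespace Pool.Agent.Lib.EU59

open Pool.Agent.Lib.MP_15a8b6_co

variable {S : Type*} [TopologicalSpace S] {V X : Type*}

/-- Pairwise meeting pairs without a common element form a triangle. -/
theorem sym2_triangle [Nonempty V] (L : Set (Sym2 V))
    (h : ∀ e ∈ L, ∀ f ∈ L, ∃ v, v ∈ e ∧ v ∈ f) (hn : ¬ ∃ v, ∀ e ∈ L, v ∈ e) :
    ∃ p q r, ∀ e ∈ L, e = p ∨ e = q ∨ e = r := by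
  push Not at hn
  obtain ⟨e, he, -⟩ := hn (Classical.arbitrary V)
  induction e using Sym2.ind with
  | _ a b =>
    obtain ⟨f, hf, ha⟩ := hn a
    obtain ⟨g, hg, hb⟩ := hn b
    obtain ⟨c, hc1, hc2⟩ := h f hf g hg
    have h1 : b ∈ f := by
      obtain ⟨v, h1, h2⟩ := h _ he f hf
      rcases Sym2.mem_iff.1 h1 with rfl | rfl
      · exact absurd h2 ha
      · exact h2
    have h2 : a ∈ g := by
      obtain ⟨v, h1, h2⟩ := h _ he g hg
      rcases Sym2.mem_iff.1 h1 with rfl | rfl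
      · exact h2
      · exact absurd h2 hb
    have hab : a ≠ b := fun e => ha (e ▸ h1)
    have hbc : b ≠ c := fun e => hb (e ▸ hc2)
    have hac : a ≠ c := fun e => ha (e ▸ hc1)
    obtain rfl := (Sym2.mem_and_mem_iff hbc).1 ⟨h1, hc1⟩
    obtain rfl := (Sym2.mem_and_mem_iff hac).1 ⟨h2, hc2⟩
    refine ⟨s(a, b), s(b, c), s(a, c), fun k hk => ?_⟩
    obtain ⟨x, x1, x2⟩ := h _ he k hk
    obtain ⟨y, y1, y2⟩ := h _ hf k hk
    obtain ⟨z, z1, z2⟩ := h _ hg k hk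
    rw [← Sym2.mem_and_mem_iff hab, ← Sym2.mem_and_mem_iff hbc,
      ← Sym2.mem_and_mem_iff hac]
    rcases Sym2.mem_iff.1 x1 with rfl | rfl <;> rcases Sym2.mem_iff.1 y1 with rfl | rfl <;>
      rcases Sym2.mem_iff.1 z1 with rfl | rfl <;> simp [*]

variable {W : Finset X} {H : SimpleGraph X} [Fintype H.Dart]

/-- The flag graph. -/
def RM.flag (M : RM S H W) : SimpleGraph (H.Dart × Bool) where
  Adj φ ψ := ψ = M.a0 φ ∨ ψ = M.a1 φ ∨ ψ = a2 φ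
  symm := ⟨by
    rintro φ _ (rfl | rfl | rfl)
    · exact Or.inl (M.inv0 φ).symm
    · exact Or.inr (Or.inl (M.inv1 φ).symm)
    · exact Or.inr (Or.inr (a2_inv φ).symm)⟩
  loopless := ⟨by
    rintro φ (h | h | h)
    · exact M.a0_ne φ h.symm
    · exact M.a1_ne φ h.symm
    · exact a2_ne φ h.symm⟩

theorem RM.chain (M : RM S H W) (φ : H.Dart × Bool) (T : Set H.Dart) {i j : ℕ} (hij : i ≤ j)
    (h : ∀ l, i ≤ l → l ≤ j → (M.σ^[l] φ).1 ∈ T) :
    ConnIn M.flag.Adj {χ | χ.1 ∈ T} (M.σ^[i] φ) (M.σ^[j] φ) := by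
  induction j, hij using Nat.le_induction with
  | base => exact .refl
  | succ j hij ih =>
    have h1 := h j hij (by omega)
    have h2 := h (j + 1) (by omega) le_rfl
    refine ((ih fun l a b => h l a (by omega)).tail (c := a2 (M.σ^[j] φ))
      ⟨Or.inr (Or.inr rfl), h1, h1⟩).tail ⟨Or.inr (Or.inl ?_), h1, h2⟩
    rw [iterate_succ_apply']
    rfl

theorem RM.conn_at [Fintype X] (M : RM S H W) (φ₀ : H.Dart × Bool) (T : Set H.Dart)
    (h : ∀ i j, i ≤ j → j < (nb H φ₀.1.fst).card → (M.σ^[i] φ₀).1 ∈ T → (M.σ^[j] φ₀).1 ∈ T →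
      ConnIn M.flag.Adj {χ | χ.1 ∈ T} (M.σ^[i] φ₀) (M.σ^[j] φ₀))
    {φ ψ : H.Dart × Bool} (h1 : φ.1.fst = φ₀.1.fst) (h2 : ψ.1.fst = φ₀.1.fst) (h3 : φ.1 ∈ T)
    (h4 : ψ.1 ∈ T) : ConnIn M.flag.Adj {χ | χ.1 ∈ T} φ ψ := by
  have hs : ∀ a b, M.flag.Adj a b → M.flag.Adj b a := fun _ _ h => h.symm
  have key : ∀ χ : H.Dart × Bool, χ.1.fst = φ₀.1.fst → χ.1 ∈ T →
      ∃ i < (nb H φ₀.1.fst).card, (M.σ^[i] φ₀).1 ∈ T ∧
        ConnIn M.flag.Adj {χ | χ.1 ∈ T} (M.σ^[i] φ₀) χ := by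
    intro χ e1 e2
    obtain ⟨i, hi, e3⟩ := M.nbr_mem (Finset.card_pos.2 ⟨_, mem_nb.2 φ₀.1.adj⟩) (M.σ_deg φ₀)
      (e1 ▸ χ.1.adj)
    have e4 : (M.σ^[i] φ₀).1 = χ.1 :=
      SimpleGraph.Dart.ext _ _ (Prod.ext (by rw [M.σ_vx, e1]) e3)
    refine ⟨i, hi, e4 ▸ e2, ?_⟩
    by_cases e5 : (M.σ^[i] φ₀).2 = χ.2
    · rw [Prod.ext e4 e5]
      exact .refl
    · refine .single ⟨Or.inr (Or.inr (Prod.ext e4.symm ?_)), (e4 ▸ e2 : (M.σ^[i] φ₀).1 ∈ T), e2⟩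
      exact Bool.eq_not_iff.2 (Ne.symm e5)
  obtain ⟨i, hi, a1, b1⟩ := key φ h1 h3
  obtain ⟨j, hj, a2, b2⟩ := key ψ h2 h4
  rcases le_total i j with hij | hij
  · exact ((b1.symm hs).trans (h i j hij hj a1 a2)).trans b2
  · exact ((b1.symm hs).trans ((h j i hij hi a2 a1).symm hs)).trans b2

theorem RM.conn_all [Fintype X] (M : RM S H W) (T : Set H.Dart) {φ ψ : H.Dart × Bool}
    (h1 : φ.1.fst = ψ.1.fst) (hT : ∀ d : H.Dart, d.fst = ψ.1.fst → d ∈ T) :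
    ConnIn M.flag.Adj {χ | χ.1 ∈ T} φ ψ :=
  M.conn_at ψ T (fun _ _ hij _ _ _ => M.chain ψ T hij fun l _ _ => hT _ (M.σ_vx l ψ)) h1 rfl
    (hT _ h1) (hT _ rfl)

theorem RM.local_col [Fintype X] [Nonempty V] (M : RM S H W) (L : H.Dart → Sym2 V) (x : X)
    (h6 : (nb H x).card ≤ 6)
    (hL : ∀ d d' : H.Dart, d.fst = x → d'.fst = x → ∃ v, v ∈ L d ∧ v ∈ L d') :
    ∃ κ : H.Dart → V, (∀ d, d.fst = x → κ d ∈ L d) ∧ ∀ (P : Set V) (φ ψ : H.Dart × Bool),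
      φ.1.fst = x → ψ.1.fst = x → κ φ.1 ∈ P → κ ψ.1 ∈ P →
        ConnIn M.flag.Adj {χ | χ.1 ∈ {d : H.Dart | d.fst = x ∧ κ d ∈ P}} φ ψ := by
  classical
  by_cases hx : ∃ φ₀ : H.Dart × Bool, φ₀.1.fst = x
  swap
  · exact ⟨fun _ => Classical.arbitrary V, fun d hd => absurd ⟨(d, true), hd⟩ hx,
      fun _ φ _ h => absurd ⟨φ, h⟩ hx⟩
  obtain ⟨φ₀, rfl⟩ := hx
  choose c hc1 hc2 using fun g : ℕ =>
    hL (M.σ^[2 * g] φ₀).1 (M.σ^[2 * g + 1] φ₀).1 (M.σ_vx _ _) (M.σ_vx _ _)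
  have hk : 0 < (nb H φ₀.1.fst).card := Finset.card_pos.2 ⟨_, mem_nb.2 φ₀.1.adj⟩
  have hidx : ∀ d : H.Dart, ∃ i, d.fst = φ₀.1.fst →
      i < (nb H φ₀.1.fst).card ∧ (M.σ^[i] φ₀).1 = d := by
    intro d
    by_cases hd : d.fst = φ₀.1.fst
    · obtain ⟨i, hi, e⟩ := M.nbr_mem hk (M.σ_deg φ₀) (hd ▸ d.adj)
      exact ⟨i, fun _ => ⟨hi, SimpleGraph.Dart.ext _ _ (Prod.ext (by rw [M.σ_vx, hd]) e)⟩⟩
    · exact ⟨0, fun h => absurd h hd⟩
  choose idx hidx using hidx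
  have hi : ∀ i < (nb H φ₀.1.fst).card, idx (M.σ^[i] φ₀).1 = i := by
    intro i hi
    obtain ⟨e1, e2⟩ := hidx _ (M.σ_vx i φ₀)
    rcases lt_trichotomy (idx (M.σ^[i] φ₀).1) i with h | h | h
    · exact absurd (by rw [e2]) (M.σ_ne (φ := φ₀) h (by omega))
    · exact h
    · exact absurd (by rw [e2]) (M.σ_ne (φ := φ₀) h (by omega))
  refine ⟨fun d => c (idx d / 2), fun d hd => ?_, fun P φ ψ h1 h2 h3 h4 =>
    M.conn_at φ₀ _ (fun i j hij hj a1 a2 => ?_) h1 h2 ⟨h1, h3⟩ ⟨h2, h4⟩⟩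
  · obtain ⟨-, e2⟩ := hidx d hd
    rcases Nat.mod_two_eq_zero_or_one (idx d) with h | h
    · have := hc1 (idx d / 2)
      rwa [show 2 * (idx d / 2) = idx d by omega, e2] at this
    · have := hc2 (idx d / 2)
      rwa [show 2 * (idx d / 2) + 1 = idx d by omega, e2] at this
  · have b1 : c (i / 2) ∈ P := by simpa only [hi i (by omega)] using a1.2
    have b2 : c (j / 2) ∈ P := by simpa only [hi j hj] using a2.2
    have key : ∀ l < (nb H φ₀.1.fst).card, l / 2 = i / 2 ∨ l / 2 = j / 2 →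
        (M.σ^[l] φ₀).1 ∈ {d : H.Dart | d.fst = φ₀.1.fst ∧ c (idx d / 2) ∈ P} := by
      intro l hl h
      refine ⟨M.σ_vx l φ₀, ?_⟩
      rw [hi l hl]
      rcases h with h | h <;> rwa [h]
    by_cases hg : j / 2 ≤ i / 2 + 1
    · exact M.chain φ₀ _ hij fun l e1 e2 => key l (by omega) (by omega)
    · have e1 := M.chain φ₀ _ hj.le fun l e1 e2 => by
        rcases eq_or_lt_of_le e2 with rfl | e3
        · rw [M.σ_deg]
          exact key 0 hk (by omega)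
        · exact key l e3 (by omega)
      rw [M.σ_deg] at e1
      exact ConnIn.symm (fun _ _ h => h.symm) (e1.trans (M.chain φ₀ _ (Nat.zero_le i) fun l _ e2 =>
        key l (by omega) (by omega)))

/-- A labelled planarisation gives a Kempe structure on the flags. -/
theorem wit_of_lab [T2Space S] [Nonempty S] [ChartedSpace E2 S] [Fintype X] [Fintype V]
    {G : SimpleGraph V} (pos : V → X) (hpos : Injective pos) (Lab : Sym2 V → X → X → Prop)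
    (hem : Em S Finset.univ fun x y => ∃ e, Lab e x y) (hsymm : ∀ e x y, Lab e x y → Lab e y x)
    (hne : ∀ e x, ¬ Lab e x x) (huniq : ∀ e f x y, Lab e x y → Lab f x y → e = f)
    (hpath : ∀ a b, G.Adj a b → Relation.ReflTransGen (Lab s(a, b)) (pos a) (pos b))
    (hv : ∀ e v y, Lab e (pos v) y → v ∈ e)
    (hn : ∀ e f x y z, x ∉ range pos → Lab e x y → Lab f x z → ∃ v, v ∈ e ∧ v ∈ f)
    (ht : ∀ e x a b c, Lab e x a → Lab e x b → Lab e x c → a = b ∨ a = c ∨ b = c)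
    (hV : 3 ≤ Fintype.card V) : Wit S G.edgeSet.ncard (Fintype.card V) := by
  classical
  have : Nonempty V := Fintype.card_pos_iff.1 (by omega)
  by_cases hE : ∃ a b, G.Adj a b
  swap
  · have : G.edgeSet = ∅ := eq_empty_of_forall_notMem fun e he => by
      induction e using Sym2.ind with
      | _ a b => exact hE ⟨a, b, he⟩
    exact wit_triangle.mono (by rw [this, ncard_empty]; omega)
  let H : SimpleGraph X := ⟨fun x y => ∃ e, Lab e x y,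
    ⟨fun x y ⟨e, h⟩ => ⟨e, hsymm e x y h⟩⟩, ⟨fun x ⟨e, h⟩ => hne e x h⟩⟩
  obtain ⟨M⟩ := exists_rm (S := S) H (W := Finset.univ.filter fun x => ∃ y, H.Adj x y)
    (fun x y h => by simpa using ⟨y, h⟩) (fun x hx => by simpa using hx)
    (hem.mono (Finset.subset_univ _) fun _ _ _ _ _ h => h)
  choose L hL using fun d : H.Dart => (d.adj : ∃ e, Lab e d.fst d.snd)
  have hloc : ∀ x : X, ∃ κ : H.Dart → V, (∀ d, d.fst = x → κ d ∈ L d) ∧
      (∀ v d, x = pos v → κ d = v) ∧ ∀ (P : Set V) (φ ψ : H.Dart × Bool),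
      φ.1.fst = x → ψ.1.fst = x → κ φ.1 ∈ P → κ ψ.1 ∈ P →
        ConnIn M.flag.Adj {χ | χ.1 ∈ {d : H.Dart | d.fst = x ∧ κ d ∈ P}} φ ψ := by
    intro x
    by_cases hx : x ∈ range pos
    · obtain ⟨v, rfl⟩ := hx
      exact ⟨fun _ => v, fun d hd => hv _ v _ (hd ▸ hL d), fun w _ h => hpos h,
        fun P φ ψ h1 h2 h3 _ => M.conn_all _ (h1.trans h2.symm) fun d hd => ⟨hd.trans h2, h3⟩⟩
    by_cases hc : ∃ v, ∀ e ∈ {e | ∃ y, Lab e x y}, v ∈ e
    · obtain ⟨v, hc⟩ := hc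
      exact ⟨fun _ => v, fun d hd => hc _ ⟨_, hd ▸ hL d⟩, fun w _ h => absurd ⟨w, h.symm⟩ hx,
        fun P φ ψ h1 h2 h3 _ => M.conn_all _ (h1.trans h2.symm) fun d hd => ⟨hd.trans h2, h3⟩⟩
    obtain ⟨p, q, r, hpqr⟩ := sym2_triangle {e | ∃ y, Lab e x y}
      (fun e ⟨y, he⟩ f ⟨z, hf⟩ => hn e f x y z hx he hf) hc
    have h2 : ∀ e, (Finset.univ.filter (Lab e x)).card ≤ 2 := by
      intro e
      by_contra h
      obtain ⟨a, b, c, ha, hb, hc, h1, h2, h3⟩ := Finset.two_lt_card_iff.1 (not_le.1 h)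
      simp only [Finset.mem_filter_univ] at ha hb hc
      rcases ht e x a b c ha hb hc with h | h | h <;> contradiction
    have h6 : (nb H x).card ≤ 6 := by
      refine le_trans (Finset.card_le_card (t := Finset.univ.filter (Lab p x) ∪
        Finset.univ.filter (Lab q x) ∪ Finset.univ.filter (Lab r x)) fun y hy => ?_)
        ((Finset.card_union_le _ _).trans (add_le_add ((Finset.card_union_le _ _).trans
          (add_le_add (h2 p) (h2 q))) (h2 r)))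
      obtain ⟨e, he⟩ := mem_nb.1 hy
      simp only [Finset.mem_union, Finset.mem_filter_univ]
      rcases hpqr e ⟨y, he⟩ with rfl | rfl | rfl <;> simp [he]
    obtain ⟨κ, k1, k2⟩ := M.local_col L x h6 fun d d' hd hd' =>
      hn _ _ x _ _ hx (hd ▸ hL d) (hd' ▸ hL d')
    exact ⟨κ, k1, fun w _ h => absurd ⟨w, h.symm⟩ hx, k2⟩
  choose κ k1 k2 k3 using hloc
  have hd : ∀ a b, G.Adj a b → ∃ φ : H.Dart × Bool, φ.1.fst = pos a := by
    intro a b hab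
    rcases (hpath a b hab).cases_head with h | ⟨y, h, -⟩
    · exact absurd (hpos h) hab.ne
    · exact ⟨(⟨(pos a, y), _, h⟩, true), rfl⟩
  obtain ⟨root, hroot⟩ : ∃ root : V → H.Dart × Bool, ∀ a b, G.Adj a b → (root a).1.fst = pos a := by
    obtain ⟨a₀, b₀, h₀⟩ := hE
    obtain ⟨φ₀, -⟩ := hd a₀ b₀ h₀
    refine ⟨fun v => if h : ∃ φ : H.Dart × Bool, φ.1.fst = pos v then h.choose else φ₀,
      fun a b hab => ?_⟩
    simp only [dif_pos (hd a b hab)]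
    exact (hd a b hab).choose_spec
  refine KS.wit (W := Finset.univ) (H := M.flag) _ hV V G root (fun φ => κ φ.1.fst φ.1)
    ⟨fun _ _ _ => Finset.mem_univ _, fun _ => Finset.mem_univ _, M.emF, fun a b hab => ?_⟩
    (fun a b hab => k2 _ a _ (hroot a b hab)) le_rfl
  have loc : ∀ φ ψ : H.Dart × Bool, φ.1.fst = ψ.1.fst → κ φ.1.fst φ.1 ∈ s(a, b) →
      κ ψ.1.fst ψ.1 ∈ s(a, b) →
      ConnIn M.flag.Adj (Two (fun φ : H.Dart × Bool => κ φ.1.fst φ.1) a b) φ ψ := by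
    intro φ ψ h1 h2 h3
    refine (k3 ψ.1.fst {v | v ∈ s(a, b)} φ ψ h1 rfl (h1 ▸ h2) h3).mono ?_
    rintro χ ⟨h4, h5⟩
    rw [← h4] at h5
    exact Sym2.mem_iff.1 h5
  have key : ∀ x, Relation.ReflTransGen (Lab s(a, b)) (pos a) x → ∀ φ : H.Dart × Bool,
      φ.1.fst = x → κ φ.1.fst φ.1 ∈ s(a, b) →
      ConnIn M.flag.Adj (Two (fun φ : H.Dart × Bool => κ φ.1.fst φ.1) a b) (root a) φ := by
    intro x hx
    induction hx with
    | refl =>
      intro φ h1 h2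
      exact loc _ _ ((hroot a b hab).trans h1.symm)
        (by rw [k2 _ a _ (hroot a b hab)]; exact Sym2.mem_mk_left _ _) h2
    | @tail x y _ h ih =>
      intro φ h1 h2
      set d : H.Dart := ⟨(x, y), _, h⟩ with hd'
      have e1 : κ d.fst d ∈ s(a, b) := huniq _ _ _ _ (hL d) h ▸ k1 _ d rfl
      have e2 : κ (M.a0 (d, true)).1.fst (M.a0 (d, true)).1 ∈ s(a, b) := by
        rw [M.a0_fst]
        exact huniq _ _ _ _ (hL d.symm) (hsymm _ _ _ h) ▸ k1 _ d.symm rfl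
      exact ((ih (d, true) rfl e1).tail
        ⟨Or.inl rfl, Sym2.mem_iff.1 e1, Sym2.mem_iff.1 e2⟩).trans
        (loc _ _ ((M.a0_vx _).trans h1.symm) e2 h2)
  exact key _ (hpath a b hab) _ (hroot b a hab.symm)
    (by rw [k2 _ b _ (hroot b a hab.symm)]; exact Sym2.mem_mk_right _ _)

end Pool.Agent.Lib.EU59
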