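import Mathlib
import Pool.Agent.Lib.EU59.Init

set_option autoImplicit false

open Set Function unitInterval

namespace Pool.Agent.Lib.EU59

open Pool.Agent.Lib.MP_15a8b6_co

variable {S : Type*} [TopologicalSpace S] {V : Type*} {G : SimpleGraph V}

/-- Consecutive marked parameters on an arc. -/
def Cons (D : Drawing G S) (W : Finset S) (e : G.edgeSet) (s t : I) : Prop :=
  D.arc e s ∈ W ∧ D.arc e t ∈ W ∧ s < t ∧ ∀ r, D.arc e r ∈ W → ¬ (s < r ∧ r < t)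

theorem Cons.succ {D : Drawing G S} {W : Finset S} {e : G.edgeSet} {s t t' : I}
    (h : Cons D W e s t) (h' : Cons D W e s t') : t = t' :=
  le_antisymm (not_lt.1 fun h1 => h.2.2.2 t' h'.2.1 ⟨h'.2.2.1, h1⟩)
    (not_lt.1 fun h1 => h'.2.2.2 t h.2.1 ⟨h.2.2.1, h1⟩)

theorem Cons.pred {D : Drawing G S} {W : Finset S} {e : G.edgeSet} {s s' t : I}
    (h : Cons D W e s t) (h' : Cons D W e s' t) : s = s' :=
  le_antisymm (not_lt.1 fun h1 => h'.2.2.2 s h.1 ⟨h1, h.2.2.1⟩)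
    (not_lt.1 fun h1 => h.2.2.2 s' h'.1 ⟨h1, h'.2.2.1⟩)

theorem em_cons [Finite V] (D : Drawing G S) (W : Finset S)
    (hcr : ∀ e f, e ≠ f → ∀ p ∈ range (D.arc e) ∩ range (D.arc f), p ∈ W) :
    Em S W fun a b => ∃ e s t, Cons D W e s t ∧ D.arc e s = a ∧ D.arc e t = b := by
  have hT : ∀ e, (D.arc e ⁻¹' (W : Set S)).Finite := fun e =>
    W.finite_toSet.preimage (D.arc_inj e).injOn
  refine em_of_emb (E := G.edgeSet × I × I) ⟨{g | Cons D W g.1 g.2.1 g.2.2},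
    fun g => s(D.arc g.1 g.2.1, D.arc g.1 g.2.2), id, fun g => D.arc g.1 '' Icc g.2.1 g.2.2,
      ?_, ⟨injOn_id _, ?_, ?_, ?_⟩, ?_⟩
  · refine (finite_iUnion fun e : G.edgeSet =>
      (finite_singleton e).prod ((hT e).prod (hT e))).subset ?_
    rintro ⟨e, s, t⟩ h
    exact mem_iUnion.2 ⟨e, rfl, h.1, h.2.1⟩
  · rintro ⟨e, s, t⟩ ⟨h1, h2, h3, -⟩
    exact ⟨_, h1, _, h2, rfl, isArc_sub (⟨D.arc e, rfl, rfl⟩ : Path _ _) (D.arc_inj e) h3⟩
  · rintro ⟨e, s, t⟩ ⟨-, -, -, h4⟩ w hw ⟨r, hr, rfl⟩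
    rcases eq_or_lt_of_le hr.1 with h5 | h5
    · simp [← h5]
    rcases eq_or_lt_of_le hr.2 with h6 | h6
    · simp [h6]
    exact absurd ⟨h5, h6⟩ (h4 r hw)
  · rintro ⟨e, s, t⟩ ⟨h1, h2, -, h4⟩ ⟨f, s', t'⟩ ⟨h1', h2', -, h4'⟩ hne _
      ⟨⟨r, hr, rfl⟩, ⟨r', hr', h5⟩⟩
    refine ⟨_, ?_, rfl⟩
    by_cases hef : e = f
    · subst hef
      obtain rfl := D.arc_inj e h5
      by_contra hc
      have h6 : ∀ q, D.arc e q ∈ W → q ≠ r' := by
        rintro q hq rfl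
        exact hc hq
      have a1 : s < r' := lt_of_le_of_ne hr.1 (h6 s h1)
      have a2 : r' < t := lt_of_le_of_ne hr.2 (h6 t h2).symm
      have a3 : s' < r' := lt_of_le_of_ne hr'.1 (h6 s' h1')
      have a4 : r' < t' := lt_of_le_of_ne hr'.2 (h6 t' h2').symm
      apply hne
      rw [le_antisymm (not_lt.1 fun h : s' < s => h4' s h1 ⟨h, a1.trans a4⟩)
          (not_lt.1 fun h : s < s' => h4 s' h1' ⟨h, a3.trans a2⟩),
        le_antisymm (not_lt.1 fun h : t' < t => h4 t' h2' ⟨a1.trans a4, h⟩)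
          (not_lt.1 fun h : t < t' => h4' t h2 ⟨a3.trans a2, h⟩)]
    · exact hcr e f hef _ ⟨⟨r, rfl⟩, ⟨r', h5⟩⟩
  · rintro _ - _ - - ⟨e, s, t, h, rfl, rfl⟩
    exact ⟨(e, s, t), h, rfl⟩

theorem exists_marks [Finite V] (D : Drawing G S) : ∃ W : Finset S, (∀ v, D.pos v ∈ W) ∧
    (∀ e f, e ≠ f → ∀ p ∈ range (D.arc e) ∩ range (D.arc f), p ∈ W) ∧
    ∀ e f s t, e ≠ f → s < t → D.arc e s ∈ range (D.arc f) → D.arc e t ∈ range (D.arc f) →
      ∃ r, D.arc e r ∈ W ∧ s < r ∧ r < t := by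
  have hfin : (⋃ e, ⋃ f, ⋃ (_ : e ≠ f), range (D.arc e) ∩ range (D.arc f)).Finite :=
    finite_iUnion fun e => finite_iUnion fun f => finite_iUnion fun h => D.finite_inter e f h
  set C := ⋃ e, ⋃ f, ⋃ (_ : e ≠ f), range (D.arc e) ∩ range (D.arc f) with hC
  have hcr : ∀ e f, e ≠ f → ∀ p ∈ range (D.arc e) ∩ range (D.arc f), p ∈ C := fun e f h p hp =>
    mem_iUnion.2 ⟨e, mem_iUnion.2 ⟨f, mem_iUnion.2 ⟨h, hp⟩⟩⟩
  have hT : ∀ e, (D.arc e ⁻¹' C).Finite := fun e => hfin.preimage (D.arc_inj e).injOn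
  have hm : ∀ p : I × I, ∃ r, p.1 < p.2 → p.1 < r ∧ r < p.2 := fun p => by
    by_cases h : p.1 < p.2
    · obtain ⟨r, hr⟩ := exists_between h
      exact ⟨r, fun _ => hr⟩
    · exact ⟨0, fun h1 => absurd h1 h⟩
  choose md hmd using hm
  have h2 : (range D.pos ∪ C ∪ ⋃ e, D.arc e '' (md '' (D.arc e ⁻¹' C) ×ˢ (D.arc e ⁻¹' C))).Finite :=
    ((finite_range _).union hfin).union
      (finite_iUnion fun e => (((hT e).prod (hT e)).image _).image _)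
  refine ⟨h2.toFinset, fun v => h2.mem_toFinset.2 (Or.inl (Or.inl ⟨v, rfl⟩)),
    fun e f h p hp => h2.mem_toFinset.2 (Or.inl (Or.inr (hcr e f h p hp))),
    fun e f s t h hst h3 h4 => ⟨md (s, t), h2.mem_toFinset.2 (Or.inr (mem_iUnion.2
      ⟨e, _, ⟨(s, t), ⟨hcr e f h _ ⟨⟨s, rfl⟩, h3⟩, hcr e f h _ ⟨⟨t, rfl⟩, h4⟩⟩, rfl⟩, rfl⟩)),
      hmd (s, t) hst⟩⟩

theorem wit_of_drawing [Fintype V] [T2Space S] [ChartedSpace E2 S] (D : Drawing G S)
    (h : ∀ e f : G.edgeSet, e ≠ f → D.Meet e f → ∃ v, v ∈ (e : Sym2 V) ∧ v ∈ (f : Sym2 V))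
    (hV : 3 ≤ Fintype.card V) : Wit S G.edgeSet.ncard (Fintype.card V) := by
  classical
  have hS : HD S := fun _ _ hO hp => exists_disc (E := E2) hO hp
  obtain ⟨v₀⟩ : Nonempty V := Fintype.card_pos_iff.1 (by omega)
  have : Nonempty S := ⟨D.pos v₀⟩
  obtain ⟨W, hpos, hcr, hmid⟩ := exists_marks D
  set Lab : Sym2 V → W → W → Prop := fun e x y => ∃ (he : e ∈ G.edgeSet) (s t : I),
    (Cons D W ⟨e, he⟩ s t ∨ Cons D W ⟨e, he⟩ t s) ∧ D.arc ⟨e, he⟩ s = x ∧ D.arc ⟨e, he⟩ t = y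
    with hLab
  have hsymm : ∀ e x y, Lab e x y → Lab e y x := by
    rintro e x y ⟨he, s, t, h1, h2, h3⟩
    exact ⟨he, t, s, h1.symm, h3, h2⟩
  have hend : ∀ (e : G.edgeSet) s, s = 0 ∨ s = 1 → ∃ v, D.pos v = D.arc e s := by
    intro e s hs
    obtain ⟨u, v, -, h0, h1⟩ := D.ends e
    rcases hs with rfl | rfl
    · exact ⟨u, h0.symm⟩
    · exact ⟨v, h1.symm⟩
  refine wit_of_lab (X := W) (fun v => ⟨D.pos v, hpos v⟩)
    (fun u v huv => D.pos_inj (congrArg Subtype.val huv)) Lab ?_ hsymm ?_ ?_ ?_ ?_ ?_ ?_ hV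
  · refine (em_cons D W hcr).symm_closure.minor hS W (Finset.Subset.refl _)
      (fun p => if hp : p ∈ W then (⟨p, hp⟩ : W) else ⟨_, hpos v₀⟩) (fun a ha b hb hab => ?_)
      (fun u _ => ⟨u, u.2, by simp⟩) ?_
    · simp only [dif_pos ha, dif_pos hb, Subtype.mk.injEq] at hab
      rw [hab]
      exact .refl
    · rintro u - v - - ⟨e, he, s, t, h1, h2, h3⟩
      refine ⟨u, u.2, v, v.2, ?_, by simp, by simp⟩
      exact h1.imp (fun h1 => ⟨_, s, t, h1, h2, h3⟩) fun h1 => ⟨_, t, s, h1, h3, h2⟩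
  · rintro e x ⟨he, s, t, h1, h2, h3⟩
    obtain rfl := D.arc_inj _ (h2.trans h3.symm)
    exact h1.elim (fun h => h.2.2.1.false) fun h => h.2.2.1.false
  · rintro e f x y ⟨he, s, t, h1, h2, h3⟩ ⟨hf, s', t', -, h2', h3'⟩
    by_contra hne
    have h4 : (⟨e, he⟩ : G.edgeSet) ≠ ⟨f, hf⟩ := fun h => hne (congrArg Subtype.val h)
    have h5 : D.arc ⟨e, he⟩ s ∈ range (D.arc ⟨f, hf⟩) := ⟨s', h2'.trans h2.symm⟩
    have h6 : D.arc ⟨e, he⟩ t ∈ range (D.arc ⟨f, hf⟩) := ⟨t', h3'.trans h3.symm⟩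
    rcases h1 with h1 | h1
    · obtain ⟨r, h7, h8⟩ := hmid _ _ s t h4 h1.2.2.1 h5 h6
      exact h1.2.2.2 r h7 h8
    · obtain ⟨r, h7, h8⟩ := hmid _ _ t s h4 h1.2.2.1 h6 h5
      exact h1.2.2.2 r h7 h8
  · intro a b hab
    obtain ⟨u, v, h5, h0, h1⟩ := D.ends ⟨s(a, b), hab⟩
    have hT : (D.arc ⟨s(a, b), hab⟩ ⁻¹' (W : Set S)).Finite :=
      W.finite_toSet.preimage (D.arc_inj _).injOn
    have key : ∀ t, Relation.ReflTransGen (Cons D W ⟨s(a, b), hab⟩) 0 t → ∀ y : W,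
        D.arc ⟨s(a, b), hab⟩ t = y → Relation.ReflTransGen (Lab s(a, b)) ⟨_, hpos u⟩ y := by
      intro t ht
      induction ht with
      | refl =>
        intro y hy
        rw [show y = ⟨_, hpos u⟩ from Subtype.ext (hy.symm.trans h0)]
      | tail _ h ih => exact fun y hy => (ih ⟨_, h.1⟩ rfl).tail ⟨hab, _, _, Or.inl h, rfl, hy⟩
    have h6 := key 1 (chain hT (by simpa [h0] using hpos u) 1 (by simpa [h1] using hpos v))
      ⟨_, hpos v⟩ h1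
    rcases Sym2.eq_iff.1 h5 with ⟨rfl, rfl⟩ | ⟨rfl, rfl⟩
    · exact h6
    · exact Relation.ReflTransGen.mono (fun x y h => hsymm _ y x h) _ _ h6.swap
  · rintro e v y ⟨he, s, t, -, h2, -⟩
    obtain ⟨a, b, h5, h0, h1⟩ := D.ends ⟨e, he⟩
    rw [show e = s(a, b) from h5, Sym2.mem_iff]
    rcases D.avoid _ s v h2 with rfl | rfl
    · exact Or.inl (D.pos_inj (h2.symm.trans h0))
    · exact Or.inr (D.pos_inj (h2.symm.trans h1))
  · rintro e f x y z hx ⟨he, s, t, -, h2, -⟩ ⟨hf, s', t', -, h2', -⟩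
    by_cases hef : e = f
    · exact ⟨e.out.1, e.out_fst_mem, hef ▸ e.out_fst_mem⟩
    have h3 : ∀ (g : G.edgeSet) r, D.arc g r = x → ¬ (r = 0 ∨ r = 1) := fun g r h4 h5 => by
      obtain ⟨v, hv⟩ := hend g r h5
      exact hx ⟨v, Subtype.ext (hv.trans h4)⟩
    exact h ⟨e, he⟩ ⟨f, hf⟩ (fun h => hef (congrArg Subtype.val h))
      ⟨s, s', fun h => h3 _ _ h2 (Or.inl h), fun h => h3 _ _ h2 (Or.inr h),
        fun h => h3 _ _ h2' (Or.inl h), fun h => h3 _ _ h2' (Or.inr h), h2.trans h2'.symm⟩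
  · rintro e x a b c ⟨he, s, t, h1, h2, h3⟩ ⟨_, s', t', h1', h2', h3'⟩ ⟨_, s'', t'', h1'', h2'', h3''⟩
    obtain rfl := D.arc_inj _ (h2.trans h2'.symm)
    obtain rfl := D.arc_inj _ (h2.trans h2''.symm)
    have key : t = t' ∨ t = t'' ∨ t' = t'' := by
      rcases h1 with h1 | h1 <;> rcases h1' with h1' | h1' <;> rcases h1'' with h1'' | h1''
      all_goals first
        | exact Or.inl (h1.succ h1')
        | exact Or.inl (h1.pred h1')
        | exact Or.inr (Or.inl (h1.succ h1''))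
        | exact Or.inr (Or.inl (h1.pred h1''))
        | exact Or.inr (Or.inr (h1'.succ h1''))
        | exact Or.inr (Or.inr (h1'.pred h1''))
    rcases key with rfl | rfl | rfl
    · exact Or.inl (Subtype.ext (h3.symm.trans h3'))
    · exact Or.inr (Or.inl (Subtype.ext (h3.symm.trans h3'')))
    · exact Or.inr (Or.inr (Subtype.ext (h3'.symm.trans h3'')))

end Pool.Agent.Lib.EU59
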